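import Pool.Agent.P.MP_ab3ecb_nt.TS.Iface

/-! Step APX. -/

set_option autoImplicit false
set_option linter.unusedSectionVars false

namespace Pool.Agent.P.MP_ab3ecb_nt.TS

open Filter Topology NumberField Pool.Agent.P.MP_ab3ecb_nt.TK
open Pool.Agent.P.MP_8b7eba_nt.R2 hiding Sm E1
open scoped Classical NNReal

theorem p_APX :
    S_APX := by
  intro L _ _ T r ι x y z b h hb
  have h0 := mt h.zero hb
  obtain ⟨-, hX, -⟩ := h.some h0
  have hc : Continuous (algebraMap ℚ_[r.1] (Via ι)) :=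
    (AddMonoidHomClass.isometry_of_norm _ (norm_via ι)).continuous
  let f : ℚ_[r.1] × ℚ_[r.1] → ℝ := fun q => ‖ev T.F b - (3 * (T.a : Via ι) * T.d *
    ((algebraMap _ (Via ι) q.1 - T.θ * algebraMap _ (Via ι) q.2) /
      (algebraMap _ (Via ι) q.1 + T.θ * algebraMap _ (Via ι) q.2))) ^ 2‖
  have hf : ContinuousAt f (x, z) := by
    have h2 : ContinuousAt (fun q : ℚ_[r.1] × ℚ_[r.1] =>
        (algebraMap _ (Via ι) q.1 - T.θ * algebraMap _ (Via ι) q.2) /
          (algebraMap _ (Via ι) q.1 + T.θ * algebraMap _ (Via ι) q.2)) (x, z) :=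
      ContinuousAt.div (by fun_prop) (by fun_prop) h0
    exact (continuousAt_const.sub ((continuousAt_const.mul h2).pow 2)).norm
  have h1 : f (x, z) < 1 := by
    have : f (x, z) = ‖(0 : Via ι)‖ := by
      refine congrArg norm ?_
      rw [Tw.ev_F, hX]; ring
    rw [this, norm_zero]; exact one_pos
  obtain ⟨⟨s, t⟩, hst⟩ := ((Padic.denseRange_ratCast r.1).prodMap
    (Padic.denseRange_ratCast r.1)).mem_nhds (hf.eventually_lt_const h1)
  refine ⟨3 * T.a * T.d * ((s - T.θ * t) / (s + T.θ * t)), ?_⟩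
  have e : ∀ a : 𝓞 L, algebraMap L (Via ι) (a : L) = (a : Via ι) := fun _ => rfl
  rw [← NNReal.coe_lt_coe, NormedField.valuation_apply, coe_nnnorm]
  simpa [f, map_ofNat, e] using hst

end Pool.Agent.P.MP_ab3ecb_nt.TS
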