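import Pool.Agent.P.MP_ab3ecb_nt.TS.Iface

/-! Step CH. -/

set_option autoImplicit false
set_option linter.unusedSectionVars false

namespace Pool.Agent.P.MP_ab3ecb_nt.TS

open Filter Topology NumberField Pool.Agent.P.MP_ab3ecb_nt.TK
open Pool.Agent.P.MP_8b7eba_nt.R2 hiding Sm E1
open scoped Classical NNReal

theorem p_CH (hMUL : S_MUL) (hETA : S_ETA) (hCHA : S_CHA) (hCHB : S_CHB) :
    S_CH := by
  intro R _ _ a b b' a' M _ _ _ v p r Γ _ j j' x y x' y' P P' U U' hp h7 hv hr hΓ hG h h' c c' y0 y0'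
  have r1 : r < 1 := lt_of_pow_lt_pow_left₀ 2 zero_le_one (by rw [one_pow]; exact hr.trans_lt hv)
  have k1 : ∀ {x y x' y' : M} {P P' : Ec a b b' a' M} {U U' : Ec a' b' b a M},
      HP v a b b' a' r x y P U → HP v a b b' a' r x' y' P' U' → Cl v j j' P U → Cl v j j' P' U' →
      y' ≠ 0 → v (x - x') < 1 → v y' ≤ v y → v (y + y') = v y → P = P' := by
    intro x y x' y' P P' U U' h h' c c' y0' hx hy hs
    have e := hCHB a b b' a' M v p Γ j j' x y x' y' P P' U U' hp h7 hv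
      ((pow_le_pow_left' h.vy 2).trans hr) hΓ hG (h.mono le_rfl) (h'.mono hy) c c' y0' hx hs
    have e' := (hETA a b b' a' M v r x y x' y' hG h.eq h'.eq h'.vx hx r1 h.vy h'.vy).1
    rw [e, sub_self, map_zero, v.zero_iff, sub_eq_zero] at e'
    exact pt_ext h.P0 h'.P0 (by rw [h.PX, h'.PX, e']) (by rw [h.PY, h'.PY, e])
  have k2 : ∀ {x y x' y' : M} {P P' : Ec a b b' a' M} {U U' : Ec a' b' b a M},
      HP v a b b' a' r x y P U → HP v a b b' a' r x' y' P' U' → Cl v j j' P U → Cl v j j' P' U' →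
      y' ≠ 0 → v (x - x') < 1 → v y' ≤ v y → P = P' ∨ P = -P' := by
    intro x y x' y' P P' U U' h h' c c' y0' hx hy
    rcases (v.map_add_le le_rfl hy).eq_or_lt with hs | hs
    · exact .inl (k1 h h' c c' y0' hx hy hs)
    · refine .inr (k1 h h'.neg c c'.neg (neg_ne_zero.2 y0') hx (by rwa [v.map_neg]) ?_)
      have e : v (2 * y) = v y := by rw [map_mul, hG.two, one_mul]
      rw [show y + -y' = 2 * y - (y + y') by ring, v.map_sub_eq_of_lt_left (by rwa [e]), e]
  have hx := hCHA a b b' a' M v p r Γ j j' x y x' y' P P' U U' hp h7 hv hr hΓ hG h h' c c' y0 y0'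
  rcases le_total (v y') (v y) with hy | hy
  · exact k2 h h' c c' y0' hx hy
  · exact (k2 h' h c' c y0 (by rwa [v.map_sub_swap]) hy).imp Eq.symm fun e => by rw [e, neg_neg]

end Pool.Agent.P.MP_ab3ecb_nt.TS
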