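import Pool.Agent.P.MP_ab3ecb_nt.TS.Iface

/-! Step CHA. -/

set_option autoImplicit false
set_option linter.unusedSectionVars false

namespace Pool.Agent.P.MP_ab3ecb_nt.TS

open Filter Topology NumberField Pool.Agent.P.MP_ab3ecb_nt.TK
open Pool.Agent.P.MP_8b7eba_nt.R2 hiding Sm E1
open scoped Classical NNReal

namespace CHAx

variable {M : Type} [Field M] {v : Valuation M ℝ≥0} {r : ℝ≥0}

lemma pow_le (hr : r < 1) : r ^ 4 ≤ r := pow_le_of_le_one (by simp) hr.le (by norm_num)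

lemma ap_of {w u e : M} (hr : r < 1) (h : v (w - u * (1 - e)) ≤ v u * r ^ 4) (he : v e ≤ r) :
    Ap v r w u := by
  rw [Ap, show w - u = (w - u * (1 - e)) - u * e by ring]
  exact v.map_sub_le (h.trans (mul_le_mul_right (pow_le hr) _)) (vm le_rfl he)

lemma fin {zP zU zP' zU' cp cm cp' cm' u u' x x' : M} (hr : r < 1) (hu : u ≠ 0) (hu' : u' ≠ 0)
    (a1 : Ap v r (zP * cp) u) (a2 : Ap v r (zU * cm) u) (a3 : Ap v r (zP' * cp') u')
    (a4 : Ap v r (zU' * cm') u') (d : Ap v r (zP * zU') (zU * zP')) (h1 : v cp = 1)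
    (h2 : v cp' = 1) (h3 : v cm' = 1) (h4 : v (cm + x * cp) < 1) (h5 : v (cm' + x' * cp') < 1) :
    v (x - x') < 1 := by
  have b1 := ((a1.mul hr a4).mul hr (Ap.refl r (cm * cp'))).symm hr
  have b2 := d.mul hr (Ap.refl r (cp * cm' * (cm * cp')))
  have b3 := (a2.mul hr a3).mul hr (Ap.refl r (cp * cm'))
  rw [show zP * cp * (zU' * cm') * (cm * cp') = zP * zU' * (cp * cm' * (cm * cp')) by ring] at b1
  rw [show zU * cm * (zP' * cp') * (cp * cm') = zU * zP' * (cp * cm' * (cm * cp')) by ring] at b3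
  have b4 := ((b1.tr hr b2).tr hr b3).cancel (mul_ne_zero hu hu')
  rw [Ap, map_mul, h1, h3, one_mul, one_mul] at b4
  have e : (x - x') * (cp * cp') =
      (cm + x * cp) * cp' - cp * (cm' + x' * cp') - (cm * cp' - cp * cm') := by ring
  have b5 : v ((x - x') * (cp * cp')) < 1 := by
    rw [e]
    refine v.map_sub_lt (v.map_sub_lt ?_ ?_) (b4.trans_lt hr)
    · rwa [map_mul, h2, mul_one]
    · rwa [map_mul, h1, one_mul]
  rwa [map_mul, map_mul, h1, h2, one_mul, mul_one] at b5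

end CHAx

open CHAx in
theorem p_CHA (hMUL : S_MUL) (hDET : S_DET) (hCON : S_CON) (hEXA : S_EXA) (hEXB : S_EXB) :
    S_CHA := by
  intro R _ _ a b b' a' M _ _ _ v p r Γ _ j j' x y x' y' P P' U U' hp h7 hvp hr2 hRk hG h h' c c'
    hy hy'
  have hr : r < 1 := (sq_lt_one_iff₀ (by simp)).1 (hr2.trans_lt hvp)
  have key : ∀ (x y : M) (P : Ec a b b' a' M) (U : Ec a' b' b a M), HP v a b b' a' r x y P U →
      y ≠ 0 → -y - y ≠ 0 ∧ -P - P ≠ 0 ∧ -U - U ≠ 0 ∧ Sm v r (-P - P) ∧ Sm v r (-U - U) ∧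
        Ap v r (Z (-P - P) * (-3 * g1 (a : M) b b' (x ^ 2))) (-y - y) ∧
        Ap v r (Z (-U - U) * (-3 * g1 (a' : M) b' b (1 / x ^ 2) * x ^ 3)) (-y - y) ∧
        v (-3 * g1 (a : M) b b' (x ^ 2)) = 1 ∧ v (-3 * g1 (a' : M) b' b (1 / x ^ 2) * x ^ 3) = 1 ∧
        v (-3 * g1 (a' : M) b' b (1 / x ^ 2) * x ^ 3 + x * (-3 * g1 (a : M) b b' (x ^ 2))) < 1 := by
    intro x y P U h hy
    have h0 : -y - y ≠ 0 := by
      rw [show -y - y = -2 * y by ring]; exact mul_ne_zero (by norm_num) hy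
    have hx : v (x - x) < 1 := by simp
    obtain ⟨a1, a2, a3⟩ := hEXA a b b' a' M v r x (-y) x y _ _ _ _ hG h.neg h hx hr
      (sub_ne_zero.1 h0)
    obtain ⟨b1, b2, b3⟩ := hEXB a b b' a' M v r x (-y) x y _ _ _ _ hG h.neg h hx hr
      (sub_ne_zero.1 h0)
    obtain ⟨c1, c2, c3, c4, c5, c6, -⟩ := hCON a b b' a' M v x y hG h.eq h.vx (h.vy.trans_lt hr)
    have hn : v (-y) ≤ r := by rw [v.map_neg]; exact h.vy
    have y1 : v (-y - y) ≤ 1 := (v.map_sub_le hn h.vy).trans hr.le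
    have y2 : v (-y + 2 * y) ≤ r := v.map_add_le hn (vi hG.two.le h.vy)
    have m3 : v (-3 : M) = 1 := by rw [v.map_neg]; exact hG.three
    refine ⟨h0, a1, b1, a2, b2, ap_of hr a3 (vi (vi c4 y1) y2), ?_, by rw [map_mul, m3, c1, one_mul],
      by rw [map_mul, map_mul, m3, c2, map_pow, h.vx]; simp, ?_⟩
    · rw [sub_sub (1 : M)] at b3
      exact ap_of hr b3 (v.map_add_le (by simp) (vi (vi c5 y1) y2))
    · rwa [show -3 * g1 (a' : M) b' b (1 / x ^ 2) * x ^ 3 + x * (-3 * g1 (a : M) b b' (x ^ 2)) =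
        -3 * (g1 (a' : M) b' b (1 / x ^ 2) * x ^ 3 + x * g1 (a : M) b b' (x ^ 2)) by ring, map_mul,
        m3, one_mul]
  obtain ⟨a0, a1, a2, a3, a4, a5, a6, a7, -, a9⟩ := key x y P U h hy
  obtain ⟨b0, b1, b2, b3, b4, b5, b6, b7, b8, b9⟩ := key x' y' P' U' h' hy'
  have d := hDET _ _ _ _ M v p r Γ j j' _ _ _ _ hp h7 hvp hr2 hRk (c.neg.sub hMUL c)
    (c'.neg.sub hMUL c') a1 a2 b1 b2 a3 a4 b3 b4
  exact fin hr a0 b0 a5 a6 b5 b6 (d.mono (pow_le hr)) a7 b7 b8 a9 b9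

end Pool.Agent.P.MP_ab3ecb_nt.TS
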