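import Pool.Agent.P.MP_ab3ecb_nt.TS.Iface

/-! Step CHB. -/

set_option autoImplicit false
set_option linter.unusedSectionVars false

namespace Pool.Agent.P.MP_ab3ecb_nt.TS

open Filter Topology NumberField Pool.Agent.P.MP_ab3ecb_nt.TK
open Pool.Agent.P.MP_8b7eba_nt.R2 hiding Sm E1
open scoped Classical NNReal

namespace CHBx

variable {M : Type} [Field M] {v : Valuation M ℝ≥0}

lemma one_add {s : M} {r : ℝ≥0} (hr : r < 1) (h : v s ≤ r ^ 2) : v (1 + s) = 1 :=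
  v.map_one_add_of_lt (h.trans_lt (pow_lt_one₀ zero_le hr two_ne_zero))

lemma ap_of {z m s : M} {r : ℝ≥0} (hr : r < 1) (hs : v s ≤ r ^ 2)
    (h : v (z - m * (1 + s)) ≤ v m * r ^ 4) : Ap v (r ^ 4) z (m * (1 + s)) := by
  rw [Ap, map_mul, one_add hr hs, mul_one]; exact h

lemma core {zp zm np nm m m' s1 s2 t1 t2 : M} {r : ℝ≥0} (hr : r < 1) (hm : m ≠ 0) (hm' : m' ≠ 0)
    (a1 : v s1 ≤ r ^ 2) (a2 : v s2 ≤ r ^ 2) (a3 : v t1 ≤ r ^ 2) (a4 : v t2 ≤ r ^ 2)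
    (h1 : v (zp - m * (1 + s1)) ≤ v m * r ^ 4) (h2 : v (zm - m * (1 + s2)) ≤ v m * r ^ 4)
    (h3 : v (np - m' * (1 + t1)) ≤ v m' * r ^ 4) (h4 : v (nm - m' * (1 + t2)) ≤ v m' * r ^ 4)
    (h : Ap v (r ^ 4) (zp * nm) (zm * np)) : v (s1 + t2 - s2 - t1) ≤ r ^ 4 := by
  have hc : r ^ 4 < 1 := pow_lt_one₀ zero_le hr four_ne_zero
  have b1 := ((ap_of hr a1 h1).mul hc (ap_of hr a4 h4)).symm hc
  have b2 := (ap_of hr a2 h2).mul hc (ap_of hr a3 h3)
  have b3 := (b1.tr hc h).tr hc b2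
  rw [mul_mul_mul_comm m (1 + s1), mul_mul_mul_comm m (1 + s2)] at b3
  have b4 := b3.cancel (mul_ne_zero hm hm')
  rw [Ap, map_mul, one_add hr a2, one_add hr a3, one_mul, one_mul] at b4
  have e : s1 + t2 - s2 - t1 =
      ((1 + s1) * (1 + t2) - (1 + s2) * (1 + t1)) + (s2 * t1 - s1 * t2) := by ring
  have e4 : r ^ 4 = r ^ 2 * r ^ 2 := by ring
  rw [e]
  exact v.map_add_le b4 (v.map_sub_le (e4 ▸ vm a2 a3) (e4 ▸ vm a1 a4))

end CHBx

open CHBx in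
theorem p_CHB (hMUL : S_MUL) (hDET : S_DET) (hCON : S_CON) (hEXA : S_EXA) (hEXB : S_EXB) :
    S_CHB := by
  intro R _ _ a b b' a' M _ _ _ v p Γ _ j j' x y x' y' P P' U U' hp h7 hvp hy hΓ hG h h' hc hc'
    hy' hx hs
  by_contra hne
  have hr : v y < 1 := lt_of_pow_lt_pow_left₀ 2 zero_le_one (by simpa using hy.trans_lt hvp)
  have hr0 : 0 < v y := (zero_lt_iff.2 (v.ne_zero_iff.2 hy')).trans_le h'.vy
  have hne' : -y' ≠ y' := fun e => hy' (by linear_combination (-1 / 2 : M) * e)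
  have hx' : v (x' - x') < 1 := by simp
  obtain ⟨p1, p2, p3⟩ := hEXA a b b' a' M v _ x y x' y' P P' U U' hG h h' hx hr hne
  obtain ⟨q1, q2, q3⟩ := hEXB a b b' a' M v _ x y x' y' P P' U U' hG h h' hx hr hne
  obtain ⟨p4, p5, p6⟩ := hEXA a b b' a' M v _ x' (-y') x' y' _ P' _ U' hG h'.neg h' hx' hr hne'
  obtain ⟨q4, q5, q6⟩ := hEXB a b b' a' M v _ x' (-y') x' y' _ P' _ U' hG h'.neg h' hx' hr hne'
  obtain ⟨-, -, -, k1, k2, k4, k5⟩ := hCON a b b' a' M v x' y' hG h'.eq h'.vx (h'.vy.trans_lt hr)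
  have hD := hDET _ _ _ _ M v p (v y) Γ j j' _ _ _ _ hp h7 hvp hy hΓ (hc.sub hMUL hc')
    (hc'.neg.sub hMUL hc') p1 q1 p4 q4 p2 q2 p5 q5
  have hc4 : v y ^ 4 < 1 := pow_lt_one₀ zero_le hr four_ne_zero
  have hD2 := hD.mul hc4 (Ap.refl _ ((-3 * g1 (a : M) b b' (x' ^ 2)) *
    (-3 * g1 (a' : M) b' b (1 / x' ^ 2) * x' ^ 3)))
  generalize kp (a : M) b b' x' = κp at *
  generalize km (b : M) b' a' x' = κm at *
  generalize k3 (a : M) b b' x' = κ3 at *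
  generalize -3 * g1 (a : M) b b' (x' ^ 2) = cp at *
  generalize -3 * g1 (a' : M) b' b (1 / x' ^ 2) * x' ^ 3 = cm at *
  have v0 : v y' ≤ v y := h'.vy
  have v1 : v (y - y') ≤ v y := v.map_sub_le le_rfl v0
  have v2 : v (2 * y') ≤ v y := vi (v_of 2) v0
  have v3 : v (y + 2 * y') ≤ v y := v.map_add_le le_rfl v2
  have v4 : v ((y - y') * (y + 2 * y')) ≤ v y ^ 2 := by rw [sq]; exact vm v1 v3
  have v5 : v (2 * y' * y') ≤ v y ^ 2 := by rw [sq]; exact vm v2 v0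
  have v6 : v (y * (y + y')) = v y ^ 2 := by rw [map_mul, hs, sq]
  have key := core (v := v) (zp := Z (P - P') * cp) (zm := Z (U - U') * cm)
    (np := Z (-P' - P') * cp) (nm := Z (-U' - U') * cm) (m := y - y') (m' := -y' - y')
    (s1 := -(κp * ((y - y') * (y + 2 * y'))))
    (s2 := -(κ3 * (y * (y + y')) + κm * ((y - y') * (y + 2 * y'))))
    (t1 := κp * (2 * y' * y')) (t2 := κm * (2 * y' * y')) hr (sub_ne_zero.2 hne)
    (sub_ne_zero.2 hne') (by rw [v.map_neg]; exact vi k1 v4)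
    (by rw [v.map_neg]; exact v.map_add_le (vi k4 v6.le) (vi k2 v4)) (vi k1 v5) (vi k2 v5)
    (by convert p3 using 3; ring) (by convert q3 using 3; ring) (by convert p6 using 3; ring)
    (by convert q6 using 3; ring) (by convert hD2 using 1 <;> ring)
  have e : -(κp * ((y - y') * (y + 2 * y'))) + κm * (2 * y' * y') -
      -(κ3 * (y * (y + y')) + κm * ((y - y') * (y + 2 * y'))) - κp * (2 * y' * y') =
      y * (y + y') * (κ3 - κp + κm) := by ring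
  rw [e, map_mul, v6, k5, mul_one] at key
  exact absurd key (not_le.2 (pow_lt_pow_right_of_lt_one₀ hr0 hr (by norm_num)))

end Pool.Agent.P.MP_ab3ecb_nt.TS
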