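import Pool.Agent.P.MP_ab3ecb_nt.TS.Iface

/-! Step CHP. -/

set_option autoImplicit false
set_option linter.unusedSectionVars false

namespace Pool.Agent.P.MP_ab3ecb_nt.TS

open Filter Topology NumberField Pool.Agent.P.MP_ab3ecb_nt.TK
open Pool.Agent.P.MP_8b7eba_nt.R2 hiding Sm E1
open scoped Classical NNReal

namespace CHPx

variable {L : Type} [Field L] {p : Nat.Primes} (ι ι' : L →+* PadicAlgCl p.1)

/-- The identity map between the two copies of the local field. -/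
noncomputable def ph : Via ι' →+* Via ι := RingHom.id (Via ι)

variable {ι ι'}

lemma sm_of {A B A' B' : 𝓞 L} {δ : Via ι} (hδ : vv ι δ ≤ 1) {c : ℝ≥0} (hc : 0 < c)
    {P : Pt A B (Via ι')} {Q : Pt A' B' (Via ι)} (h0 : Q = 0 ↔ P = 0)
    (h1 : X Q * δ ^ 2 = ph ι ι' (X P)) (h : Big (max 2 (c⁻¹ ^ 2) : ℝ≥0) P) :
    Sm (vv ι) c Q := by
  rcases (big_iff _ _).1 h with h | h
  · rw [h0.2 h]; exact sm_zero c
  have h2 : max 2 (c⁻¹ ^ 2) ≤ vv ι (X Q) := by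
    have h3 : max 2 (c⁻¹ ^ 2) ≤ vv ι (ph ι ι' (X P)) := h
    rw [← h1] at h3
    exact h3.trans (vi' le_rfl ((vp hδ 2).trans_eq (one_pow 2)))
  have h3 : 1 < vv ι (X Q) := one_lt_two.trans_le (le_of_max_le_left h2)
  refine ⟨.inr h3, (pow_le_pow_iff_left₀ zero_le zero_le two_ne_zero).1 ?_⟩
  have h4 := mul_le_mul_right (le_of_max_le_right h2) (vv ι (Z Q) ^ 2)
  rwa [v_Z h3, inv_pow, mul_inv_le_iff₀ (pow_pos hc 2), one_mul] at h4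

variable {T : Tw L} (h : ι' T.θ = -ι T.θ)
include h

lemma ph_θ : ph ι ι' (T.θ : Via ι') = -(T.θ : Via ι) := h

lemma ph_a : ph ι ι' (T.a : Via ι') = (T.a' : Via ι) := by
  rw [Tw.cast_a, Tw.cast_a', map_add, map_mul, map_intCast, map_intCast, ph_θ h]; ring

lemma ph_a' : ph ι ι' (T.a' : Via ι') = (T.a : Via ι) := by
  rw [Tw.cast_a, Tw.cast_a', map_sub, map_mul, map_intCast, map_intCast, ph_θ h]; ring

lemma ph_b : ph ι ι' (T.b : Via ι') = (T.b' : Via ι) := by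
  rw [Tw.cast_b, Tw.cast_b', map_add, map_mul, map_intCast, map_intCast, ph_θ h]; ring

lemma ph_b' : ph ι ι' (T.b' : Via ι') = (T.b : Via ι) := by
  rw [Tw.cast_b, Tw.cast_b', map_sub, map_mul, map_intCast, map_intCast, ph_θ h]; ring

lemma hp (hUNI : S_UNI) (hT : T.θ ^ 2 = T.c) (h2 : p.1 ≠ 2) (hd : (p.1 : ℤ) ∣ T.d)
    (hd' : ¬ (p.1 : ℤ) ^ 2 ∣ T.d) (hG : Gd (vv ι) T.a T.b T.b' T.a') (hθ : vv ι T.θ = 1)
    {δ : Via ι} (hδ : δ ^ 2 = T.d) (hδ0 : δ ≠ 0) {x y z : ℚ_[p.1]} {b : Pt T.A T.B (Via ι)}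
    {b' : Pt T.A T.B (Via ι')} {P : Ec T.a T.b T.b' T.a' (Via ι)}
    {U : Ec T.a' T.b' T.b T.a (Via ι)} (hO : T.On x y z)
    (hb : T.Im (algebraMap _ (Via ι) x) (algebraMap _ _ y) (algebraMap _ _ z) b)
    (hb' : T.Im (algebraMap _ (Via ι') x) (algebraMap _ _ y) (algebraMap _ _ z) b')
    (hP : (P = 0 ↔ b = 0) ∧ X P * δ ^ 2 = X b ∧ Y P * δ ^ 3 = Y b)
    (hU : (U = 0 ↔ b' = 0) ∧ X U * δ ^ 2 = ph ι ι' (X b') ∧ Y U * δ ^ 3 = ph ι ι' (Y b')) :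
    vv ι T.d = vv ι (p.1 : ℕ) ∧ b ≠ 0 ∧ (y = 0 → Y b = 0) ∧ ∃ u w : Via ι, (y ≠ 0 → w ≠ 0) ∧
      HP (vv ι) T.a T.b T.b' T.a' (vv ι δ) u w P U := by
  have e : ∀ t : ℚ_[p.1], ph ι ι' (algebraMap _ _ t) = algebraMap _ _ t := fun _ => rfl
  have e1 := (hO.map (algebraMap _ (Via ι))).2
  rw [Tw.G_eq hT] at e1
  obtain ⟨hα, hβ, h3, h4, h5⟩ := hUNI ι T.d x y z _ _ _ _ _ _ _ h2 hd hd' hG.ha (v_int _ _)
    (v_int _ _) hG.ha' hθ hO.1 rfl rfl e1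
  obtain ⟨h6, h7, h8⟩ := hb.some hβ
  obtain ⟨h9, h10, h11⟩ := hb'.some fun h0 => hα (by
    have h1 := congrArg (ph ι ι') h0
    rwa [map_add, map_mul, e, e, ph_θ h, map_zero, neg_mul, ← sub_eq_add_neg] at h1)
  obtain ⟨hP0, hP1, hP2⟩ := hP
  obtain ⟨hU0, hU1, hU2⟩ := hU
  rw [h7] at hP1
  rw [h8] at hP2
  rw [h10] at hU1
  rw [h11] at hU2
  simp only [map_mul, map_add, map_sub, map_div₀, map_pow, map_intCast, map_ofNat, e, ph_θ h, ph_a h,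
    ph_b h, neg_mul, sub_neg_eq_add, ← sub_eq_add_neg] at hU1 hU2
  have hy : y ≠ 0 → algebraMap _ (Via ι) y ≠ 0 := (map_ne_zero _).2
  refine ⟨h5, h6, fun h0 => by rw [h8, h0, map_zero, mul_zero, zero_div], _,
    δ * (algebraMap _ _ y / _ ^ 3), fun h0 => mul_ne_zero hδ0 (div_ne_zero (hy h0)
      (pow_ne_zero 3 hβ)), ?_, h3, vi' le_rfl h4, mt hP0.1 h6, ?_, ?_, mt hU0.1 h9, ?_, ?_⟩
  all_goals
    generalize algebraMap _ (Via ι) x - T.θ * algebraMap _ _ z = α at *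
    generalize algebraMap _ (Via ι) x + T.θ * algebraMap _ _ z = β at *
    rw [← hδ] at *
  · field_simp
    linear_combination e1
  · exact mul_right_cancel₀ (pow_ne_zero 2 hδ0) (by rw [hP1]; ring)
  · exact mul_right_cancel₀ (pow_ne_zero 3 hδ0) (by rw [hP2]; ring)
  · exact mul_right_cancel₀ (pow_ne_zero 2 hδ0) (by rw [hU1]; field_simp; ring)
  · exact mul_right_cancel₀ (pow_ne_zero 3 hδ0) (by rw [hU2]; field_simp)

end CHPx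

theorem p_CHP (hTS : S_TS) (hSC : S_SC) (hCH : S_CH) (hUNI : S_UNI) (hEMB : S_EMB) :
    S_CHP := by
  intro L _ _ T Γ p ι ι' x₀ y₀ z₀ Q₀ x y z b b' hT hΓ h7 hd hd' hc h hO₀ hy₀ hQ hI hO hb hb' hB
  have hv := vv_int ι hc
  rw [Int.cast_mul, Int.cast_mul, map_mul, map_mul] at hv
  have one : ∀ s t : ℝ≥0, s ≤ 1 → t ≤ 1 → s * t = 1 → s = 1 ∧ t = 1 := fun s t h1 h2 h3 =>
    ⟨h1.antisymm (h3.symm.trans_le (mul_le_of_le_one_right' h2)),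
      h2.antisymm (h3.symm.trans_le (mul_le_of_le_one_left' h1))⟩
  obtain ⟨hv, hΔ⟩ := one _ _ (mul_le_one' (v_z _ _) (v_z _ _)) (v_z _ _) hv
  obtain ⟨hc, hN⟩ := one _ _ (v_z _ _) (v_z _ _) hv
  have hθ : vv ι T.θ = 1 := by
    rw [← Tw.θ_sq (M := Via ι) hT.sq, map_pow, sq] at hc
    exact (one _ _ (v_int _ _) (v_int _ _) hc).1
  have ha : vv ι T.a * vv ι T.a' = 1 := by
    rw [← map_mul, ← hN, ← coe_int (R := 𝓞 L), ← Tw.N_eq hT.sq]; push_cast; rfl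
  have hn : ∀ n : ℕ, 0 < n → n < 7 → vv ι n = 1 := fun n h1 h2 => by
    rw [← Int.cast_natCast]
    exact vv_int ι fun h3 => absurd (Nat.le_of_dvd h1 (Int.natCast_dvd_natCast.1 h3)) (by omega)
  have hG : Gd (vv ι) T.a T.b T.b' T.a' := ⟨hn 2 (by norm_num) (by norm_num),
    hn 3 (by norm_num) (by norm_num), (one _ _ (v_int _ _) (v_int _ _) ha).1,
    (one _ _ (v_int _ _) (v_int _ _) ha).2, by rw [Tw.Δ_eq hT.sq, coe_int, hΔ]⟩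
  obtain ⟨δ, hδ⟩ := exists_sq ι T.d
  have hδ0 : δ ≠ 0 := by
    rintro rfl
    rw [zero_pow two_ne_zero, eq_comm, Int.cast_eq_zero] at hδ
    exact hd' (hδ ▸ dvd_zero _)
  obtain ⟨s, hs⟩ := hSC T.A T.B (cA T.a T.b T.b') (cB T.a T.b T.b' T.a') (Via ι) (Via ι)
    (RingHom.id _) δ hδ0
    (by rw [RingHom.id_apply, T.A_eq]; push_cast; rw [← hδ]; ring)
    (by rw [RingHom.id_apply, T.B_eq]; push_cast; rw [← hδ]; ring)
  obtain ⟨s', hs'⟩ := hSC T.A T.B (cA T.a' T.b' T.b) (cB T.a' T.b' T.b T.a) (Via ι') (Via ι)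
    (CHPx.ph ι ι') δ hδ0
    (by
      rw [T.A_eq, cA, cA]; push_cast
      simp only [map_mul, map_sub, map_pow, map_intCast, map_ofNat, CHPx.ph_a h, CHPx.ph_b h,
        CHPx.ph_b' h]
      rw [← hδ]; ring)
    (by
      rw [T.B_eq, cB, cB]; push_cast
      simp only [map_mul, map_sub, map_add, map_pow, map_intCast, map_ofNat, CHPx.ph_a h,
        CHPx.ph_b h, CHPx.ph_b' h, CHPx.ph_a' h]
      rw [← hδ]; ring)
  have h2 : p.1 ≠ 2 := by omega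
  obtain ⟨h3, h4, h5, u, w, h6, h8⟩ :=
    CHPx.hp h hUNI hT.sq h2 hd hd' hG hθ hδ hδ0 hO hb hb' (hs b) (hs' b')
  by_cases hy : y = 0
  · exact .inl ⟨h4, h5 hy⟩
  have hI' : ∀ κ : L →+* PadicAlgCl p.1, T.Im (algebraMap _ (Via κ) (x₀ : ℚ_[p.1]))
      (algebraMap _ _ (y₀ : ℚ_[p.1])) (algebraMap _ _ (z₀ : ℚ_[p.1])) (bc (Via κ) Q₀) := fun κ => by
    simpa only [map_ratCast] using hI.bc (M := Via κ)
  obtain ⟨-, -, -, u₀, w₀, h9, h10⟩ := CHPx.hp h hUNI hT.sq h2 hd hd' hG hθ hδ hδ0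
    (hO₀.map (Rat.castHom ℚ_[p.1])) (hI' ι) (hI' ι') (hs _) (hs' _)
  have hδ1 : vv ι δ ^ 2 = vv ι (p.1 : ℕ) := by rw [← map_pow, hδ, h3]
  have hδ2 : vv ι δ ≤ 1 := (pow_le_one_iff_of_nonneg zero_le two_ne_zero).1
    (hδ1.trans_le (vv_p_lt ι).le)
  have inj := (injective_iff_map_eq_zero s).2 fun P => (hs P).1.1
  refine .inr ((hCH T.a T.b T.b' T.a' (Via ι) (vv ι) p.1 (vv ι δ) Γ
    (s.comp ((bc _).comp Γ.subtype)) (s'.comp ((bc _).comp Γ.subtype)) u w u₀ w₀ _ _ _ _ p.2 h7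
    (vv_p_lt ι) hδ1.le (rk_of hΓ) hG h8 h10 (fun c hc => ?_) (cl_self (⟨Q₀, hQ⟩ : Γ)) (h6 hy)
    (h9 ((map_ne_zero _).2 hy₀))).imp (inj ·) fun e => inj (by rw [map_neg, e]))
  obtain ⟨Q, h11, h12, h13⟩ := hB (max 2 (c⁻¹ ^ 2) : ℝ≥0)
  refine ⟨⟨Q, h11⟩, ?_, ?_⟩
  · rw [AddMonoidHom.comp_apply, ← map_sub]
    exact CHPx.sm_of hδ2 hc (hs _).1 (hs _).2.1 h12
  · rw [AddMonoidHom.comp_apply, ← map_sub]
    exact CHPx.sm_of hδ2 hc (hs' _).1 (hs' _).2.1 h13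

end Pool.Agent.P.MP_ab3ecb_nt.TS
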