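import Pool.Agent.P.MP_ab3ecb_nt.TS.Iface

/-! Step CON. -/

set_option autoImplicit false
set_option linter.unusedSectionVars false

namespace Pool.Agent.P.MP_ab3ecb_nt.TS

open Filter Topology NumberField Pool.Agent.P.MP_ab3ecb_nt.TK
open Pool.Agent.P.MP_8b7eba_nt.R2 hiding Sm E1
open scoped Classical NNReal

namespace CONx

variable {M : Type} [Field M] {v : Valuation M ℝ≥0}

lemma near {s t w c : M} (hs : v s = 1) (hw : v w < 1) (hc : c ∈ v.integer)
    (h : t = s + c * w) : v t = 1 := by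
  rw [← hs]
  exact v_eq_of_sub (by rw [h, add_sub_cancel_left, hs]; exact (vi hc le_rfl).trans_lt hw)

lemma one {a b c d u w : M} (ha : a ∈ v.integer) (hb : b ∈ v.integer) (hc : c ∈ v.integer)
    (hd : d ∈ v.integer) (hu : u ∈ v.integer) (h3 : v 3 = 1) (hD : v (dsc a b c d) = 1)
    (e : w = a * u ^ 3 + b * u ^ 2 + c * u + d) (hw : v w < 1) : v (g1 a b c u) = 1 := by
  set m := 9 * a * d - b * c with hm
  set n := 6 * a * c - 2 * b ^ 2 with hn
  set A := 3 * a * m - n * (3 * a * u + 2 * b) with hA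
  have m1 : m ∈ v.integer := by aesop
  have n1 : n ∈ v.integer := by aesop
  have A1 : A ∈ v.integer := by clear hm hn; aesop
  have B1 : u * A + b * m - n * (b * u + 2 * c) ∈ v.integer := by
    clear hm hn hA; aesop
  have G1 : g1 a b c u ∈ v.integer := by unfold g1; aesop
  have := near (t := (u * A + b * m - n * (b * u + 2 * c)) * g1 a b c u)
    (s := 3 * dsc a b c d) (by rw [map_mul, h3, hD, one_mul]) hw (mul_mem (ofNat_mem _ 3) A1)
    (by rw [e, hA, hm, hn, g1, dsc]; ring)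
  exact le_antisymm G1 (this.ge.trans (vi B1 le_rfl))

end CONx

open CONx in
theorem p_CON :
    S_CON := by
  intro R _ _ a b b' a' M _ _ v x y G e vx vy
  have hD := G.hd
  rw [show ((dsc a b b' a' : R) : M) = dsc (a : M) b b' a' by
    simp [dsc, Algebra.cast, map_ofNat]] at hD
  have ia : (a : M) ∈ v.integer := v_int v a
  have ib : (b : M) ∈ v.integer := v_int v b
  have ib' : (b' : M) ∈ v.integer := v_int v b'
  have ia' : (a' : M) ∈ v.integer := v_int v a'
  have h2 := G.two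
  have h3 := G.three
  generalize (a : M) = A at *
  generalize (b : M) = B at *
  generalize (b' : M) = C at *
  generalize (a' : M) = D at *
  have nz : ∀ {z : M}, v z = 1 → z ≠ 0 := fun h => v.ne_zero_iff.1 (by rw [h]; exact one_ne_zero)
  have x0 := nz vx
  have ix : x ∈ v.integer := vx.le
  have iy : y ∈ v.integer := vy.le
  have ix' : x⁻¹ ∈ v.integer := by rw [v.mem_integer_iff, map_inv₀, vx, inv_one]
  have y2 : v (y ^ 2) < 1 := by rw [sq]; exact (vi iy le_rfl).trans_lt vy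
  have hg := one ia ib ib' ia' (pow_mem ix 2) h3 hD (by rw [e]; ring) y2
  have t : g1 D C B (1 / x ^ 2) * x ^ 3 = -(x * g1 A B C (x ^ 2)) + 3 * x⁻¹ * y ^ 2 := by
    rw [e, g1, g1]; field_simp; ring
  have i3 : 3 * x⁻¹ ∈ v.integer := mul_mem (ofNat_mem _ 3) ix'
  have vt := near (by rw [v.map_neg, map_mul, vx, hg, one_mul]) y2 i3 t
  have h : v (g1 D C B (1 / x ^ 2)) = 1 := by simpa [vx] using vt
  have j : g2 A B (x ^ 2) ∈ v.integer := by unfold g2; aesop
  have j' : g2 D C (1 / x ^ 2) ∈ v.integer := by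
    rw [g2, one_div, ← inv_pow]
    exact add_mem (mul_mem (mul_mem (ofNat_mem _ 6) ia') (pow_mem ix' 2))
      (mul_mem (ofNat_mem _ 2) ib')
  have t' : g2 D C (1 / x ^ 2) =
      6 * y ^ 2 * x⁻¹ ^ 2 - 4 * g1 A B C (x ^ 2) + x ^ 2 * g2 A B (x ^ 2) := by
    rw [e, g1, g2, g2]; field_simp; ring
  refine ⟨hg, h, ?_, ?_, ?_, ?_, ?_⟩
  · rw [t, neg_add_cancel_comm]; exact (vi i3 le_rfl).trans_lt y2
  · simpa [kp, h3, hg] using (v.mem_integer_iff _).1 j
  · simpa [-one_div, km, h3, h, vx] using (v.mem_integer_iff _).1 j'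
  · simp [k3, h2, h3, hg, vx]
  · rw [k3, kp, km, mul_assoc 3, show x ^ 6 = (x ^ 3) ^ 2 by ring, ← mul_pow, t']
    have g0 := nz hg
    have ig : g1 A B C (x ^ 2) ∈ v.integer := hg.le
    generalize g1 D C B (1 / x ^ 2) * x ^ 3 = T at *
    generalize g1 A B C (x ^ 2) = g at *
    generalize g2 A B (x ^ 2) = k at *
    have T0 := nz vt
    have n2 := nz h2
    have n3 := nz h3
    have := near (s := x ^ 2 * g ^ 3) (t := (3 / (2 * x ^ 2 * g) - k / (3 * g ^ 2) +
      (6 * y ^ 2 * x⁻¹ ^ 2 - 4 * g + x ^ 2 * k) / (3 * T ^ 2)) * (2 * 3 * x ^ 2 * g ^ 2 * T ^ 2))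
      (c := 12 * x ^ 2 * k * g - 42 * g ^ 2 - 18 * k * y ^ 2 + 81 * g * y ^ 2 * x⁻¹ ^ 2)
      (by simp [vx, hg]) y2 (by
        have := pow_mem ix' 2
        generalize x⁻¹ ^ 2 = z at *
        clear * - this ix iy ig j
        aesop) (by
        trans (9 * g - 2 * x ^ 2 * k) * T ^ 2 +
          2 * x ^ 2 * g ^ 2 * (6 * y ^ 2 * x⁻¹ ^ 2 - 4 * g + x ^ 2 * k)
        · field_simp; ring
        · rw [t]; field_simp; ring)
    simpa [vx, hg, vt, h2, h3] using this

end Pool.Agent.P.MP_ab3ecb_nt.TS
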