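import Pool.Agent.P.MP_ab3ecb_nt.TS.Iface

/-! Step CORE. -/

set_option autoImplicit false
set_option linter.unusedSectionVars false

namespace Pool.Agent.P.MP_ab3ecb_nt.TS

open Filter Topology NumberField Pool.Agent.P.MP_ab3ecb_nt.TK
open Pool.Agent.P.MP_8b7eba_nt.R2 hiding Sm E1
open scoped Classical NNReal

namespace COREx

variable {K : Type} [Field K] [NumberField K] [Algebra K Om] {A B : 𝓞 K}

/-- A limit of points whose indices converge to an integer is the point with that index. -/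
lemma fin (hMUL : S_MUL) (hLK : S_LK) (hFI : S_FI) (hD : 4 * A ^ 3 + 27 * B ^ 2 ≠ 0)
    {r : Nat.Primes} (ι : K →+* PadicAlgCl r.1) (a : Pt A B (Via ι)) (P R : Pt A B K)
    (l : Ultrafilter ℤ) (m₀ : ℤ)
    (hl : ∀ c : ℝ≥0, 0 < c → ∀ᶠ m : ℤ in l, Sm (vv ι) c (bc (Via ι) (R + m • P) - a))
    (hm : ∀ N : ℕ, 0 < N → ∀ᶠ m in l, ∃ k : ℤ, (m - m₀) • P = k • N • P) :
    a = bc (Via ι) (R + m₀ • P) := by
  obtain ⟨w, hw⟩ := (hLK K).2 r ι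
  have key : ∀ c : ℝ≥0, 0 < c → Sm (vv ι) c (a - bc (Via ι) (R + m₀ • P)) := by
    intro c hc
    obtain ⟨N, hN, hs⟩ := hFI A B w (GK K) (rt P) c hD open_GK (fixP_rt le_rfl P) hc
    obtain ⟨m, ⟨k, hk⟩, h2⟩ := ((hm N hN).and (hl c hc)).exists
    have e : a - bc (Via ι) (R + m₀ • P) =
        bc (Via ι) (k • N • P) + -(bc (Via ι) (R + m • P) - a) := by
      rw [← hk, sub_smul, map_sub, map_add, map_add]; abel
    rw [e]
    refine (hMUL A B (Via ι) ℝ≥0 (vv ι)).1 c _ _ ?_ h2.neg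
    rw [← hw.sm, map_zsmul, map_nsmul]
    exact (hMUL A B Om ℝ≥0 w.v).2.1 c _ k hs
  refine sub_eq_zero.1 ((key 1 one_pos).1.eq_zero ?_)
  exact le_antisymm (le_of_forall_gt_imp_ge_of_dense fun c hc => (key c hc).2) zero_le

/-- The indices converge in the integers of a prime at which a multiple of the limit is rational. -/
lemma dv (hMUL : S_MUL) (hLK : S_LK) (hDIV : S_DIV) (hD : 4 * A ^ 3 + 27 * B ^ 2 ≠ 0)
    {r : Nat.Primes} (ι : K →+* PadicAlgCl r.1) (a : Pt A B (Via ι)) (P R Q : Pt A B K)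
    (l : Ultrafilter ℤ) (hP : NT P) (n k k' : ℕ) (j j' : ℤ) (hk : k • Q = j • P)
    (hk' : k' • R = j' • P) (ha : n • a = bc (Via ι) Q)
    (hl : ∀ c : ℝ≥0, 0 < c → ∀ᶠ m : ℤ in l, Sm (vv ι) c (bc (Via ι) (R + m • P) - a)) (i : ℕ) :
    ∀ᶠ m in l, ((r.1 : ℕ) : ℤ) ^ i ∣ ((n * k * k' : ℕ) : ℤ) * m - (k' * j - n * k * j') := by
  obtain ⟨w, hw⟩ := (hLK K).2 r ι
  obtain ⟨c, hc, hd⟩ := hDIV A B w P i hD hP
  filter_upwards [hl c hc] with m hm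
  rw [← hw.1]
  apply hd
  rw [hw.sm]
  have e0 : (((n * k * k' : ℕ) : ℤ) * m - (k' * j - n * k * j')) • P =
      ((n * k * k' : ℕ) : ℤ) • (R + m • P) - ((k * k' : ℕ) : ℤ) • Q := by
    have e1 : (j : ℤ) • P = (k : ℤ) • Q := by rw [natCast_zsmul, hk]
    have e2 : (j' : ℤ) • P = (k' : ℤ) • R := by rw [natCast_zsmul, hk']
    push_cast
    calc (n * k * k' * m - (k' * j - n * k * j') : ℤ) • P
        = (n * k * k' * m : ℤ) • P - (k' : ℤ) • (j • P) + (n * k : ℤ) • (j' • P) := by module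
      _ = _ := by rw [e1, e2]; module
  have e : bc (Via ι) ((((n * k * k' : ℕ) : ℤ) * m - (k' * j - n * k * j')) • P) =
      ((n * k * k' : ℕ) : ℤ) • (bc (Via ι) (R + m • P) - a) := by
    rw [e0, map_sub, map_zsmul, map_zsmul, ← ha, ← natCast_zsmul a n]
    push_cast
    module
  rw [e]
  exact (hMUL A B (Via ι) ℝ≥0 _).2.1 c _ _ hm

lemma res (l : Ultrafilter ℤ) (n : ℤ) (hn : n ≠ 0) : ∃ m₀ : ℤ, ∀ᶠ m in l, n ∣ m - m₀ := by
  have : NeZero n.natAbs := ⟨Int.natAbs_ne_zero.2 hn⟩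
  obtain ⟨x, hx⟩ := (l.map fun m : ℤ => (m : ZMod n.natAbs)).eq_pure_of_finite
  obtain ⟨m₀, rfl⟩ := ZMod.intCast_surjective x
  refine ⟨m₀, ?_⟩
  have h : ({((m₀ : ℤ) : ZMod n.natAbs)} : Set (ZMod n.natAbs)) ∈
      l.map fun m : ℤ => (m : ZMod n.natAbs) := by
    rw [hx]; simp
  filter_upwards [Ultrafilter.mem_map.1 h] with m hm
  have h' : ((m - m₀ : ℤ) : ZMod n.natAbs) = 0 := by
    push_cast
    exact sub_eq_zero.2 hm
  exact Int.natAbs_dvd.1 ((ZMod.intCast_zmod_eq_zero_iff_dvd _ _).1 h')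

/-- The squares at the places over large primes. -/
lemma sq (hLK : S_LK) (hSQG : S_SQG) (F : MvPolynomial (Fin 2) (𝓞 K)) {S : Set Nat.Primes}
    (hS : Sᶜ.Finite) (b : ∀ i : Emb K S, Pt A B (Via i.2)) (P R : Pt A B K) (l : Ultrafilter ℤ)
    (hsq : ∀ i, b i ≠ 0 → ∃ η : K, vv i.2 (ev F (b i) - algebraMap K (Via i.2) η ^ 2) < 1)
    (hl : ∀ (i : Emb K S) (c : ℝ≥0), 0 < c →
      ∀ᶠ m : ℤ in l, Sm (vv i.2) c (bc (Via i.2) (R + m • P) - b i)) :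
    ∃ B₀ : ℕ, ∀ w : Pl, B₀ < w.p → ∀ (U : Subgroup GQ) (R' : Pt A B Om), FixP U R' → R' ≠ 0 →
      w.v (X R') ≤ 1 → w.v (ev F R') = 1 → (∀ᶠ m : ℤ in l, E1 w.v (rt (R + m • P) - R')) →
        Sq (w.D ⊓ U) (ev F R') := by
  refine ⟨hS.toFinset.sup (fun r => r.1) + 2, fun w hw U R' h1 h2 h3 h4 h5 => ?_⟩
  have hr : (⟨w.p, w.prime⟩ : Nat.Primes) ∈ S := by
    by_contra h
    have h6 : w.p ≤ hS.toFinset.sup (fun r : Nat.Primes => r.1) :=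
      Finset.le_sup (f := fun r : Nat.Primes => r.1) (b := ⟨w.p, w.prime⟩) (hS.mem_toFinset.2 h)
    omega
  obtain ⟨ι, hι⟩ := (hLK K).1 w ⟨w.p, w.prime⟩ rfl
  obtain ⟨m, h6, h7⟩ := (h5.and (hl ⟨⟨_, hr⟩, ι⟩ 1 one_pos)).exists
  exact hSQG A B F ι w U R' (R + m • P) (b ⟨⟨_, hr⟩, ι⟩) hι (by omega) h1 h2 h3 h4 h6 h7.1
    (hsq ⟨⟨_, hr⟩, ι⟩)

end COREx

theorem p_CORE (hMUL : S_MUL) (hFI : S_FI) (hDIV : S_DIV) (hCMP : S_CMP) (hLK : S_LK) (hSQG : S_SQG) (hULG : S_ULG) (hKEYB : S_KEYB) :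
    S_CORE := by
  intro K _ _ _ A B Γ F S b p q n Q hD hΓ hS hcl hNeg hO hsq hpq hn hQ hp hq
  obtain ⟨_, _⟩ := hCMP K
  obtain ⟨P, hP, R, hR, l, hk, hlim⟩ := hULG A B Γ S b hΓ hcl
  have key : ∃ m₀ : ℤ, ∀ N : ℕ, 0 < N → ∀ᶠ m in l, ∃ k : ℤ, (m - m₀) • 2 • P = k • N • 2 • P := by
    by_cases hNT : NT P
    · have hNT2 : NT (2 • P) := fun i hi => by
        have h := hNT (i * 2) (by rw [mul_smul, ← hi, ← natCast_zsmul]; rfl)
        omega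
      obtain ⟨k, j, hk0, hkj⟩ := hk Q hQ
      obtain ⟨k', j', hk0', hkj'⟩ := hk R hR
      have hC : Ctx F (2 • P) R l (k' * j - n * k * j') ((n * k * k' : ℕ) : ℤ) p.1.1.1 q.1.1.1 :=
        { hD := hD
          sq := COREx.sq hLK hSQG F hS b (2 • P) R l hsq hlim
          hp := p.1.1.2
          hq := q.1.1.2
          ne := fun h => hpq (Subtype.ext (Subtype.ext h))
          dp := COREx.dv hMUL hLK hDIV hD p.2 (b p) _ R Q l hNT2 n k k' j j' hkj hkj' hp (hlim p)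
          dq := COREx.dv hMUL hLK hDIV hD q.2 (b q) _ R Q l hNT2 n k k' j j' hkj hkj' hq
            (hlim q) }
      obtain ⟨m₀, hm⟩ := hKEYB A B F P R l _ (n * k * k') p.1.1.1 q.1.1.1 hC hNT (hNeg R) hO
        (by positivity)
      refine ⟨m₀, fun N hN => (hm N hN).mono fun m ⟨i, hi⟩ => ⟨i, ?_⟩⟩
      rw [hi, ← natCast_zsmul (2 • P) N, mul_comm, mul_smul]
    · obtain ⟨i, hi, hi0⟩ : ∃ i : ℤ, i • P = 0 ∧ i ≠ 0 := by
        by_contra h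
        exact hNT fun i hi => by_contra fun h0 => h ⟨i, hi, h0⟩
      obtain ⟨m₀, hm⟩ := COREx.res l i hi0
      refine ⟨m₀, fun N _ => hm.mono fun m ⟨k, hk⟩ => ⟨0, ?_⟩⟩
      rw [hk, zero_smul, smul_comm, mul_comm, mul_smul, hi, smul_zero, smul_zero]
  obtain ⟨m₀, hm⟩ := key
  exact ⟨R + m₀ • 2 • P, Γ.add_mem hR (Γ.zsmul_mem (Γ.nsmul_mem hP 2) m₀), fun i =>
    COREx.fin hMUL hLK hFI hD i.2 (b i) (2 • P) R l m₀ (hlim i) hm⟩

end Pool.Agent.P.MP_ab3ecb_nt.TS
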