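import Pool.Agent.P.MP_ab3ecb_nt.TS.Iface

/-! Step DET. -/

set_option autoImplicit false
set_option linter.unusedSectionVars false

namespace Pool.Agent.P.MP_ab3ecb_nt.TS

open Filter Topology NumberField Pool.Agent.P.MP_ab3ecb_nt.TK
open Pool.Agent.P.MP_8b7eba_nt.R2 hiding Sm E1
open scoped Classical NNReal

namespace DETx

variable {R : Type} [CommRing R] [Algebra.IsIntegral ℤ R] {A B : R}
  {M : Type} [Field M] [Algebra R M] {v : Valuation M ℝ≥0}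

lemma pos {P : Pt A B M} {r : ℝ≥0} (h0 : P ≠ 0) (h : Sm v r P) : 0 < v (Z P) :=
  zero_lt_iff.2 fun h1 => h0 (h.1.eq_zero h1)

lemma five {s r : ℝ≥0} (h : s ≤ r) : s ^ 5 ≤ s * r ^ 4 := by
  rw [pow_succ']
  exact mul_le_mul' le_rfl (pow_le_pow_left' h 4)

lemma one (hFG : S_FG) (hNM : S_NM) {p : ℕ} {r c : ℝ≥0} (hp : p.Prime) (h7 : 7 ≤ p)
    (hv : v p < 1) (hr : r ^ 2 ≤ v p) (hr4 : r ^ 4 < 1) {P T : Pt A B M} (hP : Sm v r P)
    (hc : c ≤ v (Z P) * r ^ 4) (hT : Sm v c (T - P)) (n : ℤ) :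
    Ap v (r ^ 4) (Z (n • T)) (n * Z P) := by
  obtain ⟨h1, h2⟩ := hFG A B M ℝ≥0 v P (T - P) hP.1 hT.1
  rw [add_sub_cancel] at h1 h2
  have h3 : v (Z (T - P)) ≤ v (Z P) * r ^ 4 := hT.2.trans hc
  have h4 : v (Z (T - P)) ≤ v (Z P) := h3.trans (mul_le_of_le_one_right' hr4.le)
  rw [max_eq_left h4] at h2
  have h5 : Ap v (r ^ 4) (Z T) (Z P) := by
    rw [Ap, ← sub_add_cancel (Z T - Z P) (Z (T - P))]
    exact v.map_add_le (h2.trans (five hP.2)) h3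
  have h6 : v (Z T) ≤ r := (h5.v_eq hr4).trans_le hP.2
  have h7' := hNM A B M ℝ≥0 v p T hp h7 hv h1 ((pow_le_pow_left' h6 2).trans hr) n
  have h8 : Ap v (r ^ 4) (Z (n • T)) (n * Z T) := by
    rw [Ap, map_mul, mul_assoc]
    exact h7'.trans (mul_le_mul' le_rfl (five h6))
  exact h8.tr hr4 ((Ap.refl _ _).mul hr4 h5)

end DETx

open DETx in
theorem p_DET (hFG : S_FG) (hNM : S_NM) :
    S_DET := by
  intro R _ _ A B A' B' M _ _ _ v p r Γ _ j j' P P' U U' hp h7 hv hr hRk hC hC' P0 U0 P0' U0'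
    hP hU hP' hU'
  have hr1 : r < 1 := by
    by_contra h
    exact (not_le.2 (hr.trans_lt hv)) (one_le_pow₀ (not_lt.1 h))
  have hr4 : r ^ 4 < 1 := pow_lt_one₀ zero_le hr1 (by norm_num)
  have a1 := pos P0 hP
  have a2 := pos U0 hU
  have a3 := pos P0' hP'
  have a4 := pos U0' hU'
  have hr0 : 0 < r := a1.trans_le hP.2
  set m := min (min (v (Z P)) (v (Z U))) (min (v (Z P')) (v (Z U'))) with hm
  have hm0 : 0 < m * r ^ 4 := mul_pos (lt_min (lt_min a1 a2) (lt_min a3 a4)) (pow_pos hr0 4)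
  obtain ⟨Q, q1, q2⟩ := hC _ hm0
  obtain ⟨Q', q3, q4⟩ := hC' _ hm0
  obtain ⟨i, k, hik, e⟩ := hRk Q Q'
  have b1 := one hFG hNM hp h7 hv hr hr4 hP
    (mul_le_mul' ((min_le_left _ _).trans (min_le_left _ _)) le_rfl) q1 i
  have b2 := one hFG hNM hp h7 hv hr hr4 hU
    (mul_le_mul' ((min_le_left _ _).trans (min_le_right _ _)) le_rfl) q2 i
  have b3 := one hFG hNM hp h7 hv hr hr4 hP'
    (mul_le_mul' ((min_le_right _ _).trans (min_le_left _ _)) le_rfl) q3 k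
  have b4 := one hFG hNM hp h7 hv hr hr4 hU'
    (mul_le_mul' ((min_le_right _ _).trans (min_le_right _ _)) le_rfl) q4 k
  rw [← map_zsmul, e, map_zsmul] at b1 b2
  have c1 := (b1.symm hr4).tr hr4 b3
  have c2 := (b2.symm hr4).tr hr4 b4
  have z1 : Z P ≠ 0 := v.ne_zero_iff.1 a1.ne'
  have z3 : Z P' ≠ 0 := v.ne_zero_iff.1 a3.ne'
  have hi : (i : M) ≠ 0 ∧ (k : M) ≠ 0 := by
    rcases hik with h | h
    · have h1 : (i : M) ≠ 0 := Int.cast_ne_zero.2 h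
      exact ⟨h1, left_ne_zero_of_mul ((c1.symm hr4).ne hr4 (mul_ne_zero h1 z1))⟩
    · have h1 : (k : M) ≠ 0 := Int.cast_ne_zero.2 h
      exact ⟨left_ne_zero_of_mul (c1.ne hr4 (mul_ne_zero h1 z3)), h1⟩
  have d := c1.mul hr4 (c2.symm hr4)
  refine Ap.cancel (mul_ne_zero hi.1 hi.2) ?_
  convert d using 1 <;> ring

end Pool.Agent.P.MP_ab3ecb_nt.TS
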