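import Pool.Agent.P.MP_ab3ecb_nt.TS.Iface

/-! Step EMB. -/

set_option autoImplicit false
set_option linter.unusedSectionVars false

namespace Pool.Agent.P.MP_ab3ecb_nt.TS

open Filter Topology NumberField Pool.Agent.P.MP_ab3ecb_nt.TK
open Pool.Agent.P.MP_8b7eba_nt.R2 hiding Sm E1
open scoped Classical NNReal

namespace EMBx

lemma indep {L : Type} [Field L] [CharZero L] {th : L} {c : ℤ} (h : th ^ 2 = c)
    (hc : ¬ IsSquare c) (s t : ℚ) (e : (s : L) + t * th = 0) : s = 0 ∧ t = 0 := by
  by_cases ht : t = 0
  · subst ht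
    refine ⟨?_, rfl⟩
    have : (s : L) = 0 := by simpa using e
    exact_mod_cast this
  · exfalso
    apply hc
    rw [← Rat.isSquare_intCast_iff]
    refine ⟨s / t, ?_⟩
    have ht' : (t : L) ≠ 0 := by exact_mod_cast ht
    have : ((c : ℚ) : L) = ((s / t * (s / t) : ℚ) : L) := by
      push_cast
      rw [← h]
      field_simp
      linear_combination (t * th - s) * e
    exact_mod_cast this

lemma emb {L : Type} [Field L] [CharZero L] {th : L} {c : ℤ} (h : th ^ 2 = c)
    (hc : ¬ IsSquare c) (gen : ∀ x : L, ∃ s t : ℚ, x = s + t * th)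
    (M : Type) [Field M] [CharZero M] (u : M) (hu : u ^ 2 = c) : ∃ f : L →+* M, f th = u := by
  choose s t hst using gen
  have key : ∀ (x : L) (a b : ℚ), x = a + b * th → (s x : M) + t x * u = a + b * u := by
    intro x a b hx
    have := indep h hc (s x - a) (t x - b) (by push_cast; linear_combination hx - hst x)
    rw [sub_eq_zero.1 this.1, sub_eq_zero.1 this.2]
  refine ⟨{ toFun := fun x => (s x : M) + t x * u
            map_one' := ?_, map_mul' := ?_, map_zero' := ?_, map_add' := ?_ }, ?_⟩
  · rw [key 1 1 0 (by simp)]; simp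
  · intro x y
    rw [key (x * y) (s x * s y + c * t x * t y) (s x * t y + t x * s y) (by
      push_cast
      linear_combination y * hst x + (s x + t x * th) * hst y + (t x * t y : L) * h)]
    push_cast
    linear_combination (-(t x * t y : M)) * hu
  · rw [key 0 0 0 (by simp)]; simp
  · intro x y
    rw [key (x + y) (s x + s y) (t x + t y) (by push_cast; linear_combination hst x + hst y)]
    push_cast
    ring
  · change (s th : M) + t th * u = u
    rw [key th 0 1 (by simp)]; simp

end EMBx

theorem p_EMB :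
    S_EMB := by
  intro L _ _ T hT
  have h : (T.θ : L) ^ 2 = T.c := Tw.θ_sq (M := L) hT.sq
  refine ⟨fun M _ _ t ht => EMBx.emb h hT.ns hT.gen M t ht, fun M _ _ f g e => ?_,
    EMBx.indep h hT.ns⟩
  ext x
  obtain ⟨s, t, rfl⟩ := hT.gen x
  simp only [map_add, map_mul, map_ratCast, e]

end Pool.Agent.P.MP_ab3ecb_nt.TS
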