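import Pool.Agent.P.MP_ab3ecb_nt.TS.Iface

/-! Step ETA. -/

set_option autoImplicit false
set_option linter.unusedSectionVars false

namespace Pool.Agent.P.MP_ab3ecb_nt.TS

open Filter Topology NumberField Pool.Agent.P.MP_ab3ecb_nt.TK
open Pool.Agent.P.MP_8b7eba_nt.R2 hiding Sm E1
open scoped Classical NNReal

theorem p_ETA (hCON : S_CON) :
    S_ETA := by
  intro R _ _ a b b' a' M _ _ v r x y x' y' hG e1 e2 hx' he hr hy hy'
  obtain ⟨hg, -, -, -, -, hk, -⟩ := hCON a b b' a' M v x' y' hG e2 hx' (hy'.trans_lt hr)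
  have hx : v x = 1 := (v_eq_of_sub (by rwa [hx'])).trans hx'
  have ia : v (a : M) ≤ 1 := v_int v a
  have ib : v (b : M) ≤ 1 := v_int v b
  have ib' : v (b' : M) ≤ 1 := v_int v b'
  generalize (a : M) = A at *
  generalize (b : M) = B at *
  generalize (b' : M) = B' at *
  have x0 : x ≠ 0 := v.ne_zero_iff.1 (hx ▸ one_ne_zero)
  have x0' : x' ≠ 0 := v.ne_zero_iff.1 (hx' ▸ one_ne_zero)
  have g0 : g1 A B B' (x' ^ 2) ≠ 0 := v.ne_zero_iff.1 (hg ▸ one_ne_zero)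
  have t0 : (2 : M) ≠ 0 := v.ne_zero_iff.1 (hG.two ▸ one_ne_zero)
  have S : ∀ z : M, v z ≤ 1 → z ∈ v.integer := fun z h => (v.mem_integer_iff z).2 h
  have mx := S x hx.le
  have mx' := S x' hx'.le
  have mA := S A ia
  have mB := S B ib
  have mB' := S B' ib'
  obtain ⟨q, hq, e3⟩ : ∃ q : M, v q ≤ 1 ∧
      y ^ 2 - y' ^ 2 = (x - x') * (2 * x' * g1 A B B' (x' ^ 2) + (x - x') * q) :=
    ⟨A * (x ^ 4 + 2 * x ^ 3 * x' + 3 * x ^ 2 * x' ^ 2 + 4 * x * x' ^ 3 + 5 * x' ^ 4) +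
      B * (x ^ 2 + 2 * x * x' + 3 * x' ^ 2) + B', (v.mem_integer_iff _).1 (by
        repeat' first
          | assumption | exact ofNat_mem _ _ | apply add_mem | apply mul_mem | apply pow_mem),
      by rw [e1, e2, g1]; ring⟩
  have hh : v (2 * x' * g1 A B B' (x' ^ 2)) = 1 := by
    rw [map_mul, map_mul, hG.two, hx', hg, one_mul, one_mul]
  have h1 : v (x - x') = v (y ^ 2 - y' ^ 2) := by
    rw [e3, map_mul, v.map_add_eq_of_lt_left (by rw [hh]; exact (vi' le_rfl hq).trans_lt he), hh,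
      mul_one]
  refine ⟨h1, ?_⟩
  have h2 : v (3 * x ^ 2 + 2 * x * x' + x' ^ 2) ≤ 1 := (v.mem_integer_iff _).1 (by
    repeat' first
      | assumption | exact ofNat_mem _ _ | apply add_mem | apply mul_mem | apply pow_mem)
  have h3 : v (k3 A B B' x' * q + (3 * x ^ 2 + 2 * x * x' + x' ^ 2) / (x' * x ^ 3)) ≤ 1 :=
    v.map_add_le (vi hk hq) (by rwa [map_div₀, map_mul, map_pow, hx, hx', one_pow, one_mul, div_one])
  have e4 : y / x ^ 3 * x' ^ 3 - y' - (y - y') * (1 - k3 A B B' x' * y * (y + y')) =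
      y * ((x - x') * (x - x')) *
        (k3 A B B' x' * q + (3 * x ^ 2 + 2 * x * x' + x' ^ 2) / (x' * x ^ 3)) := by
    have e5 : k3 A B B' x' * (2 * x' * g1 A B B' (x' ^ 2)) = 3 / x' := by rw [k3]; field_simp
    have e6 : y / x ^ 3 * x' ^ 3 - y + y * (x - x') * (3 / x') =
        y * ((x - x') * (x - x')) * ((3 * x ^ 2 + 2 * x * x' + x' ^ 2) / (x' * x ^ 3)) := by
      field_simp; ring
    linear_combination e6 + y * (x - x') * e5 + k3 A B B' x' * y * e3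
  have h4 : v (x - x') ≤ v (y - y') * r := by
    rw [h1, sq_sub_sq, mul_comm]; exact vm le_rfl (v.map_add_le hy hy')
  have h5 : v (x - x') ≤ r * r := h4.trans (mul_le_mul_left (v.map_sub_le hy hy') r)
  rw [e4]
  exact (vi' (vm hy (vm h4 h5)) h3).trans_eq (by ring)

end Pool.Agent.P.MP_ab3ecb_nt.TS
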