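import Pool.Agent.P.MP_ab3ecb_nt.TS.Iface

/-! Step EXB. -/

set_option autoImplicit false
set_option linter.unusedSectionVars false

namespace Pool.Agent.P.MP_ab3ecb_nt.TS

open Filter Topology NumberField Pool.Agent.P.MP_ab3ecb_nt.TK
open Pool.Agent.P.MP_8b7eba_nt.R2 hiding Sm E1
open scoped Classical NNReal

theorem p_EXB (hLOG : S_LOG) (hCON : S_CON) (hETA : S_ETA) :
    S_EXB := by
  intro R _ _ a b b' a' M _ _ v r x y x' y' P P' U U' hG h h' hx hr hy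
  obtain ⟨-, c2, -, -, c5, c6, -⟩ := hCON a b b' a' M v x' y' hG h'.eq h'.vx (h'.vy.trans_lt hr)
  obtain ⟨-, e⟩ := hETA a b b' a' M v r x y x' y' hG h.eq h'.eq h'.vx hx hr h.vy h'.vy
  have nz : ∀ {s : M}, v s = 1 → s ≠ 0 := fun hs h0 => by simp [h0] at hs
  have x0 := nz h.vx
  have x0' := nz h'.vx
  have h3 := nz hG.three
  have v27 : v (27 : M) = 1 := by rw [show (27 : M) = 3 ^ 3 by norm_num, map_pow, hG.three, one_pow]
  have v81 : v (81 : M) = 1 := by rw [show (81 : M) = 3 ^ 4 by norm_num, map_pow, hG.three, one_pow]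
  obtain ⟨g, hg⟩ : ∃ g, g = g1 (a' : M) b' b (1 / x' ^ 2) := ⟨_, rfl⟩
  obtain ⟨t, ht⟩ : ∃ t, t = y / x ^ 3 * x' ^ 3 - y' := ⟨_, rfl⟩
  obtain ⟨k, hk⟩ : ∃ k, k = k3 (a : M) b b' x' := ⟨_, rfl⟩
  obtain ⟨κ, hκ⟩ : ∃ κ, κ = km (b : M) b' a' x' := ⟨_, rfl⟩
  obtain ⟨m, hm⟩ : ∃ m, m = y - y' := ⟨_, rfl⟩
  rw [← ht, ← hk, ← hm] at e
  rw [← hg] at c2
  rw [← hκ] at c5
  rw [← hk] at c6
  rw [← hg, ← hk, ← hκ, ← hm]
  have g0 := nz c2
  have m0 : m ≠ 0 := hm ▸ sub_ne_zero.2 hy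
  have vm0 : 0 < v m := zero_lt_iff.2 (v.ne_zero_iff.2 m0)
  have vmr : v m ≤ r := hm ▸ v.map_sub_le h.vy h'.vy
  have r2 : r ^ 2 < 1 := pow_lt_one₀ zero_le hr two_ne_zero
  have r42 : r ^ 4 ≤ r ^ 2 := pow_le_pow_of_le_one zero_le hr.le (by norm_num)
  have s1 : v (k * y * (y + y')) ≤ r ^ 2 := by
    rw [sq]; exact vm (vi c6 h.vy) (v.map_add_le h.vy h'.vy)
  have tm : v (t - m) ≤ v m * r ^ 2 := by
    rw [show t - m = t - m * (1 - k * y * (y + y')) - m * (k * y * (y + y')) by ring]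
    exact v.map_sub_le (e.trans (mul_le_mul_right r42 _)) (vm le_rfl s1)
  have vt : v t = v m := v_eq_of_sub (tm.trans_lt (mul_lt_of_lt_one_right vm0 r2))
  have t0 : t ≠ 0 := v.ne_zero_iff.1 (vt ▸ vm0.ne')
  have vi1 : ∀ {s : M} (n : ℕ), v s = 1 → v (1 / s ^ n) = 1 := fun n hs => by
    rw [map_div₀, map_one, map_pow, hs, one_pow, div_one]
  have dY : Y U - Y U' = 27 * a' * t * (1 / x' ^ 3) := by
    rw [h.UY, h'.UY, ht]; field_simp
  have sY : Y U + 2 * Y U' = 27 * a' * (t + 3 * y') * (1 / x' ^ 3) := by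
    rw [h.UY, h'.UY, ht]; field_simp; ring
  have vdY : v (Y U - Y U') = v m := by
    rw [dY, map_mul, map_mul, map_mul, v27, hG.ha', vi1 3 h'.vx, vt]; simp
  have hD : 3 * X U' ^ 2 + ((cA a' b' b : R) : M) = 81 * a' * g := by
    rw [h'.UX, hg, cA, g1]; push_cast; ring
  have vY : ∀ {s w : M}, v s = 1 → v w ≤ r → v (27 * (a' : M) * (w / s ^ 3)) ≤ r := fun hs hw => by
    rw [map_mul, map_mul, v27, hG.ha', map_div₀, map_pow, hs]; simpa using hw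
  obtain ⟨l1, l2, l3⟩ := hLOG (cA a' b' b) (cB a' b' b a) M ℝ≥0 v r U U' h.U0 h'.U0 hr
    (by
      rw [h'.UX]
      exact v.map_add_le (vi (vi (v_of 9) hG.ha'.le) (vi1 2 h'.vx).le) (vi (v_of 3) (v_int v b')))
    (by
      rw [show X U - X U' = -(9 * a' * (1 / x ^ 2) * (1 / x' ^ 2) * (x + x')) * (x - x') by
        rw [h.UX, h'.UX]; field_simp; ring]
      refine (vi ?_ le_rfl).trans_lt hx
      rw [v.map_neg]
      exact vi (vi (vi (vi (v_of 9) hG.ha'.le) (vi1 2 h.vx).le) (vi1 2 h'.vx).le)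
        (v.map_add_le h.vx.le h'.vx.le))
    (h.UY ▸ vY h.vx h.vy) (h'.UY ▸ vY h'.vx h'.vy)
    (by rw [hD, map_mul, map_mul, v81, hG.ha', c2]; simp)
    (sub_ne_zero.1 (v.ne_zero_iff.1 (vdY ▸ vm0.ne')))
  rw [vdY, hD, dY, sY] at l3
  obtain ⟨z, hz⟩ : ∃ z, z = Z (U - U') := ⟨_, rfl⟩
  rw [← hz] at l3
  have f1 : v (z * (-3 * g * x' ^ 3) - t * (1 - κ * t * (t + 3 * y'))) ≤ v m * r ^ 4 := by
    refine le_of_eq_of_le ?_ l3
    rw [show z * (81 * a' * g) ^ 3 + 27 * a' * t * (1 / x' ^ 3) * ((81 * a' * g) ^ 2 -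
        2 * X U' * (27 * a' * t * (1 / x' ^ 3)) * (27 * a' * (t + 3 * y') * (1 / x' ^ 3))) =
        -(27 * a' * (81 * a' * g) ^ 2 * (1 / x' ^ 3) *
          (z * (-3 * g * x' ^ 3) - t * (1 - κ * t * (t + 3 * y')))) by
      rw [h'.UX, hκ, km, ← hg, g2]; field_simp; ring]
    rw [v.map_neg, map_mul, map_mul, map_mul, map_mul, map_pow, map_mul, map_mul, v27, v81, hG.ha',
      c2, vi1 3 h'.vx]
    simp
  have vtr : v t ≤ r := vt ▸ vmr
  have s2 : v (t * t + t * m + m * m + 3 * y' * (t + m)) ≤ r ^ 2 := by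
    rw [sq]
    exact v.map_add_le (v.map_add_le (v.map_add_le (vm vtr vtr) (vm vtr vmr)) (vm vmr vmr))
      (vm (vi (v_of 3) h'.vy) (v.map_add_le vtr vmr))
  have f2 : v (z * (-3 * g * x' ^ 3) - m * (1 - k * y * (y + y') - κ * m * (y + 2 * y'))) ≤
      v m * r ^ 4 := by
    rw [show z * (-3 * g * x' ^ 3) - m * (1 - k * y * (y + y') - κ * m * (y + 2 * y')) =
      z * (-3 * g * x' ^ 3) - t * (1 - κ * t * (t + 3 * y')) + (t - m * (1 - k * y * (y + y'))) -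
        κ * ((t - m) * (t * t + t * m + m * m + 3 * y' * (t + m))) by rw [hm]; ring]
    refine v.map_sub_le (v.map_add_le f1 e) (vi c5 ((vm tm s2).trans_eq ?_))
    ring
  refine ⟨l1, ⟨l2, ?_⟩, hz ▸ f2⟩
  have u1 : v (-3 * g * x' ^ 3) = 1 := by
    rw [map_mul, map_mul, v.map_neg, hG.three, c2, map_pow, h'.vx]; simp
  have f3 : v (z * (-3 * g * x' ^ 3)) ≤ v m := by
    rw [← sub_add_cancel (z * (-3 * g * x' ^ 3)) (m * (1 - k * y * (y + y') - κ * m * (y + 2 * y')))]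
    refine v.map_add_le (f2.trans (mul_le_of_le_one_right' (pow_le_one' hr.le 4))) (vi' le_rfl ?_)
    refine v.map_sub_le (v.map_sub_le (map_one v).le (s1.trans r2.le)) ?_
    exact vi (vi c5 (vmr.trans hr.le))
      (v.map_add_le (h.vy.trans hr.le) (vi (v_of 2) (h'.vy.trans hr.le)))
  rw [map_mul, u1, mul_one, hz] at f3
  exact f3.trans vmr

end Pool.Agent.P.MP_ab3ecb_nt.TS
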