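import Pool.Agent.P.MP_ab3ecb_nt.TS.Iface

/-! Step HALF. -/

set_option autoImplicit false
set_option linter.unusedSectionVars false

namespace Pool.Agent.P.MP_ab3ecb_nt.TS

open Filter Topology NumberField Pool.Agent.P.MP_ab3ecb_nt.TK
open Pool.Agent.P.MP_8b7eba_nt.R2 hiding Sm E1
open scoped Classical NNReal

namespace HALFx

lemma root (a b : ℝ) : ∃ e : ℝ, e ^ 3 + a * e + b = 0 := by
  have hc : Continuous fun x : ℝ => x ^ 3 + a * x + b := by fun_prop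
  obtain ⟨t, h1, h2⟩ : ∃ t : ℝ, 1 ≤ t ∧ |a| + |b| ≤ t :=
    ⟨1 + |a| + |b|, by linarith [abs_nonneg a, abs_nonneg b], by linarith⟩
  have h3 : t * t ≤ t ^ 3 := by nlinarith [mul_nonneg (mul_self_nonneg t) (sub_nonneg.2 h1)]
  have h4 : |a| * t + |b| ≤ t * t := by nlinarith [abs_nonneg b]
  have h5 : -(|a| * t) ≤ a * t := by nlinarith [neg_abs_le a]
  exact intermediate_value_univ (-t) t hc
    ⟨by nlinarith [le_abs_self b], by nlinarith [neg_abs_le b]⟩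

lemma key {a b x y : ℝ} (hD : 0 < 4 * a ^ 3 + 27 * b ^ 2) (h : y ^ 2 = x ^ 3 + a * x + b) :
    ∃ u v l : ℝ, 0 < v ∧ v ^ 2 = u ^ 3 + a * u + b ∧ l * (v + v) = u ^ 2 + u * u + u ^ 2 + a ∧
      l ^ 2 - u - u = x := by
  obtain ⟨e, he⟩ := root a b
  obtain rfl : b = -e ^ 3 - a * e := by linarith
  have h1 : 0 < 3 * e ^ 2 + 4 * a := by
    by_contra h1
    nlinarith [mul_nonneg (sub_nonneg.2 (not_lt.1 h1)) (sq_nonneg (3 * e ^ 2 + a))]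
  have h2 : (x + e / 2) ^ 2 < x ^ 2 + e * x + e ^ 2 + a := by nlinarith
  have h3 : 0 < x ^ 2 + e * x + e ^ 2 + a := (sq_nonneg _).trans_lt h2
  have h4 : 0 ≤ x - e := by
    by_contra h4
    nlinarith [mul_pos (neg_pos.2 (not_le.1 h4)) h3, sq_nonneg y]
  obtain ⟨r, r0, hr⟩ : ∃ r, 0 ≤ r ∧ r ^ 2 = x - e := ⟨_, Real.sqrt_nonneg _, Real.sq_sqrt h4⟩
  obtain ⟨n, n0, hn⟩ : ∃ n, 0 < n ∧ n ^ 2 = x ^ 2 + e * x + e ^ 2 + a :=
    ⟨_, Real.sqrt_pos.2 h3, Real.sq_sqrt h3.le⟩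
  have h5 : 0 < 2 * x + e + 2 * n := by
    have := (abs_lt_of_sq_lt_sq' (hn ▸ h2) n0.le).1
    linarith
  obtain ⟨m, m0, hm⟩ : ∃ m, 0 < m ∧ m ^ 2 = 2 * x + e + 2 * n :=
    ⟨_, Real.sqrt_pos.2 h5, Real.sq_sqrt h5.le⟩
  refine ⟨x + r * m + n, (r ^ 2 + r * m + n) * m, r + m, by positivity, ?_⟩
  obtain rfl : a = n ^ 2 - x ^ 2 - e * x - e ^ 2 := by linarith
  obtain rfl : n = (m ^ 2 - 2 * x - e) / 2 := by linarith
  obtain rfl : x = r ^ 2 + e := by linarith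
  refine ⟨?_, ?_, ?_⟩ <;> ring

end HALFx

theorem p_HALF :
    S_HALF := by
  intro R _ _ A B P hD
  by_cases hP : P = 0
  · exact ⟨0, by simp [hP]⟩
  obtain ⟨u, v, l, v0, h1, h2, h3⟩ := HALFx.key hD (eqn hP)
  obtain ⟨Q, hQ, rfl, rfl⟩ : ∃ Q : Pt A B ℝ, Q ≠ 0 ∧ X Q = u ∧ Y Q = v :=
    ⟨.some u v ((ns_iff _ _).2 ⟨h1, Or.inr (by positivity)⟩),
      WeierstrassCurve.Affine.Point.some_ne_zero _, rfl, rfl⟩
  have h4 : Q + Q ≠ 0 := fun h => by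
    have := congrArg Y (eq_neg_of_add_eq_zero_left h)
    rw [Y_neg] at this
    linarith
  obtain ⟨l', e1, -, -, e2⟩ := add_spec hQ hQ h4
  obtain rfl : l' = l := mul_right_cancel₀ (by positivity) (e2.trans h2.symm)
  rcases eq_or_neg h4 hP (e1.trans h3) with h | h
  · exact ⟨Q, by rw [two_nsmul, h]⟩
  · exact ⟨-Q, by rw [two_nsmul, ← neg_add, h, neg_neg]⟩

end Pool.Agent.P.MP_ab3ecb_nt.TS
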