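import Pool.Agent.P.MP_ab3ecb_nt.TS.Iface

/-! Step ID. -/

set_option autoImplicit false
set_option linter.unusedSectionVars false

namespace Pool.Agent.P.MP_ab3ecb_nt.TS

open Filter Topology NumberField Pool.Agent.P.MP_ab3ecb_nt.TK
open Pool.Agent.P.MP_8b7eba_nt.R2 hiding Sm E1
open scoped Classical NNReal

namespace IDx

theorem cmp {L M : Type} [Field L] [Field M] [CharZero M] [Algebra L M] {T : Tw L} {x y z x' y' z' : M}
    {Q : Pt T.A T.B M} (hθ : T.θ ^ 2 = T.c) (hN : T.N ≠ 0) (hd : T.d ≠ 0) (h : T.Im x y z Q)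
    (h' : T.Im x' y' z' Q) (h0 : x' + T.θ * z' ≠ 0) : x + T.θ * z ≠ 0 ∧
      ((x - T.θ * z) / (x + T.θ * z)) ^ 2 = ((x' - T.θ * z') / (x' + T.θ * z')) ^ 2 ∧
      y / (x + T.θ * z) ^ 3 = y' / (x' + T.θ * z') ^ 3 := by
  obtain ⟨q, e1, e2⟩ := h'.some h0
  have h1 := mt h.zero q
  obtain ⟨-, e3, e4⟩ := h.some h1
  have a : (T.a : M) ≠ 0 := fun e => hN (by
    have := congrArg (algebraMap (𝓞 L) M) (Tw.N_eq hθ)
    rw [map_mul, map_intCast, show algebraMap (𝓞 L) M T.a = 0 from e, zero_mul] at this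
    exact_mod_cast this.symm)
  have d : (T.d : M) ≠ 0 := Int.cast_ne_zero.2 hd
  rw [e3] at e1
  rw [e4, mul_div_assoc, mul_div_assoc] at e2
  exact ⟨h1, mul_left_cancel₀ (mul_ne_zero three_ne_zero a) (add_right_cancel
    (mul_left_cancel₀ (mul_ne_zero three_ne_zero d) e1)),
    mul_left_cancel₀ (mul_ne_zero (mul_ne_zero (by norm_num) (pow_ne_zero 2 d)) a) e2⟩

theorem one {F : Type} [Field F] [CharZero F] {θ η x y z x' y' z' : F} (h : η = -θ) (hθ : θ ≠ 0)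
    (hy : y' ≠ 0) (b : x + θ * z ≠ 0) (a : x + η * z ≠ 0) (b' : x' + θ * z' ≠ 0) (a' : x' + η * z' ≠ 0)
    (e1 : ((x - θ * z) / (x + θ * z)) ^ 2 = ((x' - θ * z') / (x' + θ * z')) ^ 2)
    (e2 : y / (x + θ * z) ^ 3 = y' / (x' + θ * z') ^ 3)
    (e3 : y / (x + η * z) ^ 3 = y' / (x' + η * z') ^ 3) :
    ∃ t, x = t * x' ∧ y = t ^ 3 * y' ∧ z = t * z' := by
  simp only [h, neg_mul, ← sub_eq_add_neg] at a a' e3
  obtain ⟨s, hs⟩ : ∃ s, x + θ * z = s * (x' + θ * z') := ⟨_, (div_mul_cancel₀ _ b').symm⟩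
  obtain ⟨u, hu⟩ : ∃ u, x - θ * z = u * (x' - θ * z') := ⟨_, (div_mul_cancel₀ _ a').symm⟩
  simp only [hs, hu] at a b e1 e2 e3
  have s0 := left_ne_zero_of_mul b
  have u0 := left_ne_zero_of_mul a
  generalize x' + θ * z' = p at e1 e2 b'
  generalize x' - θ * z' = q at e1 e3 a'
  field_simp at e1 e2 e3
  obtain rfl : u = s := mul_left_cancel₀ (mul_ne_zero (pow_ne_zero 2 s0) hy)
    (by linear_combination e2 - e3 - u * y' * e1)
  exact ⟨u, by linear_combination (hs + hu) / 2, by linear_combination e2,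
    mul_left_cancel₀ hθ (by linear_combination (hs - hu) / 2)⟩

end IDx

theorem p_ID (hEMB : S_EMB) :
    S_ID := by
  intro L _ _ T r ι ι' x₀ y₀ z₀ Q₀ x y z hT hN hd hι h0 hy h h1 h2
  have E := (hEMB T hT).2.2
  have b0 : (x₀ : L) + T.θ * z₀ ≠ 0 := fun e => by
    have := E x₀ z₀ (by rw [← e, mul_comm])
    tauto
  have θ0 : ι T.θ ≠ 0 := (map_ne_zero ι).2 fun e => one_ne_zero (E 0 1 (by simp [e])).2
  have K : ∀ κ : L →+* PadicAlgCl r.1, (x₀ : PadicAlgCl r.1) + κ T.θ * z₀ ≠ 0 ∧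
      T.Im (x₀ : Via κ) y₀ z₀ (bc _ Q₀) := fun κ =>
    ⟨by simpa using (map_ne_zero κ).2 b0, by simpa only [map_ratCast] using h.bc (M := Via κ)⟩
  obtain ⟨b, e1, e2⟩ := IDx.cmp hT.sq hN hd h1 (K ι).2 (K ι).1
  obtain ⟨a, -, e3⟩ := IDx.cmp hT.sq hN hd h2 (K ι').2 (K ι').1
  obtain ⟨t, t1, t2, t3⟩ := IDx.one (F := PadicAlgCl r.1) hι θ0 (Rat.cast_ne_zero.2 hy) b a (K ι).1
    (K ι').1 e1 e2 e3
  obtain ⟨t, rfl⟩ : ∃ s, algebraMap ℚ_[r.1] (PadicAlgCl r.1) s = t := by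
    rcases h0 with h0 | h0
    · exact ⟨x / x₀, by rw [map_div₀, map_ratCast, div_eq_iff (Rat.cast_ne_zero.2 h0)]; exact t1⟩
    · exact ⟨z / z₀, by rw [map_div₀, map_ratCast, div_eq_iff (Rat.cast_ne_zero.2 h0)]; exact t3⟩
  have i := (algebraMap ℚ_[r.1] (PadicAlgCl r.1)).injective
  exact ⟨t, i (by rw [map_mul, map_ratCast]; exact t1), i (by rw [map_mul, map_pow, map_ratCast]; exact t2),
    i (by rw [map_mul, map_ratCast]; exact t3)⟩

end Pool.Agent.P.MP_ab3ecb_nt.TS
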