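import Pool.Agent.P.MP_ab3ecb_nt.TS.Iface

/-! Step LK. -/

set_option autoImplicit false
set_option linter.unusedSectionVars false

namespace Pool.Agent.P.MP_ab3ecb_nt.TS

open Filter Topology NumberField Pool.Agent.P.MP_ab3ecb_nt.TK
open Pool.Agent.P.MP_8b7eba_nt.R2 hiding Sm E1
open scoped Classical NNReal

namespace LKx

noncomputable def pl (r : Nat.Primes) (e : Om →+* PadicAlgCl r.1) : Pl :=
  ⟨r.1, r.2, (NormedField.valuation (K := PadicAlgCl r.1)).comap e, by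
    rw [Valuation.comap_apply, map_natCast, ← one_div]
    exact PadicAlgCl.valuation_p r.1⟩

end LKx

open LKx in
theorem p_LK :
    S_LK := by
  intro L _ _ _
  refine ⟨fun w r hw => ?_, fun r ι => ?_⟩
  · obtain ⟨s, hs⟩ := a_PL.2.1 (pl r (Pool.Agent.P.MP_9c97e9_nt.emb ℚ ℚ_[r.1])) w hw.symm
    refine ⟨(Pool.Agent.P.MP_9c97e9_nt.emb ℚ ℚ_[r.1]).comp
      (((s⁻¹ : GQ) : Om →+* Om).comp (algebraMap L Om)), hw, fun x => ?_⟩
    rw [← hs, Pl.smul_v]
    rfl
  · have : IsScalarTower ℚ L Om := IsScalarTower.of_algebraMap_eq' (Subsingleton.elim _ _)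
    have : Algebra.IsAlgebraic L Om := Algebra.IsAlgebraic.tower_top (K := ℚ) L
    let e : Om →ₐ[L] Via ι := IsAlgClosed.lift
    refine ⟨pl r (e : Om →+* Via ι), rfl, fun x => ?_⟩
    rw [← e.commutes x]
    rfl

end Pool.Agent.P.MP_ab3ecb_nt.TS
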