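import Pool.Agent.P.MP_ab3ecb_nt.TS.Iface

/-! Step LOG. -/

set_option autoImplicit false
set_option linter.unusedSectionVars false

namespace Pool.Agent.P.MP_ab3ecb_nt.TS

open Filter Topology NumberField Pool.Agent.P.MP_ab3ecb_nt.TK
open Pool.Agent.P.MP_8b7eba_nt.R2 hiding Sm E1
open scoped Classical NNReal

namespace LOGx

variable {L G : Type} [Field L] [LinearOrderedCommGroupWithZero G] {v : Valuation L G}

lemma one_add {z : L} (h : v z < 1) : v (1 + z) = 1 := by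
  simpa using v.map_add_eq_of_lt_left (x := 1) (y := z) (by simpa using h)

lemma bound {r : G} {x D H e u y w : L} (hr : r ≤ 1) (hx : v x ≤ 1) (hD : v D ≤ 1) (hH : v H ≤ 1)
    (he : v e ≤ r * r) (hu : v u ≤ r) (hy : v y ≤ r) (hw : v w ≤ r) :
    v (u * u * e * (D * D * (D - 2 * H - 2 * x * (3 * x + e))) + u * u * u * y * (H * (D * D)) +
      e * e * (D * D) - u * w * e * (2 * x * (3 * x + e) * (H + D)) +
      u * u * u * w * (2 * x * (3 * x + 2 * e - y * u) * (H * H))) ≤ r ^ 4 := by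
  have e1 : v e ≤ 1 := he.trans (mul_le_one' hr hr)
  have h2 : v (2 : L) ≤ 1 := v_of 2
  have h3 : v (3 * x + e) ≤ 1 := v.map_add_le (vi (v_of 3) hx) e1
  have h4 := vi hD hD
  have h5 := vi h2 hx
  have a : r ^ 4 = r * r * (r * r) := by rw [← pow_two r, ← pow_add]
  have b : r ^ 4 = r * r * r * r := by rw [a, mul_assoc (r * r)]
  refine v.map_add_le (v.map_sub_le (v.map_add_le (v.map_add_le ?_ ?_) ?_) ?_) ?_
  · exact vi' (a ▸ vm (vm hu hu) he) (vi h4 (v.map_sub_le (v.map_sub_le hD (vi h2 hH)) (vi h5 h3)))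
  · exact vi' (b ▸ vm (vm (vm hu hu) hu) hy) (vi hH h4)
  · exact vi' (a ▸ vm he he) h4
  · exact vi' (a ▸ vm (vm hu hw) he) (vi (vi h5 h3) (v.map_add_le hH hD))
  · exact vi' (b ▸ vm (vm (vm hu hu) hu) hw) (vi (vi h5 (v.map_sub_le
      (v.map_add_le (vi (v_of 3) hx) (vi h2 e1)) (vi (hy.trans hr) (hu.trans hr)))) (vi hH hH))

end LOGx

open LOGx in
theorem p_LOG :
    S_LOG := by
  intro R _ _ A B L G _ _ _ _ v r P Q hP hQ hr hx he hy hy' hD hne
  have h0 : P - Q ≠ 0 := fun h => hne (by rw [sub_eq_zero.1 h])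
  rw [sub_eq_add_neg P Q] at h0 ⊢
  obtain ⟨l, h1, h2, h3, h4⟩ := add_spec hP (neg_ne_zero.2 hQ) h0
  simp only [X_neg, Y_neg, sub_neg_eq_add, ← sub_eq_add_neg (Y P)] at h1 h3 h4
  have hZ : Z (P + -Q) = X (P + -Q) / Y (P + -Q) := rfl
  refine ⟨h0, ?_⟩
  rw [E1, hZ, h2, h1]
  generalize X P = x at *
  generalize X Q = x' at *
  generalize Y P = y at *
  generalize Y Q = y' at *
  obtain ⟨e, rfl⟩ : ∃ e, x = x' + e := ⟨x - x', by ring⟩
  rw [add_sub_cancel_left] at he h3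
  obtain ⟨D, hDe⟩ : ∃ D, D = 3 * x' ^ 2 + (A : L) := ⟨_, rfl⟩
  rw [← hDe] at hD ⊢
  obtain ⟨H, hHe⟩ : ∃ H, H = D + e * (3 * x' + e) := ⟨_, rfl⟩
  have hH : v H = 1 := by
    rw [hHe, v.map_add_eq_of_lt_left, hD]
    rw [hD]
    exact (vi' le_rfl (v.map_add_le (vi (v_of 3) hx) he.le)).trans_lt he
  replace h4 : l * (y - y') = H := by rw [h4, hHe, hDe]; ring
  have l0 : l ≠ 0 := fun h => by simp [← h4, h] at hH
  obtain ⟨u, rfl⟩ : ∃ u, l = u⁻¹ := ⟨l⁻¹, (inv_inv l).symm⟩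
  have u0 : u ≠ 0 := fun h => l0 (by simp [h])
  rw [inv_mul_eq_iff_eq_mul₀ u0] at h3 h4
  have hm : v (y - y') = v u := by rw [h4, map_mul, hH, mul_one]
  have hu : v u ≤ r := hm ▸ v.map_sub_le hy hy'
  have hu1 := hu.trans_lt hr
  have he2 : v e ≤ r * r := h3 ▸ vm hu (v.map_add_le hy hy')
  have n1 : v (1 + -(2 * x' + e) * u * u) = 1 := one_add ((vi (vi (by
    rw [v.map_neg]; exact v.map_add_le (vi (v_of 2) hx) he.le) hu1.le) le_rfl).trans_lt hu1)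
  have n2 : v (1 + (y * u - 3 * x' - 2 * e) * u * u) = 1 := one_add ((vi (vi
    (v.map_sub_le (v.map_sub_le (vi (hy.trans hr.le) hu1.le) (vi (v_of 3) hx))
      (vi (v_of 2) he.le)) hu1.le) le_rfl).trans_lt hu1)
  have n3 : (1 + (y * u - 3 * x' - 2 * e) * u * u) ≠ 0 := fun h => by simp [h] at n2
  have vu : 0 < v u := zero_lt_iff.2 (v.ne_zero_iff.2 u0)
  constructor
  · right
    rw [show u⁻¹ ^ 2 - (x' + e) - x' = (1 + -(2 * x' + e) * u * u) / u ^ 2 by field_simp; ring,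
      map_div₀, n1, map_pow, one_lt_div₀ (pow_pos vu 2)]
    exact pow_lt_one₀ vu.le hu1 two_ne_zero
  have k := bound (w := y + 2 * y') hr.le hx hD.le hH.le he2 hu hy
    (v.map_add_le hy (vi (v_of 2) hy'))
  rw [hm, ← mul_one (v _), ← n2, ← map_mul]
  refine le_trans (le_of_eq (congrArg v ?_)) (vm (le_refl (v u)) k)
  have hz : (u⁻¹ ^ 2 - (x' + e) - x') / -(u⁻¹ * (u⁻¹ ^ 2 - (x' + e) - x' - (x' + e)) + y) *
      (1 + (y * u - 3 * x' - 2 * e) * u * u) = -u * (1 + -(2 * x' + e) * u * u) := by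
    rw [show -(u⁻¹ * (u⁻¹ ^ 2 - (x' + e) - x' - (x' + e)) + y) =
      -(1 + (y * u - 3 * x' - 2 * e) * u * u) / u ^ 3 by field_simp; ring, div_div_eq_mul_div,
      div_neg, neg_mul, div_mul_cancel₀ _ n3]
    field_simp
    ring
  rw [h4]
  linear_combination D ^ 3 * hz + u * ((3 * x' * D ^ 2) * h3 + (x' * u * D ^ 2) * h4 +
    (D ^ 2 - 2 * x' * u ^ 2 * D ^ 2 - 2 * x' * u * (y + 2 * y') * (H + D)) * hHe)

end Pool.Agent.P.MP_ab3ecb_nt.TS
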