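import Pool.Agent.P.MP_ab3ecb_nt.TS.Iface

/-! Step NM. -/

set_option autoImplicit false
set_option linter.unusedSectionVars false

namespace Pool.Agent.P.MP_ab3ecb_nt.TS

open Filter Topology NumberField Pool.Agent.P.MP_ab3ecb_nt.TK
open Pool.Agent.P.MP_8b7eba_nt.R2 hiding Sm E1
open scoped Classical NNReal

theorem p_NM (hFG : S_FG) (hMUL : S_MUL) (hPM : S_PM) :
    S_NM := by
  intro R _ _ A B L G _ _ _ _ v p P hp h7 hv hP hr n
  have hM := (hMUL A B L G v).2.1
  have ha : ∀ Q : Pt A B L, E1 v Q → ∀ m : ℤ, v (Z (m • Q) - m * Z Q) ≤ v (Z Q) ^ 5 := by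
    intro Q hQ m
    induction m using Int.induction_on with
    | zero => simp
    | succ m ih =>
      have h1 := hM _ Q m hQ.sm
      have h2 := (hFG A B L G v _ Q h1.1 hQ).2
      rw [max_eq_right h1.2] at h2
      rw [add_smul, one_smul, show Z ((m : ℤ) • Q + Q) - ((m + 1 : ℤ) : L) * Z Q =
        Z ((m : ℤ) • Q + Q) - Z ((m : ℤ) • Q) - Z Q + (Z ((m : ℤ) • Q) - ((m : ℤ) : L) * Z Q) by
          push_cast; ring]
      exact v.map_add_le h2 ih
    | pred m ih =>
      have h1 := hM _ Q (-m) hQ.sm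
      have h2 := (hFG A B L G v _ (-Q) h1.1 hQ.neg).2
      rw [Z_neg, v.map_neg, max_eq_right h1.2] at h2
      rw [sub_smul, one_smul, sub_eq_add_neg (_ • Q) Q,
        show Z ((-m : ℤ) • Q + -Q) - ((-m - 1 : ℤ) : L) * Z Q =
          Z ((-m : ℤ) • Q + -Q) - Z ((-m : ℤ) • Q) - -Z Q +
            (Z ((-m : ℤ) • Q) - ((-m : ℤ) : L) * Z Q) by push_cast; ring]
      exact v.map_add_le h2 ih
  have hb : ∀ Q : Pt A B L, E1 v Q → v (Z Q) ^ 2 ≤ v p →
      v (Z ((p : ℤ) • Q) - p * Z Q) ≤ v p * v (Z Q) ^ 5 := fun Q hQ h => by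
    rw [natCast_zsmul]
    refine (hPM A B L G v p Q hp hQ).trans (max_le le_rfl ?_)
    calc v (Z Q) ^ p ≤ v (Z Q) ^ (2 + 5) := pow_le_pow_right_of_le_one' hQ.Z_lt.le h7
      _ ≤ _ := by rw [pow_add]; exact mul_le_mul_left h _
  induction h : n.natAbs using Nat.strong_induction_on generalizing n P with
  | _ k ih =>
  by_cases h0 : n = 0
  · simp [h0]
  by_cases hd : (p : ℤ) ∣ n
  · obtain ⟨m, rfl⟩ := hd
    have hm : m ≠ 0 := right_ne_zero_of_mul h0
    have hlt : m.natAbs < k := by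
      rw [← h, Int.natAbs_mul, Int.natAbs_natCast]
      exact lt_mul_of_one_lt_left (Int.natAbs_pos.2 hm) hp.one_lt
    have h1 := hb P hP hr
    have r1 := hP.Z_lt.le
    have h2 : v (Z ((p : ℤ) • P)) ≤ v p * v (Z P) := by
      rw [← sub_add_cancel (Z ((p : ℤ) • P)) (p * Z P)]
      refine v.map_add_le (h1.trans (mul_le_mul_right ?_ _)) (map_mul v _ _).le
      simpa using pow_le_pow_right_of_le_one' r1 (show 1 ≤ 5 by norm_num)
    have h3 : v (Z ((p : ℤ) • P)) ≤ v (Z P) := h2.trans (mul_le_of_le_one_left' hv.le)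
    have h4 := ih _ hlt ((p : ℤ) • P) (hM _ P p hP.sm).1 ((pow_le_pow_left' h3 2).trans hr) m rfl
    have h5 : v (Z ((p : ℤ) • P)) ^ 5 ≤ v p * v (Z P) ^ 5 := by
      refine (pow_le_pow_left' h2 5).trans ?_
      rw [mul_pow]
      refine mul_le_mul_left ?_ _
      simpa using pow_le_pow_right_of_le_one' hv.le (show 1 ≤ 5 by norm_num)
    rw [mul_comm (p : ℤ) m, mul_smul, show Z (m • (p : ℤ) • P) - ((m * p : ℤ) : L) * Z P =
      Z (m • (p : ℤ) • P) - m * Z ((p : ℤ) • P) + m * (Z ((p : ℤ) • P) - p * Z P) by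
        push_cast; ring, Int.cast_mul, Int.cast_natCast, map_mul, mul_assoc]
    exact v.map_add_le (h4.trans (mul_le_mul_right h5 _)) (vm le_rfl h1)
  · have h1 : v n = 1 := by
      refine (v_z v n).antisymm (not_lt.1 fun h2 => ?_)
      obtain ⟨a, b, e⟩ := ((Nat.prime_iff_prime_int.1 hp).coprime_iff_not_dvd).2 hd
      have e' : (a : L) * p + b * n = 1 := by exact_mod_cast congrArg (Int.cast : ℤ → L) e
      have := v.map_add_lt ((vi (v_z v a) le_rfl).trans_lt hv) ((vi (v_z v b) le_rfl).trans_lt h2)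
      rw [e', map_one] at this
      exact lt_irrefl _ this
    rw [h1, one_mul]
    exact ha P hP n

end Pool.Agent.P.MP_ab3ecb_nt.TS
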