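import Pool.Agent.P.MP_ab3ecb_nt.TS.Iface

/-! Step PM. -/

set_option autoImplicit false
set_option linter.unusedSectionVars false

namespace Pool.Agent.P.MP_ab3ecb_nt.TS

open Filter Topology NumberField Pool.Agent.P.MP_ab3ecb_nt.TK
open Pool.Agent.P.MP_8b7eba_nt.R2 hiding Sm E1
open scoped Classical NNReal

namespace PMx

variable {L G : Type} [Field L] [LinearOrderedCommGroupWithZero G]

/-- Sequences generated by two given ones. -/
inductive Gen (v : Valuation L G) (z w : ℕ → L) : (ℕ → L) → Prop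
  | const (c : L) : v c ≤ 1 → Gen v z w (fun _ => c)
  | z : Gen v z w z
  | w : Gen v z w w
  | add {s t : ℕ → L} : Gen v z w s → Gen v z w t → Gen v z w (fun n => s n + t n)
  | mul {s t : ℕ → L} : Gen v z w s → Gen v z w t → Gen v z w (fun n => s n * t n)
  | inv {s : ℕ → L} : Gen v z w s → (∀ n, v (s n) = 1) → Gen v z w (fun n => (s n)⁻¹)

variable {v : Valuation L G} {z w : ℕ → L} {π : L}

lemma Gen.of_eq {s t : ℕ → L} (h : Gen v z w s) (e : ∀ n, t n = s n) : Gen v z w t := by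
  rwa [funext e]

lemma Gen.neg {s : ℕ → L} (h : Gen v z w s) : Gen v z w (fun n => -s n) :=
  ((Gen.const (-1) (by simp)).mul h).of_eq fun n => by ring

lemma Gen.le (hz : ∀ n, v (z n) ≤ 1) (hw : ∀ n, v (w n) ≤ 1) {s : ℕ → L} (h : Gen v z w s) :
    ∀ n, v (s n) ≤ 1 := by
  induction h with
  | const c h => exact fun _ => h
  | z => exact hz
  | w => exact hw
  | add _ _ h1 h2 => exact fun n => v.map_add_le (h1 n) (h2 n)
  | mul _ _ h1 h2 => exact fun n => vi (h1 n) (h2 n)
  | inv _ h1 _ => exact fun n => by rw [map_inv₀, h1 n, inv_one]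

lemma Gen.step (hπ : v π ≤ 1) (hz : ∃ s', Gen v z w s' ∧ ∀ n, z (n + 1) = z n + π * s' n)
    (hw : ∃ s', Gen v z w s' ∧ ∀ n, w (n + 1) = w n + π * s' n) {s : ℕ → L} (h : Gen v z w s) :
    ∃ s', Gen v z w s' ∧ ∀ n, s (n + 1) = s n + π * s' n := by
  induction h with
  | const c h => exact ⟨_, .const 0 (by simp), fun n => by simp⟩
  | z => exact hz
  | w => exact hw
  | add _ _ h1 h2 =>
    obtain ⟨s', g1, e1⟩ := h1
    obtain ⟨t', g2, e2⟩ := h2
    exact ⟨_, g1.add g2, fun n => by simp only [e1, e2]; ring⟩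
  | mul k1 k2 h1 h2 =>
    obtain ⟨s', g1, e1⟩ := h1
    obtain ⟨t', g2, e2⟩ := h2
    exact ⟨_, ((g1.mul k2).add (k1.mul g2)).add ((Gen.const π hπ).mul (g1.mul g2)),
      fun n => by simp only [e1, e2]; ring⟩
  | @inv s k1 hv h1 =>
    obtain ⟨s', g1, e1⟩ := h1
    have k2 : Gen v z w (fun n => s (n + 1)) :=
      (k1.add ((Gen.const π hπ).mul g1)).of_eq e1
    refine ⟨_, (g1.mul ((k1.inv hv).mul (k2.inv fun n => hv _))).neg, fun n => ?_⟩
    have a1 : s n ≠ 0 := by rw [← v.ne_zero_iff, hv]; exact one_ne_zero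
    have a2 : s (n + 1) ≠ 0 := by rw [← v.ne_zero_iff, hv]; exact one_ne_zero
    have a3 := e1 n
    field_simp
    linear_combination -a3

lemma Gen.iter (hπ : v π ≤ 1) (hz : ∃ s', Gen v z w s' ∧ ∀ n, z (n + 1) = z n + π * s' n)
    (hw : ∃ s', Gen v z w s' ∧ ∀ n, w (n + 1) = w n + π * s' n) (k : ℕ) :
    ∃ s', Gen v z w s' ∧ ∀ n, (fwdDiff 1)^[k] z n = π ^ k * s' n := by
  induction k with
  | zero => exact ⟨z, .z, fun n => by simp⟩
  | succ k ih =>
    obtain ⟨s, g, e⟩ := ih
    obtain ⟨s', g', e'⟩ := g.step hπ hz hw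
    refine ⟨s', g', fun n => ?_⟩
    rw [Function.iterate_succ_apply', fwdDiff, e, e, e']
    ring

lemma iter_le {c : G} (k : ℕ) : ∀ {f : ℕ → L}, (∀ n, v (f n) ≤ c) →
    ∀ n, v ((fwdDiff 1)^[k] f n) ≤ c := by
  induction k with
  | zero => exact fun h => h
  | succ k ih =>
    intro f h
    rw [Function.iterate_succ_apply]
    exact ih fun n => v.map_sub_le (h _) (h _)

lemma one_add {x : L} (h : v x < 1) : v (1 + x) = 1 := by
  simpa using v.map_add_eq_of_lt_left (x := 1) (y := x) (by simpa using h)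

lemma fin (p : ℕ) (hp : p.Prime) (h0 : z 0 = 0) (h1 : z 1 = π)
    (h5 : ∀ n, v (z (n + 1) - π - z n) ≤ v π ^ 5)
    (hk : ∀ n, v ((fwdDiff 1)^[p] z n) ≤ v π ^ p) :
    v (z p - p * π) ≤ max (v p * v π ^ 5) (v π ^ p) := by
  obtain ⟨q, rfl⟩ : ∃ q, p = q + 2 := ⟨p - 2, by have := hp.two_le; omega⟩
  have e := shift_eq_sum_fwdDiff_iter (h := (1 : ℕ)) z (q + 2) 0
  rw [Finset.sum_range_succ', Finset.sum_range_succ'] at e
  simp only [zero_add, smul_eq_mul, mul_one, Function.iterate_zero, id, h0, smul_zero, add_zero,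
    Nat.choose_one_right, Function.iterate_one] at e
  have e1 : fwdDiff 1 z 0 = π := by simp [fwdDiff, h0, h1]
  rw [e, e1, nsmul_eq_mul, add_sub_cancel_right]
  refine v.map_sum_le fun k hk' => ?_
  have hk2 : k < q + 1 := Finset.mem_range.1 hk'
  rcases Nat.lt_or_ge k q with h | h
  · refine le_max_of_le_left ?_
    obtain ⟨m, hm⟩ := hp.dvd_choose_self (k := k + 1 + 1) (by omega) (by omega)
    rw [hm, nsmul_eq_mul, Nat.cast_mul, mul_right_comm]
    refine vi' (vm le_rfl ?_) (v_n m)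
    rw [Function.iterate_succ_apply, Function.iterate_succ_apply]
    refine iter_le k (fun n => ?_) 0
    have : fwdDiff 1 (fwdDiff 1 z) n =
        (z (n + 1 + 1) - π - z (n + 1)) - (z (n + 1) - π - z n) := by
      simp only [fwdDiff]; ring
    rw [this]
    exact v.map_sub_le (h5 _) (h5 _)
  · obtain rfl : k = q := by omega
    refine le_max_of_le_right ?_
    rw [Nat.choose_self, one_smul]
    exact hk 0

end PMx

open PMx in
theorem p_PM (hFG : S_FG) (hMUL : S_MUL) (hZW : S_ZW) :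
    S_PM := by
  intro R _ _ A B L G _ _ _ _ v p P hp hP
  by_cases h0 : Z P = 0
  · have := ((hMUL A B L G v).2.1 _ P p hP.sm).2
    rw [natCast_zsmul, h0, map_zero] at this
    rw [h0, mul_zero, sub_zero]
    exact this.trans zero_le
  have hsm : ∀ n : ℕ, Sm v (v (Z P)) (n • P) := fun n => by
    simpa using (hMUL A B L G v).2.1 _ P n hP.sm
  have hlt : v (Z P) < 1 := hP.Z_lt
  have hA := v_int v A
  have hB := v_int v B
  set z : ℕ → L := fun n => Z (n • P) with hz
  set w : ℕ → L := fun n => W (n • P) with hw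
  have zl : ∀ n, v (z n) ≤ v (Z P) := fun n => (hsm n).2
  have wl : ∀ n, v (w n) ≤ v (Z P) := fun n =>
    (hZW A B L G v _ _ (hsm n).1 hP).1.trans (zl n)
  have wP : v (W P) ≤ v (Z P) := (hZW A B L G v _ _ hP hP).1
  choose l hl e1 e2 e3 using fun n : ℕ => (hZW A B L G v _ _ hP (hsm n).1).2
  have hs : ∀ n : ℕ, P + n • P = (n + 1) • P := fun n => (succ_nsmul' P n).symm
  simp only [hs] at e2 e3
  have cZ : Gen v z w fun _ => Z P := .const _ hlt.le
  have cW : Gen v z w fun _ => W P := .const _ (wP.trans hlt.le)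
  have cA : Gen v z w fun _ => (A : L) := .const _ hA
  have cB : Gen v z w fun _ => (B : L) := .const _ hB
  have c1 : Gen v z w fun _ => (1 : L) := .const _ (by simp)
  have c2 : Gen v z w fun _ => (2 : L) := .const _ (v_of 2)
  have c3 : Gen v z w fun _ => (3 : L) := .const _ (v_of 3)
  have cc : Gen v z w fun _ => W P / Z P := .const _ (by
    rw [map_div₀]; exact div_le_one_of_le₀ wP zero_le)
  have vU : ∀ n, v (1 + -((A : L) * (Z P * (W P + w n)) +
      B * (W P * W P + W P * w n + w n * w n))) = 1 := fun n => by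
    have a1 := wP.trans hlt.le
    have a2 := (wl n).trans hlt.le
    refine one_add (lt_of_le_of_lt ?_ hlt)
    rw [v.map_neg]
    exact v.map_add_le (vi hA (vi' le_rfl (v.map_add_le a1 a2)))
      (vi hB (v.map_add_le (v.map_add_le (vi a1 wP) (vi a1 (wl n))) (vi a2 (wl n))))
  have gl : Gen v z w l := by
    refine (((((cZ.mul cZ).add (cZ.mul .z)).add (Gen.z.mul .z)).add (cA.mul (Gen.w.mul .w))).mul
      ((c1.add ((cA.mul (cZ.mul (cW.add .w))).add (cB.mul (((cW.mul cW).add (cW.mul .w)).add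
        (Gen.w.mul .w)))).neg).inv vU)).of_eq fun n => ?_
    have a1 : (1 + -((A : L) * (Z P * (W P + w n)) +
        B * (W P * W P + W P * w n + w n * w n))) ≠ 0 := by
      rw [← v.ne_zero_iff, vU]; exact one_ne_zero
    rw [eq_mul_inv_iff_mul_eq₀ a1]
    linear_combination e1 n
  have vD : ∀ n, v (1 + ((A : L) * (l n * l n) + B * (l n * (l n * l n)))) = 1 := fun n => by
    have a1 := (hl n).le
    refine one_add (lt_of_le_of_lt ?_ (hl n))
    exact v.map_add_le (vi hA (vi a1 le_rfl)) (vi hB (vi a1 (vi a1 le_rfl)))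
  have gs := c1.add (((cc.add gl.neg).mul ((c2.mul (cA.mul gl)).add
    (c3.mul (cB.mul (gl.mul gl))))).mul
      ((c1.add ((cA.mul (gl.mul gl)).add (cB.mul (gl.mul (gl.mul gl))))).inv vD))
  have ez : ∀ n, z (n + 1) = z n + Z P * (1 + (W P / Z P + -l n) *
      (2 * (A * l n) + 3 * (B * (l n * l n))) *
        (1 + ((A : L) * (l n * l n) + B * (l n * (l n * l n))))⁻¹) := fun n => by
    have a1 : (1 + ((A : L) * (l n * l n) + B * (l n * (l n * l n)))) ≠ 0 := by
      rw [← v.ne_zero_iff, vD]; exact one_ne_zero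
    have a2 := e2 n
    have a3 := mul_inv_cancel₀ a1
    have a4 := mul_div_cancel₀ (W P) h0
    set D := (1 + ((A : L) * (l n * l n) + B * (l n * (l n * l n))))⁻¹
    simp only [hz]
    linear_combination D * a2 - (Z ((n + 1) • P) - Z P - Z (n • P)) * a3 -
      (2 * (A * l n) + 3 * (B * (l n * l n))) * D * a4
  obtain ⟨s, g, e⟩ := Gen.iter (π := Z P) hlt.le ⟨_, gs, ez⟩
    ⟨_, (gl.mul gs).add (c2.mul (cc.add gl.neg)).neg, fun n => by
      have a2 := e3 n
      have a3 := ez n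
      have a4 := mul_div_cancel₀ (W P) h0
      simp only [hz] at a3
      simp only [hw]
      linear_combination a2 + l n * a3 + 2 * a4⟩ p
  refine fin (z := z) p hp (by simp [hz]) (by simp [hz]) (fun n => ?_) fun n => ?_
  · have := (hFG A B L G v _ _ hP (hsm n).1).2
    rw [hs, max_eq_left (hsm n).2] at this
    exact this
  · rw [e]
    exact vi' (vp le_rfl p)
      (g.le (fun n => (zl n).trans hlt.le) (fun n => (wl n).trans hlt.le) n)

end Pool.Agent.P.MP_ab3ecb_nt.TS
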