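import Pool.Agent.P.MP_ab3ecb_nt.TS.Iface

/-! Step POS. -/

set_option autoImplicit false
set_option linter.unusedSectionVars false

namespace Pool.Agent.P.MP_ab3ecb_nt.TS

open Filter Topology NumberField Pool.Agent.P.MP_ab3ecb_nt.TK
open Pool.Agent.P.MP_8b7eba_nt.R2 hiding Sm E1
open scoped Classical NNReal

theorem p_POS :
    S_POS := by
  intro a b b' a' u ha ha' hd hu
  by_contra h
  push Not at h
  have hc : Continuous fun x : ℝ => a * x ^ 3 + b * x ^ 2 + b' * x + a' := by fun_prop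
  obtain ⟨s, hs, hs0⟩ := intermediate_value_Icc' h.le hc.continuousOn
    (show (0 : ℝ) ∈ Set.Icc _ _ from ⟨by simpa using ha'.le, hu⟩)
  obtain ⟨T, hT1, hT⟩ : ∃ T : ℝ, 1 ≤ T ∧ a * T = a + (|b| + |b'| + |a'|) :=
    ⟨1 + (|b| + |b'| + |a'|) / a, le_add_of_nonneg_right (by positivity), by field_simp⟩
  have h2 : T ≤ T ^ 2 := by nlinarith
  have hg : 0 ≤ a * T ^ 3 + b * T ^ 2 + b' * T + a' := by
    have e : a * T ^ 3 = (a + (|b| + |b'| + |a'|)) * T ^ 2 := by rw [← hT]; ring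
    have i1 := mul_le_mul_of_nonneg_right (neg_abs_le b) (sq_nonneg T)
    have i2 := mul_le_mul_of_nonneg_right (neg_abs_le b') (zero_le_one.trans hT1)
    have i3 := mul_le_mul_of_nonneg_left h2 (abs_nonneg b')
    have i4 := mul_le_mul_of_nonneg_left (hT1.trans h2) (abs_nonneg a')
    have i5 := neg_abs_le a'
    have i6 := mul_nonneg ha.le (sq_nonneg T)
    nlinarith
  obtain ⟨t, ht, ht0⟩ := intermediate_value_Icc (zero_le_one.trans hT1) hc.continuousOn
    (show (0 : ℝ) ∈ Set.Icc _ _ from ⟨by simpa using ha'.le, hg⟩)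
  simp only at hs0 ht0
  have hst : s - t ≠ 0 := fun e => by
    have e1 : t = 0 := le_antisymm (by linarith [hs.2]) ht.1
    rw [e1] at ht0
    simp at ht0
    exact ha'.ne ht0
  have e1 : b' = -a * (s ^ 2 + s * t + t ^ 2) - b * (s + t) :=
    mul_left_cancel₀ hst (by linear_combination hs0 - ht0)
  have e2 : a' = -(a * s ^ 3 + b * s ^ 2 + b' * s) := by linarith
  have e3 : dsc a b b' a' = ((s - t) * (2 * a * s + a * t + b) * (a * s + 2 * a * t + b)) ^ 2 := by
    rw [dsc, e2, e1]; ring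
  exact absurd hd (not_lt.2 (e3 ▸ sq_nonneg _))

end Pool.Agent.P.MP_ab3ecb_nt.TS
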