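import Pool.Agent.P.MP_ab3ecb_nt.TS.Iface

/-! Step REAL. -/

set_option autoImplicit false
set_option linter.unusedSectionVars false

namespace Pool.Agent.P.MP_ab3ecb_nt.TS

open Filter Topology NumberField Pool.Agent.P.MP_ab3ecb_nt.TK
open Pool.Agent.P.MP_8b7eba_nt.R2 hiding Sm E1
open scoped Classical NNReal

namespace REALx

lemma oth (hPOS : S_POS) {a b b' a' d x y : ℝ} (h1 : 0 < a * d) (h2 : a' * d < 0)
    (h3 : dsc a b b' a' < 0)
    (h : y ^ 2 = x ^ 3 + 27 * (3 * a * b' - b ^ 2) * d ^ 2 * x +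
      27 * (2 * b ^ 3 - 9 * a * b * b' + 27 * a ^ 2 * a') * d ^ 3) :
    0 ≤ a * d * (x - 3 * b * d) := by
  have hd : d ≠ 0 := fun h0 => by simp [h0] at h1
  have ha : a ≠ 0 := fun h0 => by simp [h0] at h1
  obtain ⟨u, rfl⟩ : ∃ u, x = 9 * (a * d) * u + 3 * b * d :=
    ⟨(x - 3 * b * d) / (9 * (a * d)), by field_simp; ring⟩
  have e : dsc (a * d) (b * d) (b' * d) (a' * d) = dsc a b b' a' * d ^ 4 := by
    rw [dsc, dsc]; ring
  have h4 : 0 ≤ u := hPOS (a * d) (b * d) (b' * d) (a' * d) u h1 h2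
    (by rw [e]; exact mul_neg_of_neg_of_pos h3 (by positivity)) (by
      refine nonneg_of_mul_nonneg_right (a := 729 * (a * d) ^ 2) ?_ (by positivity)
      exact (sq_nonneg y).trans_eq (by rw [h]; ring))
  exact (show 0 ≤ 9 * (a * d) ^ 2 * u by positivity).trans_eq (by ring)

lemma big (A B t : ℝ) : ∃ x y : ℝ, t < x ∧ y ^ 2 = x ^ 3 + A * x + B := by
  set x := |t| + |A| + |B| + 1 with hx
  have h1 := abs_nonneg t
  have h2 := abs_nonneg A
  have h3 := abs_nonneg B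
  have h4 : 1 ≤ x := by linarith
  refine ⟨x, √(x ^ 3 + A * x + B), by linarith [le_abs_self t], Real.sq_sqrt ?_⟩
  have h5 : |A| + |B| ≤ x ^ 2 := by nlinarith
  have h6 : (|A| + |B|) * x ≤ x ^ 2 * x := mul_le_mul_of_nonneg_right h5 (by linarith)
  have h7 : -|A| * x ≤ A * x := mul_le_mul_of_nonneg_right (neg_abs_le A) (by linarith)
  have h8 : |B| * 1 ≤ |B| * x := mul_le_mul_of_nonneg_left h4 h3
  nlinarith [neg_abs_le B]

end REALx

theorem p_REAL (hEMB : S_EMB) (hHALF : S_HALF) (hPOS : S_POS) :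
    S_REAL := by
  intro L _ _ T hT hN hΔ hd
  obtain ⟨e1, e2, -⟩ := hEMB T hT
  have hd' : (T.d : ℝ) ≠ 0 := by exact_mod_cast hd
  have hc : (0 : ℝ) ≤ T.c := by
    have : 0 ≤ T.c := by
      by_contra h
      have h1 : T.c * T.a₁ ^ 2 ≤ 0 := mul_nonpos_of_nonpos_of_nonneg (not_le.1 h).le (sq_nonneg _)
      have h2 := sq_nonneg T.a₀
      rw [Tw.N] at hN
      linarith
    exact_mod_cast this
  have hn : ∀ t : ℝ, t ^ 2 = T.c → ((T.a₀ + T.a₁ * t) * T.d) * ((T.a₀ - T.a₁ * t) * T.d) < 0 :=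
    fun t ht => by
      have h1 : (T.N : ℝ) < 0 := by exact_mod_cast hN
      have h2 : ((T.a₀ + T.a₁ * t) * T.d) * ((T.a₀ - T.a₁ * t) * T.d) = (T.N : ℝ) * T.d ^ 2 := by
        rw [Tw.N]; push_cast; rw [← ht]; ring
      rw [h2]; exact mul_neg_of_neg_of_pos h1 (by positivity)
  obtain ⟨t, ht, h1, h2⟩ : ∃ t : ℝ, t ^ 2 = T.c ∧ (T.a₀ + T.a₁ * t) * T.d < 0 ∧
      0 < (T.a₀ - T.a₁ * t) * T.d := by
    rcases mul_neg_iff.1 (hn _ (Real.sq_sqrt hc)) with h | h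
    · exact ⟨-√T.c, by rw [neg_sq, Real.sq_sqrt hc], by simpa [sub_eq_add_neg] using h.2,
        by simpa using h.1⟩
    · exact ⟨_, Real.sq_sqrt hc, h⟩
  obtain ⟨s, hs⟩ := e1 ℝ t ht
  let i := s.toAlgebra
  have hθ : (T.θ : ℝ) = t := hs
  have hΔ' : (T.Δ : ℝ) < 0 := by exact_mod_cast hΔ
  refine ⟨i, fun Q => ?_, fun σ hσ x y h => ?_⟩
  · have ha : (T.a : ℝ) * T.d < 0 := by rw [Tw.cast_a, hθ]; exact h1
    have ha0 : (T.a : ℝ) ≠ 0 := fun h0 => by simp [h0] at ha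
    have hD : 4 * (T.A : ℝ) ^ 3 + 27 * (T.B : ℝ) ^ 2 =
        3 ^ 12 * (T.a : ℝ) ^ 2 * (-T.Δ) * T.d ^ 6 := by
      have := congrArg (algebraMap (𝓞 L) ℝ) (Tw.disc_eq' hT.sq)
      simp only [map_add, map_mul, map_pow, map_neg, map_ofNat, map_intCast] at this
      exact this.trans (by rw [mul_neg, neg_mul, neg_mul, neg_mul])
    have hp : 0 < 4 * (T.A : ℝ) ^ 3 + 27 * (T.B : ℝ) ^ 2 := by
      rw [hD]
      have := neg_pos.2 hΔ'
      positivity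
    obtain ⟨x, y, hx, hy⟩ := REALx.big T.A T.B (3 * T.b * T.d)
    obtain ⟨U, hU, rfl, rfl⟩ := exists_pt (A := T.A) (B := T.B) (L := ℝ) (fun h0 => by
      have h3 : ((4 * T.A ^ 3 + 27 * T.B ^ 2 : 𝓞 L) : ℝ) = 0 := by rw [h0]; push_cast; rfl
      push_cast at h3
      exact hp.ne' h3) hy
    obtain ⟨Z, hZ⟩ := hHALF T.A T.B (U - bc ℝ Q) hp
    obtain ⟨h', e⟩ := eq_some hU
    refine ⟨Z, X U, Y U, h', by rw [hZ, add_sub_cancel, ← e], ?_⟩
    exact (Tw.ev_F U).trans_lt (mul_neg_of_neg_of_pos ha (sub_pos.2 hx))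
  · have h3 : σ T.θ = -t := by
      have h4 : σ T.θ ^ 2 = t ^ 2 := by
        rw [ht, ← map_pow, Tw.θ_sq (M := L) hT.sq, map_intCast]
      exact (sq_eq_sq_iff_eq_or_eq_neg.1 h4).resolve_left fun h5 => hσ (e2 ℝ σ s (h5.trans hs.symm))
    set φ := σ.comp (algebraMap (𝓞 L) L) with hφ
    have h4 : φ T.θ = -t := h3
    have h5 : dsc (φ T.a) (φ T.b) (φ T.b') (φ T.a') = T.Δ := by
      rw [← map_intCast φ, ← Tw.Δ_eq hT.sq]; simp [dsc, map_ofNat]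
    have h6 := REALx.oth hPOS (a := φ T.a) (b := φ T.b) (b' := φ T.b') (a' := φ T.a') (d := T.d)
      (x := x) (y := y) (by simpa [Tw.a, h4, sub_eq_add_neg] using h2)
      (by simpa [Tw.a', h4] using h1) (h5 ▸ hΔ') (by
        change y ^ 2 = x ^ 3 + φ T.A * x + φ T.B at h
        simpa [Tw.A, Tw.B, map_ofNat] using h)
    rw [Tw.F, MvPolynomial.eval₂_mul, MvPolynomial.eval₂_sub, MvPolynomial.eval₂_C,
      MvPolynomial.eval₂_C, MvPolynomial.eval₂_X]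
    simpa [map_ofNat] using h6

end Pool.Agent.P.MP_ab3ecb_nt.TS
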