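import Pool.Agent.P.MP_ab3ecb_nt.TS.Iface
import Pool.Agent.P.MP_ab3ecb_nt.TP.Rat

/-! Step RSQ. -/

set_option autoImplicit false
set_option linter.unusedSectionVars false

namespace Pool.Agent.P.MP_ab3ecb_nt.TS

open Filter Topology NumberField Pool.Agent.P.MP_ab3ecb_nt.TK
open Pool.Agent.P.MP_8b7eba_nt.R2 hiding Sm E1
open scoped Classical NNReal

namespace RSQx

lemma key {K : Type} [Field K] [CharZero K] (q : ℚ) :
    ((q.num * q.den : ℤ) : K) = (q : K) * ((q.den : K) * q.den) := by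
  have h : (q.den : K) ≠ 0 := by exact_mod_cast q.den_nz
  rw [Rat.cast_def]
  push_cast
  field_simp

end RSQx

theorem p_RSQ :
    S_RSQ := by
  intro q S hS h
  obtain ⟨R, h0, -, -⟩ := TP.exists_pt (A := 0) (B := 1) (L := ℚ) (by norm_num) (x := 0) (y := 1)
    (by norm_num)
  have h1 := TP.rat_sq (MvPolynomial.C (q.num * q.den)) hS h0 (fun r => by
    rw [TP.ev, MvPolynomial.aeval_C, eq_intCast, RSQx.key]
    exact (h r).mul ⟨_, rfl⟩)
  rw [TP.ev, MvPolynomial.aeval_C, eq_intCast, RSQx.key] at h1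
  obtain ⟨s, hs⟩ := h1
  have hd : (q.den : ℚ) ≠ 0 := by exact_mod_cast q.den_nz
  refine ⟨s / q.den, ?_⟩
  rw [Rat.cast_id] at hs
  field_simp
  linear_combination hs

end Pool.Agent.P.MP_ab3ecb_nt.TS
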