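import Pool.Agent.P.MP_ab3ecb_nt.TS.Iface

/-! Step SC. -/

set_option autoImplicit false
set_option linter.unusedSectionVars false

namespace Pool.Agent.P.MP_ab3ecb_nt.TS

open Filter Topology NumberField Pool.Agent.P.MP_ab3ecb_nt.TK
open Pool.Agent.P.MP_8b7eba_nt.R2 hiding Sm E1
open scoped Classical NNReal

theorem p_SC :
    S_SC := by
  intro R R' _ _ A B A' B' L L' _ _ _ _ _ _ φ δ hd hA hB
  have ex : ∀ P : Pt A B L, ∃ Q : Pt A' B' L', (Q = 0 ↔ P = 0) ∧ X Q * δ ^ 2 = φ (X P) ∧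
      Y Q * δ ^ 3 = φ (Y P) := fun P => by
    by_cases h : P = 0
    · exact ⟨0, by simp [h], by simp [h], by simp [h]⟩
    refine ⟨.some (φ (X P) / δ ^ 2) (φ (Y P) / δ ^ 3) ((ns_iff _ _).2 ⟨?_, ?_⟩),
      iff_of_false (WeierstrassCurve.Affine.Point.some_ne_zero _) h,
      div_mul_cancel₀ _ (pow_ne_zero _ hd), div_mul_cancel₀ _ (pow_ne_zero _ hd)⟩
    · have := congrArg φ (eqn h)
      simp only [map_add, map_mul, map_pow, hA, hB] at this
      field_simp
      linear_combination this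
    · refine (nsing h).imp (fun h1 h2 => h1 (φ.injective ?_)) fun h1 h2 => h1 (φ.injective ?_)
      · simp only [map_add, map_mul, map_pow, hA, map_ofNat, map_zero]
        field_simp at h2
        linear_combination h2
      · simp only [map_mul, map_ofNat, map_zero]
        field_simp at h2
        linear_combination h2
  choose f f0 fx fy using ex
  have uq : ∀ P Q, (Q = 0 ↔ P = 0) → X Q * δ ^ 2 = φ (X P) → Y Q * δ ^ 3 = φ (Y P) → f P = Q :=
    fun P Q h0 hx hy => by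
    by_cases h : P = 0
    · rw [(f0 P).2 h, h0.2 h]
    · exact pt_ext (mt (f0 P).1 h) (mt h0.1 h)
        (mul_right_cancel₀ (pow_ne_zero 2 hd) ((fx P).trans hx.symm))
        (mul_right_cancel₀ (pow_ne_zero 3 hd) ((fy P).trans hy.symm))
  have ng : ∀ P, f (-P) = -f P := fun P => uq _ _ (by rw [neg_eq_zero, neg_eq_zero, f0])
    (by rw [X_neg, X_neg, fx]) (by rw [Y_neg, Y_neg, map_neg, neg_mul, fy])
  refine ⟨AddMonoidHom.mk' f fun P Q => ?_, fun P => ⟨f0 P, fx P, fy P⟩⟩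
  by_cases hP : P = 0
  · rw [(f0 P).2 hP, hP, zero_add, zero_add]
  by_cases hQ : Q = 0
  · rw [(f0 Q).2 hQ, hQ, add_zero, add_zero]
  by_cases h : P + Q = 0
  · rw [(f0 _).2 h, eq_neg_of_add_eq_zero_left h, ng, neg_add_cancel]
  have nn : X P = X Q → Y P = -Y Q → False := fun hx hy => h (add_eq_zero_iff_eq_neg.2
    (pt_ext hP (neg_ne_zero.2 hQ) (by rwa [X_neg]) (by rwa [Y_neg])))
  have hs : f P + f Q ≠ 0 := fun hs => by
    have e := eq_neg_of_add_eq_zero_left hs
    refine nn (φ.injective ?_) (φ.injective ?_)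
    · rw [← fx, ← fx, e, X_neg]
    · rw [map_neg, ← fy, ← fy, e, Y_neg, neg_mul]
  obtain ⟨l, a1, a2, a3, a4⟩ := add_spec hP hQ h
  obtain ⟨m, b1, b2, b3, b4⟩ := add_spec (mt (f0 P).1 hP) (mt (f0 Q).1 hQ) hs
  replace a1 := congrArg φ a1
  replace a2 := congrArg φ a2
  replace a3 := congrArg φ a3
  replace a4 := congrArg φ a4
  simp only [map_add, map_sub, map_mul, map_pow, map_neg, hA] at a1 a2 a3 a4
  have k : φ l = m * δ := by
    by_contra k
    refine nn (φ.injective ?_) (φ.injective ?_)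
    · refine sub_eq_zero.1 (mul_left_cancel₀ (sub_ne_zero.2 k) ?_)
      rw [← fx, ← fx, ← fy, ← fy] at a3
      rw [← fx, ← fx]
      linear_combination a3 - δ ^ 3 * b3
    · rw [map_neg]
      refine sub_eq_zero.1 (mul_left_cancel₀ (sub_ne_zero.2 k) ?_)
      rw [← fx, ← fx, ← fy, ← fy] at a4
      rw [← fy, ← fy]
      linear_combination a4 - δ ^ 4 * b4
  have c : X (f P + f Q) * δ ^ 2 = φ (X (P + Q)) := by
    rw [a1, b1, k, ← fx, ← fx]; ring
  refine uq _ _ (iff_of_false hs h) c ?_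
  rw [a2, b2, k, ← c, ← fx, ← fy]; ring

end Pool.Agent.P.MP_ab3ecb_nt.TS
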