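import Pool.Agent.P.MP_ab3ecb_nt.TS.Iface

/-! Step SQG. -/

set_option autoImplicit false
set_option linter.unusedSectionVars false

namespace Pool.Agent.P.MP_ab3ecb_nt.TS

open Filter Topology NumberField Pool.Agent.P.MP_ab3ecb_nt.TK
open Pool.Agent.P.MP_8b7eba_nt.R2 hiding Sm E1
open scoped Classical NNReal

namespace SQGx

theorem cl (hCL : S_CL) (hEVC : S_EVC) {R : Type} [CommRing R] [Algebra.IsIntegral ℤ R] {A B : R}
    (F : MvPolynomial (Fin 2) R) {L : Type} [Field L] [Algebra R L] (v : Valuation L ℝ≥0)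
    {P Q : Pt A B L} (h0 : P ≠ 0) (hX : v (X P) ≤ 1) (h : E1 v (Q - P)) :
    Q ≠ 0 ∧ v (X Q) ≤ 1 ∧ v (ev F Q - ev F P) < 1 := by
  have z := h.Z_lt
  obtain ⟨b1, b2, b3⟩ := hCL A B L ℝ≥0 v 1 P _ h0 le_rfl hX h (by simpa using z.le)
  rw [add_sub_cancel] at b1 b2 b3
  rw [one_pow, mul_one] at b2 b3
  have b4 : v (X Q) ≤ 1 := by simpa using v.map_add_le (b2.trans z.le) hX
  exact ⟨b1, b4, (hEVC A B F).1 L ℝ≥0 v _ _ b4 hX (b2.trans_lt z) (b3.trans_lt z)⟩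

end SQGx

theorem p_SQG (hCL : S_CL) (hEVC : S_EVC) :
    S_SQG := by
  intro K _ _ _ A B F r ι w U R Q b hL hp hU hR hX hF h1 h2 hsq
  obtain ⟨a1, a2, a3⟩ := SQGx.cl hCL hEVC F w.v hR hX h1
  obtain ⟨b1, -, b3⟩ := SQGx.cl hCL hEVC F (vv ι) (P := bc (Via ι) Q) (Q := b)
    (fun e => a1 (bc_eq_zero.2 (bc_eq_zero.1 e))) (by rw [X_bc, ← hL.2, ← X_bc]; exact a2)
    (by rw [← neg_sub]; exact h2.neg)
  obtain ⟨η, hη⟩ := hsq b1
  have b5 : w.v (algebraMap K Om η ^ 2 - ev F (rt Q)) < 1 := by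
    have := (vv ι).map_sub_lt b3 hη
    rw [sub_sub_sub_cancel_left, ev_bc, ← map_pow, ← map_sub, ← hL.2, map_sub, map_pow,
      ← ev_bc] at this
    exact this
  have hn : Fix (w.D ⊓ U) (algebraMap K Om η) := fix_K (inf_le_right.trans hU.1) η
  generalize algebraMap K Om η = n at b5 hn
  have b6 : w.v (n ^ 2 - ev F R) < 1 := by
    have := w.v.map_add_lt b5 a3
    rwa [sub_add_sub_cancel] at this
  have b7 : w.v n = 1 := by
    have := w.v.map_add_eq_of_lt_right (x := n ^ 2 - ev F R) (y := ev F R) (hF ▸ b6)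
    rw [sub_add_cancel, hF, map_pow] at this
    exact (pow_eq_one_iff_of_nonneg zero_le two_ne_zero).1 this
  obtain ⟨y, y1, y2, -⟩ := (a_HENS w (w.D ⊓ U) inf_le_left).2 1 0 (-ev F R) n fix_one fix_zero
    ((hU.ev F).mono inf_le_right).neg hn (by simp) b7.le
    (by simp [b7, Pl.v_two hp]) (by simpa [sub_eq_add_neg] using b6)
  exact ⟨y, y1, by linear_combination -y2⟩

end Pool.Agent.P.MP_ab3ecb_nt.TS
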