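import Pool.Agent.P.MP_ab3ecb_nt.TS.Iface

/-! Step UNI. -/

set_option autoImplicit false
set_option linter.unusedSectionVars false

namespace Pool.Agent.P.MP_ab3ecb_nt.TS

open Filter Topology NumberField Pool.Agent.P.MP_ab3ecb_nt.TK
open Pool.Agent.P.MP_8b7eba_nt.R2 hiding Sm E1
open scoped Classical NNReal

namespace UNIx

lemma dom {M : Type} [Field M] (v : Valuation M ℝ≥0) {a b b' a' α β : M} (ha : v a ≤ 1)
    (hb : v b ≤ 1) (hb' : v b' ≤ 1) (ha' : v a' = 1) (h : v α < v β) :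
    v (a * α ^ 6 + b * α ^ 4 * β ^ 2 + b' * α ^ 2 * β ^ 4 + a' * β ^ 6) = v β ^ 6 := by
  have h0 : 0 < v β := lt_of_le_of_lt zero_le h
  have e : v (a' * β ^ 6) = v β ^ 6 := by rw [map_mul, ha', one_mul, map_pow]
  rw [v.map_add_eq_of_lt_right, e]
  rw [e]
  refine v.map_add_lt (v.map_add_lt ?_ ?_) ?_
  · exact (vi ha (vp le_rfl 6)).trans_lt (pow_lt_pow_left₀ h zero_le (by norm_num))
  · refine (vm (vi hb (vp le_rfl 4)) (vp le_rfl 2)).trans_lt ?_
    rw [show v β ^ 6 = v β ^ 4 * v β ^ 2 by ring]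
    exact mul_lt_mul_of_pos_right (pow_lt_pow_left₀ h zero_le (by norm_num)) (pow_pos h0 2)
  · refine (vm (vi hb' (vp le_rfl 2)) (vp le_rfl 4)).trans_lt ?_
    rw [show v β ^ 6 = v β ^ 2 * v β ^ 4 by ring]
    exact mul_lt_mul_of_pos_right (pow_lt_pow_left₀ h zero_le (by norm_num)) (pow_pos h0 4)

lemma val {L : Type} [Field L] {r : Nat.Primes} (ι : L →+* PadicAlgCl r.1) {t : ℚ_[r.1]}
    (ht : t ≠ 0) : ∃ k : ℤ, vv ι (algebraMap _ _ t) = ((r.1 : ℕ) : ℝ≥0) ^ k := by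
  refine ⟨-t.valuation, NNReal.coe_injective ?_⟩
  rw [NormedField.valuation_apply, coe_nnnorm, norm_via, Padic.norm_eq_zpow_neg_valuation ht]
  simp

end UNIx

theorem p_UNI :
    S_UNI := by
  intro L _ r ι d x y z a b b' a' θ α β h2 hd hd2 ha hb hb' ha' hθ hxz hα hβ he
  have hq : (1 : ℝ≥0) < ((r.1 : ℕ) : ℝ≥0) := by exact_mod_cast r.2.one_lt
  have hq0 : (0 : ℝ≥0) < ((r.1 : ℕ) : ℝ≥0) := zero_lt_one.trans hq
  have v2 : vv ι 2 = 1 := by
    have h : ¬ (r.1 : ℤ) ∣ 2 := fun h =>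
      h2 ((Nat.prime_dvd_prime_iff_eq r.2 Nat.prime_two).1 (by exact_mod_cast h))
    simpa using vv_int ι h
  have vd : vv ι d = vv ι (r.1 : ℕ) := by
    obtain ⟨d', rfl⟩ := hd
    have h : ¬ (r.1 : ℤ) ∣ d' := fun h => hd2 (by rw [sq]; exact mul_dvd_mul_left _ h)
    rw [Int.cast_mul, map_mul, vv_int ι h, mul_one, Int.cast_natCast]
  have hm : max (vv ι α) (vv ι β) =
      max (vv ι (algebraMap _ _ x)) (vv ι (algebraMap _ _ z)) := by
    apply le_antisymm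
    · refine max_le ?_ ?_
      · rw [hα]; exact (vv ι).map_sub_le (le_max_left _ _) (vi hθ.le (le_max_right _ _))
      · rw [hβ]; exact (vv ι).map_add_le (le_max_left _ _) (vi hθ.le (le_max_right _ _))
    · refine max_le ?_ ?_
      · have h := (vv ι).map_add α β
        rwa [show α + β = 2 * algebraMap _ _ x by rw [hα, hβ]; ring, map_mul, v2, one_mul] at h
      · have h := (vv ι).map_sub β α
        rwa [show β - α = 2 * (θ * algebraMap _ _ z) by rw [hα, hβ]; ring, map_mul, v2, one_mul,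
          map_mul, hθ, one_mul, max_comm] at h
  obtain ⟨j, hj⟩ : ∃ j : ℤ, max (vv ι α) (vv ι β) = ((r.1 : ℕ) : ℝ≥0) ^ j := by
    rw [hm]
    by_cases hx : x = 0
    · obtain ⟨k, hk⟩ := UNIx.val ι (hxz.resolve_left (not_not.2 hx))
      exact ⟨k, by rw [hx, map_zero, map_zero, hk, max_eq_right zero_le]⟩
    by_cases hz : z = 0
    · obtain ⟨k, hk⟩ := UNIx.val ι hx
      exact ⟨k, by rw [hz, map_zero, map_zero, hk, max_eq_left zero_le]⟩
    rcases le_total (vv ι (algebraMap _ _ x)) (vv ι (algebraMap _ _ z)) with h | h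
    · rw [max_eq_right h]; exact UNIx.val ι hz
    · rw [max_eq_left h]; exact UNIx.val ι hx
  have hL : vv ι (d * algebraMap _ _ y ^ 2) =
      ((r.1 : ℕ) : ℝ≥0)⁻¹ * vv ι (algebraMap _ _ y) ^ 2 := by
    rw [map_mul, map_pow, vd, vv_p]
  have hk : y ≠ 0 → ∃ k : ℤ, vv ι (algebraMap _ _ y) = ((r.1 : ℕ) : ℝ≥0) ^ k ∧
      vv ι (d * algebraMap _ _ y ^ 2) = ((r.1 : ℕ) : ℝ≥0) ^ (2 * k - 1) := fun hy => by
    obtain ⟨k, hk⟩ := UNIx.val ι hy
    refine ⟨k, hk, ?_⟩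
    rw [hL, hk, zpow_sub_one₀ hq0.ne', mul_comm 2 k, zpow_mul, mul_comm]
    norm_cast
  have h6 : (((r.1 : ℕ) : ℝ≥0) ^ j) ^ 6 = ((r.1 : ℕ) : ℝ≥0) ^ (j * 6) := by
    rw [zpow_mul]; norm_cast
  have hne : vv ι (d * algebraMap _ _ y ^ 2) ≠ (((r.1 : ℕ) : ℝ≥0) ^ j) ^ 6 := fun h => by
    by_cases hy : y = 0
    · rw [hy, map_zero, zero_pow two_ne_zero, mul_zero, map_zero] at h
      exact (pow_pos (zpow_pos hq0 j) 6).ne h
    · obtain ⟨k, -, h1⟩ := hk hy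
      rw [h1, h6] at h
      have := zpow_right_injective₀ hq0 hq.ne' h
      omega
  have hab : vv ι α = vv ι β := by
    rcases lt_trichotomy (vv ι α) (vv ι β) with h | h | h
    · exact absurd (by rw [he, UNIx.dom _ ha.le hb hb' ha' h, ← hj, max_eq_right h.le]) hne
    · exact h
    · refine absurd ?_ hne
      rw [he, ← hj, max_eq_left h.le, ← UNIx.dom _ ha'.le hb' hb ha h]
      exact congrArg _ (by ring)
  rw [hab, max_self] at hj
  have hβ0 : vv ι β ≠ 0 := by rw [hj]; exact (zpow_pos hq0 j).ne'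
  have hle : vv ι (d * algebraMap _ _ y ^ 2) ≤ vv ι β ^ 6 := by
    rw [he]
    refine (vv ι).map_add_le ((vv ι).map_add_le ((vv ι).map_add_le ?_ ?_) ?_) ?_
    · exact vi ha.le (vp hab.le 6)
    · exact (vm (vi hb (vp hab.le 4)) (vp le_rfl 2)).trans_eq (by ring)
    · exact (vm (vi hb' (vp hab.le 2)) (vp le_rfl 4)).trans_eq (by ring)
    · exact vi ha'.le (vp le_rfl 6)
  refine ⟨(vv ι).ne_zero_iff.1 (hab ▸ hβ0), (vv ι).ne_zero_iff.1 hβ0, ?_, ?_, vd⟩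
  · rw [map_div₀, hab, div_self hβ0]
  · rw [map_div₀, map_pow, div_le_one (pow_pos (zero_lt_iff.2 hβ0) 3)]
    by_cases hy : y = 0
    · rw [hy, map_zero, map_zero]; exact zero_le
    · obtain ⟨k, h0, h1⟩ := hk hy
      rw [h1, hj, h6, zpow_le_zpow_iff_right₀ hq] at hle
      have h3 : (((r.1 : ℕ) : ℝ≥0) ^ j) ^ 3 = ((r.1 : ℕ) : ℝ≥0) ^ (j * 3) := by
        rw [zpow_mul]; norm_cast
      rw [h0, hj, h3, zpow_le_zpow_iff_right₀ hq]
      omega

end Pool.Agent.P.MP_ab3ecb_nt.TS
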