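import Pool.Agent.P.MP_ab3ecb_nt.TS.Iface

/-! Step WA. -/

set_option autoImplicit false
set_option linter.unusedSectionVars false

namespace Pool.Agent.P.MP_ab3ecb_nt.TS

open Filter Topology NumberField Pool.Agent.P.MP_ab3ecb_nt.TK
open Pool.Agent.P.MP_8b7eba_nt.R2 hiding Sm E1
open scoped Classical NNReal

namespace WAx

lemma key {L M : Type} [Field L] [Field M] [CharZero L] [CharZero M] [Algebra L M] {T : Tw L}
    {R : Pt T.A T.B L} {s t : ℚ} {x y z : M} (ha : (T.a : L) ≠ 0) (hd : T.d ≠ 0) (hR : R ≠ 0)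
    (he : (X R / (3 * T.d) - T.b) / (3 * T.a) = s + t * T.θ) (h : T.Im x y z (bc M R)) :
    (x - T.θ * z) ^ 2 = (s + t * (T.θ : M)) * (x + T.θ * z) ^ 2 := by
  have e : ∀ a : 𝓞 L, algebraMap L M (a : L) = (a : M) := fun _ => rfl
  have h0 : x + T.θ * z ≠ 0 := fun h0 => hR (bc_eq_zero.1 (h.zero h0))
  have h1 := (h.some h0).2.1
  have h2 := congrArg (algebraMap L M) he
  have ha' : (T.a : M) ≠ 0 := by rw [← e]; exact (map_ne_zero _).2 ha
  have hd' : (T.d : M) ≠ 0 := Int.cast_ne_zero.2 hd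
  rw [X_bc] at h1
  simp only [map_div₀, map_sub, map_mul, map_add, map_ofNat, map_intCast, map_ratCast, e, h1] at h2
  rw [← h2]
  field_simp
  ring

lemma fin {M : Type} [Field M] [CharZero M] {x z s t c θ : M} (hc : θ ^ 2 = c) (h0 : θ ≠ 0)
    (h1 : (x - θ * z) ^ 2 = (s + t * θ) * (x + θ * z) ^ 2)
    (h2 : (x - -θ * z) ^ 2 = (s + t * -θ) * (x + -θ * z) ^ 2) :
    (1 - s) * (x ^ 2 + c * z ^ 2) = c * t * (2 * x * z) ∧
      -t * (x ^ 2 + c * z ^ 2) = (1 + s) * (2 * x * z) := by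
  subst hc
  refine ⟨by linear_combination (h1 + h2) / 2, mul_left_cancel₀ h0 ?_⟩
  linear_combination (h1 - h2) / 2

end WAx

theorem p_WA (hEMB : S_EMB) :
    S_WA := by
  intro L _ _ T R hT hN hd hR
  have ha : (T.a : L) ≠ 0 := fun h0 => hN <| by
    have h1 := congrArg (algebraMap (𝓞 L) L) (Tw.N_eq hT.sq)
    rw [map_mul, map_intCast, show algebraMap (𝓞 L) L T.a = 0 from h0, zero_mul] at h1
    exact_mod_cast h1.symm
  have hc : T.c ≠ 0 := fun h0 => hT.ns (h0 ▸ IsSquare.zero)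
  obtain ⟨s, t, he⟩ := hT.gen ((X R / (3 * T.d) - T.b) / (3 * T.a))
  have main : ∀ (r : Nat.Primes) (x y z : ℚ_[r.1]), (∀ ι : L →+* PadicAlgCl r.1,
      T.Im (algebraMap _ (Via ι) x) (algebraMap _ _ y) (algebraMap _ _ z) (bc _ R)) →
      (1 - s) * (x ^ 2 + T.c * z ^ 2) = T.c * t * (2 * x * z) ∧
        -t * (x ^ 2 + T.c * z ^ 2) = (1 + s) * (2 * x * z) := by
    intro r x y z h
    obtain ⟨θ, hθ⟩ := IsAlgClosed.exists_pow_nat_eq (T.c : PadicAlgCl r.1) two_pos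
    obtain ⟨ι, hι⟩ := (hEMB T hT).1 _ θ hθ
    obtain ⟨ι', hι'⟩ := (hEMB T hT).1 _ (-θ) (by rw [neg_sq, hθ])
    have h0 : θ ≠ 0 := fun h0 => hc <| by
      rw [h0, zero_pow two_ne_zero] at hθ
      exact_mod_cast hθ.symm
    have h1 := WAx.key ha hd hR he (h ι)
    have h2 := WAx.key ha hd hR he (h ι')
    rw [show (T.θ : Via ι) = θ from hι] at h1
    rw [show (T.θ : Via ι') = (-θ : PadicAlgCl r.1) from hι'] at h2
    have h3 := WAx.fin (M := PadicAlgCl r.1) (x := algebraMap _ _ x) (z := algebraMap _ _ z)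
      (s := s) (t := t) hθ h0 h1 h2
    constructor <;> apply (algebraMap ℚ_[r.1] (PadicAlgCl r.1)).injective
    · simpa [map_ofNat] using h3.1
    · simpa [map_ofNat] using h3.2
  by_cases hs : s = 1
  · refine ⟨2, -t, .inl two_ne_zero, fun r x y z h => ?_⟩
    have h1 := (main r x y z h).2
    rw [hs] at h1
    push_cast at h1 ⊢
    linear_combination h1
  · refine ⟨T.c * t, 1 - s, .inr (sub_ne_zero.2 (Ne.symm hs)), fun r x y z h => ?_⟩
    push_cast
    exact (main r x y z h).1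

end Pool.Agent.P.MP_ab3ecb_nt.TS
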