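import Pool.Agent.P.MP_ab3ecb_nt.TS.Iface

/-! Step WB. -/

set_option autoImplicit false
set_option linter.unusedSectionVars false

namespace Pool.Agent.P.MP_ab3ecb_nt.TS

open Filter Topology NumberField Pool.Agent.P.MP_ab3ecb_nt.TK
open Pool.Agent.P.MP_8b7eba_nt.R2 hiding Sm E1
open scoped Classical NNReal

namespace WBx

lemma on {L M : Type} [Field L] [Field M] [CharZero M] (T : Tw L) (hc : T.c ≠ 0) {x z : M}
    (h : T.On x 0 z) {x₁ z₁ : ℚ}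
    (h1 : ∃ t, x = t * x₁ ∧ z = t * z₁ ∨ x = t * (T.c * z₁) ∧ z = t * x₁) : T.On x₁ 0 z₁ := by
  obtain ⟨t, h1⟩ := h1
  obtain ⟨h2, h3⟩ := h
  have hc' : (T.c : M) ≠ 0 := Int.cast_ne_zero.2 hc
  have ht : t ≠ 0 := by
    rintro rfl
    rcases h1 with ⟨rfl, rfl⟩ | ⟨rfl, rfl⟩ <;> simp at h2
  refine ⟨?_, ?_⟩
  · by_contra h0
    rw [not_or, not_not, not_not] at h0
    obtain ⟨rfl, rfl⟩ := h0
    rcases h1 with ⟨rfl, rfl⟩ | ⟨rfl, rfl⟩ <;> simp at h2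
  · apply Rat.cast_injective (α := M)
    simp only [Tw.G] at h3 ⊢
    push_cast
    rcases h1 with ⟨rfl, rfl⟩ | ⟨rfl, rfl⟩
    · apply mul_left_cancel₀ (pow_ne_zero 6 ht)
      linear_combination h3
    · apply mul_left_cancel₀ (mul_ne_zero (pow_ne_zero 6 ht) (pow_ne_zero 3 hc'))
      linear_combination h3

end WBx

theorem p_WB (hRSQ : S_RSQ) :
    S_WB := by
  intro L _ T S r₀ x z m n hc hS hmn hon he
  suffices h : ∃ x₁ z₁ : ℚ,
      ∀ r, ∃ t, x r = t * x₁ ∧ z r = t * z₁ ∨ x r = t * (T.c * z₁) ∧ z r = t * x₁ by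
    obtain ⟨x₁, z₁, h⟩ := h
    exact ⟨x₁, z₁, WBx.on T hc (hon r₀) (h r₀), h⟩
  by_cases hn : n = 0
  · have hm : m ≠ 0 := hmn.resolve_right (not_not.2 hn)
    refine ⟨1, 0, fun r => ?_⟩
    have h1 := he r
    have hm' : (m : ℚ_[r.1.1]) ≠ 0 := Rat.cast_ne_zero.2 hm
    rw [hn, Rat.cast_zero, zero_mul, eq_comm, mul_eq_zero, mul_eq_zero, mul_eq_zero] at h1
    rcases h1 with h1 | (h1 | h1) | h1
    · exact absurd h1 hm'
    · exact absurd h1 two_ne_zero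
    · exact ⟨z r, Or.inr ⟨by simp [h1], by simp⟩⟩
    · exact ⟨x r, Or.inl ⟨by simp, by simp [h1]⟩⟩
  have hz : ∀ r, z r ≠ 0 := fun r h0 => by
    have h1 := he r
    have hn' : (n : ℚ_[r.1.1]) ≠ 0 := Rat.cast_ne_zero.2 hn
    have h2 : x r ≠ 0 := (hon r).1.resolve_right (not_not.2 h0)
    rw [h0] at h1
    simp [hn', h2] at h1
  obtain ⟨k, hk⟩ := hRSQ (m ^ 2 - n ^ 2 * T.c) S hS fun r => ⟨(n * x r - m * z r) / z r, by
    have := hz r
    push_cast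
    field_simp
    linear_combination (-(n : ℚ_[r.1.1])) * he r⟩
  have hmk : m + k ≠ 0 := fun h0 =>
    mul_ne_zero (pow_ne_zero 2 hn) (Int.cast_ne_zero.2 hc) (by linear_combination (m - k) * h0 - hk)
  refine ⟨m + k, n, fun r => ?_⟩
  have hn' : (n : ℚ_[r.1.1]) ≠ 0 := Rat.cast_ne_zero.2 hn
  have hmk' : (m : ℚ_[r.1.1]) + k ≠ 0 := by exact_mod_cast hmk
  have hk' : (m : ℚ_[r.1.1]) ^ 2 - n ^ 2 * T.c = k * k := by exact_mod_cast hk
  have h1 : (n * x r - (m + k) * z r) * (n * x r - (m - k) * z r) = 0 := by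
    linear_combination (n : ℚ_[r.1.1]) * he r + z r ^ 2 * hk'
  push_cast
  rcases mul_eq_zero.1 h1 with h1 | h1
  · refine ⟨z r / n, Or.inl ⟨?_, by field_simp⟩⟩
    field_simp
    linear_combination h1
  · refine ⟨z r / (m + k), Or.inr ⟨?_, by field_simp⟩⟩
    rw [div_mul_eq_mul_div, eq_div_iff hmk']
    apply mul_left_cancel₀ hn'
    linear_combination ((m : ℚ_[r.1.1]) + k) * h1 + z r * hk'

end Pool.Agent.P.MP_ab3ecb_nt.TS
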