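import Pool.Agent.P.MP_ab3ecb_nt.TS.Iface

/-! Step ZW. -/

set_option autoImplicit false
set_option linter.unusedSectionVars false

namespace Pool.Agent.P.MP_ab3ecb_nt.TS

open Filter Topology NumberField Pool.Agent.P.MP_ab3ecb_nt.TK
open Pool.Agent.P.MP_8b7eba_nt.R2 hiding Sm E1
open scoped Classical NNReal

namespace ZWx

variable {L G : Type} [Field L] [LinearOrderedCommGroupWithZero G] {v : Valuation L G}

lemma alg {x1 x2 l n a b y1 y2 x3 y3 : L} (h1 : y1 = l * x1 + n) (h2 : y2 = l * x2 + n)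
    (ha : a = l * (y1 + y2) - (x1 ^ 2 + x1 * x2 + x2 ^ 2)) (hb : b = y1 ^ 2 - x1 ^ 3 - a * x1)
    (h3 : x3 = l ^ 2 - x1 - x2) (h4 : y3 = l * x3 + n) :
    l * (y1 ^ 2 * y2 ^ 2 - a * x1 * y2 * (y1 + y2) - b * (y1 ^ 2 + y1 * y2 + y2 ^ 2)) +
      n * (x1 ^ 2 * y2 ^ 2 + x1 * x2 * y1 * y2 + x2 ^ 2 * y1 ^ 2 + a * y1 ^ 2) = 0 ∧
    y1 * y2 * y3 = n ^ 3 + a * l ^ 2 * n - b * l ^ 3 ∧
    x1 * y2 * y3 + x2 * y1 * y3 + x3 * y1 * y2 = 2 * a * l * n - 3 * b * l ^ 2 := by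
  subst h4 h3 hb ha h2 h1
  refine ⟨by ring, by ring, by ring⟩

lemma gen {x1 x2 x3 y1 y2 y3 m n a b l : L} (hy1 : y1 ≠ 0) (hy2 : y2 ≠ 0) (hn : n ≠ 0)
    (h1 : y1 = m * x1 + n) (h2 : y2 = m * x2 + n) (h3 : -y3 = m * x3 + n) (hl : m = -(l * n))
    (hD : 1 + (a * l ^ 2 + b * l ^ 3) ≠ 0)
    (e2 : y1 * y2 * -y3 = n ^ 3 + a * m ^ 2 * n - b * m ^ 3)
    (e3 : x1 * y2 * -y3 + x2 * y1 * -y3 + x3 * y1 * y2 = 2 * a * m * n - 3 * b * m ^ 2) :
    (x3 / y3 - x1 / y1 - x2 / y2) * (1 + (a * l ^ 2 + b * l ^ 3)) =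
      (1 / y1 - l * (x1 / y1)) * (2 * a * l + 3 * b * l ^ 2) ∧
    1 / y3 - 1 / y2 = l * (x3 / y3 - x2 / y2) - 2 * (1 / y1 - l * (x1 / y1)) := by
  subst hl
  have e4 : y1 * y2 * -y3 = n ^ 3 * (1 + (a * l ^ 2 + b * l ^ 3)) := by rw [e2]; ring
  have hy3 : y3 ≠ 0 := by
    rintro rfl
    exact mul_ne_zero (pow_ne_zero 3 hn) hD (by rw [← e4]; ring)
  have k1 : 1 / y1 - l * (x1 / y1) = 1 / n := by field_simp; linear_combination -h1
  have k2 : 1 / y2 - l * (x2 / y2) = 1 / n := by field_simp; linear_combination -h2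
  have k3 : 1 / y3 - l * (x3 / y3) = -(1 / n) := by field_simp; linear_combination -h3
  refine ⟨?_, by linear_combination k3 - k2 + 2 * k1⟩
  have e6 : (x3 / y3 - x1 / y1 - x2 / y2) * (y1 * y2 * -y3) =
      n ^ 2 * (2 * a * l + 3 * b * l ^ 2) := by
    have e7 : (x3 / y3 - x1 / y1 - x2 / y2) * (y1 * y2 * -y3) =
      -(x1 * y2 * -y3 + x2 * y1 * -y3 + x3 * y1 * y2) := by field_simp; ring
    rw [e7, e3]; ring
  rw [e4] at e6
  rw [k1]
  apply mul_left_cancel₀ (pow_ne_zero 3 hn)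
  rw [mul_left_comm, e6]
  field_simp

variable {R : Type} [CommRing R] [Algebra.IsIntegral ℤ R] {A B : R} [Algebra R L] [DecidableEq L]

lemma v_w {P : Pt A B L} (h : E1 v P) : v (W P) ≤ v (Z P) := by
  have h1 := h.Z_lt
  rcases h with rfl | h
  · simp [W]
  have h0 : v (Y P) ≠ 0 := v.ne_zero_iff.2 (Y_ne h)
  have e : v (W P) = v (Z P) ^ 3 := by
    rw [W, Z, map_div₀, map_div₀, div_pow, ← v_Y h, map_one]
    field_simp
  rw [e]
  simpa using pow_le_pow_right_of_le_one' h1.le (show 1 ≤ 3 by norm_num)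

lemma chart {P : Pt A B L} (h : E1 v P) :
    W P = Z P ^ 3 + A * Z P * W P ^ 2 + B * W P ^ 3 := by
  by_cases h0 : P = 0
  · simp [h0, W]
  have hy := Y_ne (h.resolve_left h0)
  rw [W, Z]
  field_simp
  linear_combination eqn h0

end ZWx

open ZWx in
theorem p_ZW :
    S_ZW := by
  intro R _ _ A B L G _ _ _ _ v P Q hP hQ
  refine ⟨v_w hP, ?_⟩
  have hc : max (v (Z P)) (v (Z Q)) < 1 := max_lt hP.Z_lt hQ.Z_lt
  have hz1 := le_max_left (v (Z P)) (v (Z Q))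
  have hz2 := le_max_right (v (Z P)) (v (Z Q))
  have hw1 := (v_w hP).trans hz1
  have hw2 := (v_w hQ).trans hz2
  generalize max (v (Z P)) (v (Z Q)) = c at hc hz1 hz2 hw1 hw2
  have ha := v_int v (L := L) A
  have hb := v_int v (L := L) B
  have h21 : c ^ 2 ≤ c := by simpa using pow_le_pow_right_of_le_one' hc.le (show 1 ≤ 2 by norm_num)
  have hU : v (1 - (A * (Z P * (W P + W Q)) + B * (W P ^ 2 + W P * W Q + W Q ^ 2))) = 1 := by
    refine v.map_one_sub_of_lt (lt_of_le_of_lt (h21.trans' ?_) hc)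
    refine v.map_add_le (vi ha ?_) (vi hb (v.map_add_le (v.map_add_le (vp hw1 2) ?_) (vp hw2 2)))
    · rw [sq]; exact vm hz1 (v.map_add_le hw1 hw2)
    · rw [sq c]; exact vm hw1 hw2
  have hN : v (Z P ^ 2 + Z P * Z Q + Z Q ^ 2 + A * W Q ^ 2) ≤ c ^ 2 := by
    refine v.map_add_le (v.map_add_le (v.map_add_le (vp hz1 2) ?_) (vp hz2 2)) (vi ha (vp hw2 2))
    rw [sq]; exact vm hz1 hz2
  have hU0 : 1 - (A * (Z P * (W P + W Q)) + B * (W P ^ 2 + W P * W Q + W Q ^ 2)) ≠ 0 :=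
    fun h => by simp [h] at hU
  obtain ⟨l, hl⟩ : ∃ l : L, l * (1 - (A * (Z P * (W P + W Q)) + B * (W P ^ 2 + W P * W Q + W Q ^ 2))) =
      Z P ^ 2 + Z P * Z Q + Z Q ^ 2 + A * W Q ^ 2 := ⟨_, div_mul_cancel₀ _ hU0⟩
  have hv : v l ≤ c := by
    have h3 := congrArg v hl
    rw [map_mul, hU, mul_one] at h3
    exact h3.le.trans (hN.trans h21)
  refine ⟨l, hv.trans_lt hc, hl, ?_⟩
  by_cases h0 : P = 0
  · subst h0; simp [W]
  have c1 := chart hP
  by_cases h1 : Q = 0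
  · subst h1
    have e0 : W (0 : Pt A B L) = 0 := by simp [W]
    have e : W P - l * Z P = 0 := by
      apply mul_right_cancel₀ hU0
      rw [e0, Z_zero] at hl
      rw [e0]
      linear_combination c1 - Z P * hl
    rw [add_zero, e0, Z_zero, e]
    exact ⟨by ring, by linear_combination e⟩
  by_cases h2 : P + Q = 0
  · obtain rfl : Q = -P := eq_neg_of_add_eq_zero_right h2
    have e0 : W (0 : Pt A B L) = 0 := by simp [W]
    have e1 : W (-P) = -W P := by simp [W, inv_neg]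
    have e : W P - l * Z P = 0 := by
      apply mul_right_cancel₀ hU0
      rw [e1, Z_neg] at hl
      rw [e1]
      linear_combination c1 - Z P * hl
    rw [h2, e0, Z_zero, e, e1, Z_neg]
    exact ⟨by ring, by linear_combination e⟩
  have hy := Y_ne (hP.resolve_left h0)
  have hy' := Y_ne (hQ.resolve_left h1)
  obtain ⟨m, a1, a2, a3, a4⟩ := add_spec h0 h1 h2
  have b1 : Y P = m * X P + (Y P - m * X P) := by ring
  have b2 : Y Q = m * X Q + (Y P - m * X P) := by linear_combination a3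
  have b3 : -Y (P + Q) = m * X (P + Q) + (Y P - m * X P) := by rw [a2]; ring
  obtain ⟨e1, e2, e3⟩ := alg (a := (A : L)) (b := (B : L)) b1 b2
    (by linear_combination -a4) (by linear_combination -eqn h0) a1 b3
  generalize Y P - m * X P = n at *
  have hm : m = -(l * n) := by
    apply mul_right_cancel₀ hU0
    rw [neg_mul, mul_right_comm, hl]
    simp only [Z, W]
    field_simp
    linear_combination e1
  have hn : n ≠ 0 := by
    rintro rfl
    rw [mul_zero, neg_zero] at hm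
    exact hy (by rw [b1, hm]; ring)
  have h31 : c ^ 3 ≤ c := by simpa using pow_le_pow_right_of_le_one' hc.le (show 1 ≤ 3 by norm_num)
  have hD : v (1 + (A * l ^ 2 + B * l ^ 3)) = 1 :=
    v.map_one_add_of_lt (lt_of_le_of_lt (v.map_add_le (vi ha ((vp hv 2).trans h21))
      (vi hb ((vp hv 3).trans h31))) hc)
  exact gen hy hy' hn b1 b2 b3 hm (fun h => by simp [h] at hD) e2 e3

end Pool.Agent.P.MP_ab3ecb_nt.TS
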