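import Pool.Agent.P.MP_ab3ecb_nt.TK.All
import Pool.Agent.P.MP_ab3ecb_nt.TS.TSC
import Pool.Agent.P.MP_ab3ecb_nt.TS.TZW
import Pool.Agent.P.MP_ab3ecb_nt.TS.TPM
import Pool.Agent.P.MP_ab3ecb_nt.TS.TNM
import Pool.Agent.P.MP_ab3ecb_nt.TS.TDET
import Pool.Agent.P.MP_ab3ecb_nt.TS.TLOG
import Pool.Agent.P.MP_ab3ecb_nt.TS.TCON
import Pool.Agent.P.MP_ab3ecb_nt.TS.TETA
import Pool.Agent.P.MP_ab3ecb_nt.TS.TEXA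
import Pool.Agent.P.MP_ab3ecb_nt.TS.TEXB
import Pool.Agent.P.MP_ab3ecb_nt.TS.TCHA
import Pool.Agent.P.MP_ab3ecb_nt.TS.TCHB
import Pool.Agent.P.MP_ab3ecb_nt.TS.TCH
import Pool.Agent.P.MP_ab3ecb_nt.TS.TUNI
import Pool.Agent.P.MP_ab3ecb_nt.TS.TEMB
import Pool.Agent.P.MP_ab3ecb_nt.TS.TLK
import Pool.Agent.P.MP_ab3ecb_nt.TS.TSQG
import Pool.Agent.P.MP_ab3ecb_nt.TS.TAPX
import Pool.Agent.P.MP_ab3ecb_nt.TS.TULG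
import Pool.Agent.P.MP_ab3ecb_nt.TS.TCORE
import Pool.Agent.P.MP_ab3ecb_nt.TS.THALF
import Pool.Agent.P.MP_ab3ecb_nt.TS.TPOS
import Pool.Agent.P.MP_ab3ecb_nt.TS.TREAL
import Pool.Agent.P.MP_ab3ecb_nt.TS.TCHP
import Pool.Agent.P.MP_ab3ecb_nt.TS.TID
import Pool.Agent.P.MP_ab3ecb_nt.TS.TRSQ
import Pool.Agent.P.MP_ab3ecb_nt.TS.TWA
import Pool.Agent.P.MP_ab3ecb_nt.TS.TWB
import Pool.Agent.P.MP_ab3ecb_nt.TS.TMAIN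

/-! All steps. -/

namespace Pool.Agent.P.MP_ab3ecb_nt.TS

theorem a_SC : S_SC := @p_SC
theorem a_ZW : S_ZW := @p_ZW
theorem a_PM : S_PM := @p_PM @TK.a_FG @TK.a_MUL @TS.a_ZW
theorem a_NM : S_NM := @p_NM @TK.a_FG @TK.a_MUL @TS.a_PM
theorem a_DET : S_DET := @p_DET @TK.a_FG @TS.a_NM
theorem a_LOG : S_LOG := @p_LOG
theorem a_CON : S_CON := @p_CON
theorem a_ETA : S_ETA := @p_ETA @TS.a_CON
theorem a_EXA : S_EXA := @p_EXA @TS.a_LOG @TS.a_CON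
theorem a_EXB : S_EXB := @p_EXB @TS.a_LOG @TS.a_CON @TS.a_ETA
theorem a_CHA : S_CHA := @p_CHA @TK.a_MUL @TS.a_DET @TS.a_CON @TS.a_EXA @TS.a_EXB
theorem a_CHB : S_CHB := @p_CHB @TK.a_MUL @TS.a_DET @TS.a_CON @TS.a_EXA @TS.a_EXB
theorem a_CH : S_CH := @p_CH @TK.a_MUL @TS.a_ETA @TS.a_CHA @TS.a_CHB
theorem a_UNI : S_UNI := @p_UNI
theorem a_EMB : S_EMB := @p_EMB
theorem a_LK : S_LK := @p_LK
theorem a_SQG : S_SQG := @p_SQG @TK.a_CL @TK.a_EVC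
theorem a_APX : S_APX := @p_APX
theorem a_ULG : S_ULG := @p_ULG @TK.a_TS
theorem a_CORE : S_CORE := @p_CORE @TK.a_MUL @TK.a_FI @TK.a_DIV @TK.a_CMP @TS.a_LK @TS.a_SQG
  @TS.a_ULG @TK.a_KEYB
theorem a_HALF : S_HALF := @p_HALF
theorem a_POS : S_POS := @p_POS
theorem a_REAL : S_REAL := @p_REAL @TS.a_EMB @TS.a_HALF @TS.a_POS
theorem a_CHP : S_CHP := @p_CHP @TK.a_TS @TS.a_SC @TS.a_CH @TS.a_UNI @TS.a_EMB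
theorem a_ID : S_ID := @p_ID @TS.a_EMB
theorem a_RSQ : S_RSQ := @p_RSQ
theorem a_WA : S_WA := @p_WA @TS.a_EMB
theorem a_WB : S_WB := @p_WB @TS.a_RSQ
theorem a_MAIN : S_MAIN := @p_MAIN @TS.a_EMB @TS.a_APX @TS.a_CORE @TS.a_REAL @TS.a_CHP @TS.a_ID
  @TS.a_WA @TS.a_WB

end Pool.Agent.P.MP_ab3ecb_nt.TS
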