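import Pool.Agent.P.MP_ab3ecb_nt.TS.Defs
import Pool.Agent.P.MP_ab3ecb_nt.TK.IfaceC

/-! Notions used in the steps. -/

set_option linter.unusedSectionVars false

namespace Pool.Agent.P.MP_ab3ecb_nt.TS

open Filter Topology NumberField Pool.Agent.P.MP_ab3ecb_nt.TK
open Pool.Agent.P.MP_8b7eba_nt.R2 hiding Sm E1
open scoped Classical NNReal

/-! ### Valuations -/

section

variable {L G : Type} [Field L] [LinearOrderedCommGroupWithZero G] {v : Valuation L G}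

lemma vm {x y : L} {s t : G} (h1 : v x ≤ s) (h2 : v y ≤ t) : v (x * y) ≤ s * t := by
  rw [map_mul]; exact mul_le_mul' h1 h2

lemma vp {x : L} {s : G} (h : v x ≤ s) (n : ℕ) : v (x ^ n) ≤ s ^ n := by
  rw [map_pow]; exact pow_le_pow_left' h n

lemma vi {a x : L} {s : G} (ha : v a ≤ 1) (h : v x ≤ s) : v (a * x) ≤ s := by
  simpa using vm ha h

lemma vi' {a x : L} {s : G} (h : v x ≤ s) (ha : v a ≤ 1) : v (x * a) ≤ s := by
  simpa using vm h ha

lemma v_n (n : ℕ) : v n ≤ 1 := by simpa using v_z v n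

lemma v_of (n : ℕ) [n.AtLeastTwo] : v (ofNat(n) : L) ≤ 1 := v_n n

lemma v_eq_of_sub {x y : L} (h : v (x - y) < v y) : v x = v y := by
  simpa using v.map_add_eq_of_lt_right h

variable (v) in
/-- `x` and `y` agree up to the relative error `c`. -/
def Ap (c : G) (x y : L) : Prop := v (x - y) ≤ v y * c

variable {c : G} {x y z x' y' : L}

lemma Ap.refl (c : G) (x : L) : Ap v c x x := by simp [Ap]

lemma Ap.mono {c' : G} (h : Ap v c x y) (h' : c ≤ c') : Ap v c' x y :=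
  h.trans (mul_le_mul_right h' _)

lemma Ap.v_eq (hc : c < 1) (h : Ap v c x y) : v x = v y := by
  by_cases h0 : v y = 0
  · have h1 : v (x - y) = 0 := by simpa [Ap, h0] using h
    rw [sub_eq_zero.1 (v.zero_iff.1 h1)]
  · exact v_eq_of_sub (h.trans_lt (mul_lt_of_lt_one_right (zero_lt_iff.2 h0) hc))

lemma Ap.symm (hc : c < 1) (h : Ap v c x y) : Ap v c y x := by
  rw [Ap, v.map_sub_swap, h.v_eq hc]; exact h

lemma Ap.tr (hc : c < 1) (h : Ap v c x y) (h' : Ap v c y z) : Ap v c x z := by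
  rw [Ap, ← sub_add_sub_cancel x y z]
  exact v.map_add_le (by rw [← h'.v_eq hc]; exact h) h'

lemma Ap.mul (hc : c < 1) (h : Ap v c x y) (h' : Ap v c x' y') : Ap v c (x * x') (y * y') := by
  rw [Ap, show x * x' - y * y' = (x - y) * x' + y * (x' - y') by ring, map_mul]
  refine v.map_add_le ?_ ?_
  · rw [mul_right_comm]; exact vm h (h'.v_eq hc).le
  · rw [mul_assoc]; exact vm le_rfl h'

lemma Ap.cancel (hz : z ≠ 0) (h : Ap v c (z * x) (z * y)) : Ap v c x y := by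
  rw [Ap, ← mul_sub, map_mul, map_mul, mul_assoc] at h
  exact le_of_mul_le_mul_left h (zero_lt_iff.2 (v.ne_zero_iff.2 hz))

lemma Ap.ne (hc : c < 1) (h : Ap v c x y) (hy : y ≠ 0) : x ≠ 0 := by
  rw [← v.ne_zero_iff, h.v_eq hc, v.ne_zero_iff]; exact hy

end

/-! ### The curves -/

section

variable {R : Type} [CommRing R]

/-- The second parameter at infinity. -/
def W {A B : R} {L : Type} [Field L] [Algebra R L] (P : Pt A B L) : L := 1 / Y P

/-- The coefficients of the short model of `V ^ 2 = a u ^ 3 + b u ^ 2 + b' u + a'`. -/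
def cA (a b b' : R) : R := 27 * (3 * a * b' - b ^ 2)

def cB (a b b' a' : R) : R := 27 * (2 * b ^ 3 - 9 * a * b * b' + 27 * a ^ 2 * a')

/-- The discriminant of the cubic. -/
def dsc (a b b' a' : R) : R :=
  b ^ 2 * b' ^ 2 - 4 * a * b' ^ 3 - 4 * a' * b ^ 3 - 27 * a ^ 2 * a' ^ 2 + 18 * a * a' * b * b'

lemma dsc_symm (a b b' a' : R) : dsc a' b' b a = dsc a b b' a' := by rw [dsc, dsc]; ring

lemma disc_c (a b b' a' : R) :
    4 * cA a b b' ^ 3 + 27 * cB a b b' a' ^ 2 = -3 ^ 12 * a ^ 2 * dsc a b b' a' := by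
  rw [cA, cB, dsc]; ring

/-- The points of the short model. -/
abbrev Ec (a b b' a' : R) (M : Type) [Field M] [Algebra R M] : Type :=
  Pt (cA a b b') (cB a b b' a') M

variable {M : Type} [Field M]

/-- The first and the second derivative of the cubic. -/
def g1 (a b b' u : M) : M := 3 * a * u ^ 2 + 2 * b * u + b'

def g2 (a b u : M) : M := 6 * a * u + 2 * b

/-- The constants of the expansions at the point with coordinate `x`. -/
def kp (a b b' x : M) : M := g2 a b (x ^ 2) / (3 * g1 a b b' (x ^ 2) ^ 2)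

def km (b b' a' x : M) : M := g2 a' b' (1 / x ^ 2) / (3 * g1 a' b' b (1 / x ^ 2) ^ 2 * x ^ 6)

def k3 (a b b' x : M) : M := 3 / (2 * x ^ 2 * g1 a b b' (x ^ 2))

variable [Algebra R M] (v : Valuation M ℝ≥0)

/-- Good reduction of the untwisted curve. -/
structure Gd (a b b' a' : R) : Prop where
  two : v 2 = 1
  three : v 3 = 1
  ha : v (a : M) = 1
  ha' : v (a' : M) = 1
  hd : v ((dsc a b b' a' : R) : M) = 1

/-- A point of the curve of genus two near a branch point, with its images on the two elliptic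
curves. -/
structure HP (a b b' a' : R) (r : ℝ≥0) (x y : M) (P : Ec a b b' a' M) (U : Ec a' b' b a M) :
    Prop where
  eq : y ^ 2 = a * x ^ 6 + b * x ^ 4 + b' * x ^ 2 + a'
  vx : v x = 1
  vy : v y ≤ r
  P0 : P ≠ 0
  PX : X P = 9 * a * x ^ 2 + 3 * b
  PY : Y P = 27 * a * y
  U0 : U ≠ 0
  UX : X U = 9 * a' * (1 / x ^ 2) + 3 * b'
  UY : Y U = 27 * a' * (y / x ^ 3)

variable {v}

lemma HP.neg {a b b' a' : R} {r : ℝ≥0} {x y : M} {P : Ec a b b' a' M} {U : Ec a' b' b a M}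
    (h : HP v a b b' a' r x y P U) : HP v a b b' a' r x (-y) (-P) (-U) :=
  ⟨by rw [neg_sq, h.eq], h.vx, by rw [v.map_neg]; exact h.vy, neg_ne_zero.2 h.P0,
    by rw [X_neg, h.PX], by rw [Y_neg, h.PY]; ring, neg_ne_zero.2 h.U0, by rw [X_neg, h.UX],
    by rw [Y_neg, h.UY]; ring⟩

lemma HP.mono {a b b' a' : R} {r r' : ℝ≥0} {x y : M} {P : Ec a b b' a' M} {U : Ec a' b' b a M}
    (h : HP v a b b' a' r x y P U) (h' : v y ≤ r') : HP v a b b' a' r' x y P U :=
  ⟨h.eq, h.vx, h', h.P0, h.PX, h.PY, h.U0, h.UX, h.UY⟩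

/-- The group has rank at most one. -/
def Rk (Γ : Type) [AddCommGroup Γ] : Prop :=
  ∀ Q Q' : Γ, ∃ i j : ℤ, (i ≠ 0 ∨ j ≠ 0) ∧ i • Q = j • Q'

variable (v) in
/-- The pair of points is a limit of images of elements of the group. -/
def Cl {A B A' B' : R} {Γ : Type} [AddCommGroup Γ] (j : Γ →+ Pt A B M) (j' : Γ →+ Pt A' B' M)
    (P : Pt A B M) (U : Pt A' B' M) : Prop :=
  ∀ c : ℝ≥0, 0 < c → ∃ Q : Γ, Sm v c (j Q - P) ∧ Sm v c (j' Q - U)

section

variable {A B A' B' : R} {Γ : Type} [AddCommGroup Γ] {j : Γ →+ Pt A B M} {j' : Γ →+ Pt A' B' M}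
  {P P' : Pt A B M} {U U' : Pt A' B' M} [Algebra.IsIntegral ℤ R]

lemma Cl.neg (h : Cl v j j' P U) : Cl v j j' (-P) (-U) := fun c hc => by
  obtain ⟨Q, h1, h2⟩ := h c hc
  exact ⟨-Q, by rw [map_neg, ← neg_sub']; exact h1.neg, by rw [map_neg, ← neg_sub']; exact h2.neg⟩

lemma Cl.sub (hMUL : S_MUL) (h : Cl v j j' P U) (h' : Cl v j j' P' U') :
    Cl v j j' (P - P') (U - U') := fun c hc => by
  obtain ⟨Q, h1, h2⟩ := h c hc
  obtain ⟨Q', h3, h4⟩ := h'.neg c hc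
  refine ⟨Q + Q', ?_, ?_⟩
  · rw [map_add, sub_eq_add_neg P, ← sub_add_sub_comm]
    exact (hMUL A B M ℝ≥0 v).1 c _ _ h1 h3
  · rw [map_add, sub_eq_add_neg U, ← sub_add_sub_comm]
    exact (hMUL A' B' M ℝ≥0 v).1 c _ _ h2 h4

lemma cl_self (Q : Γ) : Cl v j j' (j Q) (j' Q) := fun c _ =>
  ⟨Q, by rw [sub_self]; exact sm_zero c, by rw [sub_self]; exact sm_zero c⟩

end

lemma rk_of {Γ : Type} [AddCommGroup Γ] (h : ∃ P : Γ, (AddSubgroup.zmultiples P).FiniteIndex) :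
    Rk Γ := fun Q Q' => by
  obtain ⟨P, hP⟩ := h
  obtain ⟨j, hj⟩ := (AddSubgroup.zmultiples P).nsmul_index_mem Q
  obtain ⟨j', hj'⟩ := (AddSubgroup.zmultiples P).nsmul_index_mem Q'
  have h0 : ((AddSubgroup.zmultiples P).index : ℤ) ≠ 0 := by exact_mod_cast hP.index_ne_zero
  beta_reduce at hj hj'
  rw [← natCast_zsmul] at hj hj'
  by_cases e : j' = 0
  · exact ⟨0, _, .inr h0, by rw [← hj', e, zero_smul, zero_smul]⟩
  · exact ⟨j' * _, j * _, .inl (mul_ne_zero e h0), by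
      rw [mul_smul, mul_smul, ← hj, ← hj', smul_comm]⟩

lemma two_smul_of_Y {A B : R} {P : Pt A B M} (h : Y P = 0) : 2 • P = 0 := by
  by_cases h0 : P = 0
  · rw [h0, smul_zero]
  · rw [two_nsmul, add_eq_zero_iff_eq_neg]
    exact pt_ext h0 (neg_ne_zero.2 h0) (X_neg P).symm (by rw [Y_neg, h, neg_zero])

lemma big_iff {A B : R} {M : Type} [NormedField M] [Algebra R M] (N : ℝ) (P : Pt A B M) :
    Big N P ↔ P = 0 ∨ N ≤ ‖X P‖ := by
  rcases P with _ | ⟨x, y, h⟩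
  · exact iff_of_true trivial (.inl rfl)
  · exact ⟨.inr, fun h1 => h1.resolve_left (WeierstrassCurve.Affine.Point.some_ne_zero h)⟩

end

/-! ### The local fields -/

section

variable {L : Type} [Field L] {r : Nat.Primes} (ι : L →+* PadicAlgCl r.1)

instance : IsUltrametricDist (Via ι) := inferInstanceAs (IsUltrametricDist (PadicAlgCl r.1))

instance : CharZero (Via ι) := inferInstanceAs (CharZero (PadicAlgCl r.1))

instance : IsAlgClosed (Via ι) := inferInstanceAs (IsAlgClosed (PadicAlgCl r.1))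

/-- The valuation of the local field. -/
noncomputable abbrev vv : Valuation (Via ι) ℝ≥0 := NormedField.valuation (K := Via ι)

lemma norm_via (x : ℚ_[r.1]) : ‖algebraMap ℚ_[r.1] (Via ι) x‖ = ‖x‖ :=
  PadicAlgCl.norm_extends r.1 x

lemma vv_p : vv ι (r.1 : ℕ) = ((r.1 : ℕ) : ℝ≥0)⁻¹ := by
  rw [← one_div]; exact PadicAlgCl.valuation_p r.1

lemma vv_p_lt : vv ι (r.1 : ℕ) < 1 := by
  rw [vv_p]; exact inv_lt_one_of_one_lt₀ (by exact_mod_cast r.2.one_lt)

lemma vv_int {n : ℤ} (h : ¬ (r.1 : ℤ) ∣ n) : vv ι n = 1 := by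
  apply NNReal.coe_injective
  rw [NormedField.valuation_apply, coe_nnnorm, ← map_intCast (algebraMap ℚ_[r.1] (Via ι)), norm_via]
  exact le_antisymm (Padic.norm_int_le_one _)
    (not_lt.1 fun h2 => h (Padic.norm_intCast_lt_one_iff.1 h2))

lemma exists_sq (x : Via ι) : ∃ t : Via ι, t ^ 2 = x := IsAlgClosed.exists_pow_nat_eq x two_pos

/-- The place `w` of the algebraic numbers induces the same valuation on `L` as `ι`. -/
def Lk [Algebra L Om] (w : Pl) : Prop :=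
  w.p = r.1 ∧ ∀ x : L, w.v (algebraMap L Om x) = vv ι (algebraMap L (Via ι) x)

variable {ι}

lemma Lk.sm [Algebra L Om] {w : Pl} (h : Lk ι w) {A B : 𝓞 L} (c : ℝ≥0) (P : Pt A B L) :
    Sm w.v c (rt P) ↔ Sm (vv ι) c (bc (Via ι) P) := by
  simp only [Sm, E1, Z, X_bc, Y_bc, bc_eq_zero, ← map_div₀, h.2]

end

/-! ### The twist -/

/-- The field is generated by a square root of the integer `c`, which is not a square. -/
structure Tw.Ok {L : Type} [Field L] [CharZero L] (T : Tw L) : Prop where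
  sq : T.θ ^ 2 = T.c
  gen : ∀ x : L, ∃ s t : ℚ, x = s + t * T.θ
  ns : ¬ IsSquare T.c

namespace Tw

variable {L : Type} [Field L] (T : Tw L)

/-- The function whose square root defines the double cover. -/
noncomputable def F : MvPolynomial (Fin 2) (𝓞 L) :=
  MvPolynomial.C (T.a * T.d) * (MvPolynomial.X 0 - MvPolynomial.C (3 * T.b * T.d))

lemma A_eq : T.A = cA T.a T.b T.b' * T.d ^ 2 := rfl

lemma B_eq : T.B = cB T.a T.b T.b' T.a' * T.d ^ 3 := rfl

variable {T}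

lemma N_eq (h : T.θ ^ 2 = T.c) : T.a * T.a' = T.N := by
  rw [a, a', N]; push_cast; linear_combination (-(T.a₁ : 𝓞 L) ^ 2) * h

lemma Δ_eq (h : T.θ ^ 2 = T.c) : dsc T.a T.b T.b' T.a' = T.Δ := by
  rw [dsc, a, a', b, b', Δ, N]; push_cast
  grind

lemma disc_eq' (h : T.θ ^ 2 = T.c) :
    4 * T.A ^ 3 + 27 * T.B ^ 2 = -3 ^ 12 * T.a ^ 2 * T.Δ * T.d ^ 6 := by
  rw [← Δ_eq h, ← disc_c, A_eq, B_eq]; ring

variable {M : Type} [Field M] [Algebra L M]

lemma ev_F (P : Pt T.A T.B M) : ev T.F P = T.a * T.d * (X P - 3 * T.b * T.d) := by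
  simp [F, ev, Algebra.cast]

lemma θ_sq (h : T.θ ^ 2 = T.c) : (T.θ : M) ^ 2 = T.c := by
  have := congrArg (algebraMap (𝓞 L) M) h
  rwa [map_pow, map_intCast] at this

lemma cast_a : (T.a : M) = T.a₀ + T.a₁ * (T.θ : M) := by simp [a, Algebra.cast]

lemma cast_a' : (T.a' : M) = T.a₀ - T.a₁ * (T.θ : M) := by simp [a', Algebra.cast]

lemma cast_b : (T.b : M) = T.b₀ + T.b₁ * (T.θ : M) := by simp [b, Algebra.cast]

lemma cast_b' : (T.b' : M) = T.b₀ - T.b₁ * (T.θ : M) := by simp [b', Algebra.cast]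

/-- The sextic form over an extension of `L`. -/
lemma G_eq (h : T.θ ^ 2 = T.c) (x z : M) : T.G (x ^ 2 + T.c * z ^ 2) (2 * x * z) =
    T.a * (x - T.θ * z) ^ 6 + T.b * (x - T.θ * z) ^ 4 * (x + T.θ * z) ^ 2 +
      T.b' * (x - T.θ * z) ^ 2 * (x + T.θ * z) ^ 4 + T.a' * (x + T.θ * z) ^ 6 := by
  rw [G, ← θ_sq (M := M) h, cast_a, cast_a', cast_b, cast_b']
  ring

lemma On.map {M' : Type} [Field M'] {M : Type} [Field M] (f : M →+* M') {x y z : M}
    (h : T.On x y z) : T.On (f x) (f y) (f z) := by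
  refine ⟨h.1.imp (map_ne_zero f).2 (map_ne_zero f).2, ?_⟩
  simpa [G, map_ofNat] using congrArg f h.2

lemma Im.zero {x y z : M} {Q : Pt T.A T.B M} (h : T.Im x y z Q) (h0 : x + T.θ * z = 0) : Q = 0 :=
  (if_pos h0).mp h

lemma Im.some {x y z : M} {Q : Pt T.A T.B M} (h : T.Im x y z Q) (h0 : x + T.θ * z ≠ 0) :
    Q ≠ 0 ∧ X Q = 3 * T.d * (3 * T.a * ((x - T.θ * z) / (x + T.θ * z)) ^ 2 + T.b) ∧
      Y Q = 27 * T.d ^ 2 * T.a * y / (x + T.θ * z) ^ 3 := by
  obtain ⟨h', rfl⟩ := (if_neg h0).mp h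
  exact ⟨WeierstrassCurve.Affine.Point.some_ne_zero h', rfl, rfl⟩

lemma im_of {x y z : M} {Q : Pt T.A T.B M} (h0 : x + T.θ * z ≠ 0) (h1 : Q ≠ 0)
    (h2 : X Q = 3 * T.d * (3 * T.a * ((x - T.θ * z) / (x + T.θ * z)) ^ 2 + T.b))
    (h3 : Y Q = 27 * T.d ^ 2 * T.a * y / (x + T.θ * z) ^ 3) : T.Im x y z Q := by
  obtain ⟨h', e⟩ := eq_some h1
  refine (if_neg h0).mpr ?_
  rw [h2, h3] at h'
  exact ⟨h', pt_ext h1 (WeierstrassCurve.Affine.Point.some_ne_zero h') h2 h3⟩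

lemma Im.neg {x y z : M} {Q : Pt T.A T.B M} (h : T.Im x y z Q) : T.Im x (-y) z (-Q) := by
  by_cases h0 : x + T.θ * z = 0
  · exact (if_pos h0).mpr (neg_eq_zero.2 (h.zero h0))
  · obtain ⟨h1, h2, h3⟩ := h.some h0
    exact im_of h0 (neg_ne_zero.2 h1) (by rw [X_neg, h2]) (by rw [Y_neg, h3]; ring)

lemma Im.bc {x y z : L} {Q : Pt T.A T.B L} (h : T.Im x y z Q) :
    T.Im (algebraMap L M x) (algebraMap L M y) (algebraMap L M z) (bc M Q) := by
  have e : ∀ a : 𝓞 L, algebraMap L M (a : L) = (a : M) := fun _ => rfl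
  have e1 : algebraMap L M x + T.θ * algebraMap L M z = algebraMap L M (x + T.θ * z) := by
    rw [map_add, map_mul, e]
  by_cases h0 : x + T.θ * z = 0
  · exact (if_pos (by rw [← map_zero (algebraMap L M), ← h0]; exact e1)).mpr
      (bc_eq_zero.2 (h.zero h0))
  · obtain ⟨h1, h2, h3⟩ := h.some h0
    refine im_of (by rw [e1]; exact (map_ne_zero _).2 h0) (mt bc_eq_zero.1 h1) ?_ ?_
    · rw [X_bc, h2]; simp [map_ofNat, ← e]
    · rw [Y_bc, h3]; simp [map_ofNat, ← e]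

end Tw

end Pool.Agent.P.MP_ab3ecb_nt.TS
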