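import Pool.Agent.P.MP_ab3ecb_nt.TK.Defs

/-!
Quadratic twists of a curve of genus two over the rationals which covers an elliptic curve over a
real quadratic field, and the closure of a group of rational points of the elliptic curve.
-/

namespace Pool.Agent.P.MP_ab3ecb_nt.TS

open NumberField Pool.Agent.P.MP_ab3ecb_nt.TK
open scoped Classical

instance (p : Nat.Primes) : Fact p.1.Prime := ⟨p.2⟩

/-- An algebraic closure of the `r`-adic numbers, as an extension of `L` by the embedding `ι`. -/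
def Via {L : Type} [Field L] {r : Nat.Primes} (_ι : L →+* PadicAlgCl r.1) : Type := PadicAlgCl r.1

section

variable {L : Type} [Field L] {r : Nat.Primes} (ι : L →+* PadicAlgCl r.1)

noncomputable instance : NormedField (Via ι) := PadicAlgCl.normedField r.1

noncomputable instance : Algebra L (Via ι) := RingHom.toAlgebra (S := Via ι) ι

noncomputable instance : Algebra ℚ_[r.1] (Via ι) := AlgebraicClosure.instAlgebra ℚ_[r.1]

end

/-- The pairs of a prime `r` in `S` and an embedding of `L` in an algebraic closure of the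
`r`-adic numbers. -/
structure Emb (L : Type) [Field L] (S : Set Nat.Primes) where
  r : S
  ι : L →+* PadicAlgCl r.1.1

/-- The point is at infinity or its first coordinate has norm at least `N`. -/
def Big {R M : Type} [CommRing R] {A B : R} [NormedField M] [Algebra R M] (N : ℝ) :
    Pt A B M → Prop
  | .zero => True
  | .some x _ _ => N ≤ ‖x‖

/-- The difference of the points `Q` and `b` is close to the point at infinity. -/
def Near {L M : Type} [Field L] {A B : 𝓞 L} [NormedField M] [Algebra L M] (N : ℝ) (Q : Pt A B L)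
    (b : Pt A B M) : Prop :=
  Big N (bc M Q - b)

/-- The family `b` lies in the closure of the diagonal image of `Γ`. -/
def InCl {L : Type} [Field L] {A B : 𝓞 L} (Γ : AddSubgroup (Pt A B L)) {S : Set Nat.Primes}
    (b : ∀ i : Emb L S, Pt A B (Via i.ι)) : Prop :=
  ∀ (T : Finset (Emb L S)) (N : ℝ), ∃ Q ∈ Γ, ∀ i ∈ T, Near N Q (b i)

/-- The point `Q` is affine with coordinates `u`, `v`. -/
def IsPt {R M : Type} [CommRing R] {A B : R} [Field M] [Algebra R M] (Q : Pt A B M) (u v : M) :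
    Prop :=
  ∃ h, Q = .some u v h

/-- The parameters of a twist. -/
structure Tw (L : Type) [Field L] where
  (c a₀ a₁ b₀ b₁ d : ℤ)
  θ : 𝓞 L

namespace Tw

variable {L : Type} [Field L] (T : Tw L)

noncomputable def a : 𝓞 L := T.a₀ + T.a₁ * T.θ

noncomputable def a' : 𝓞 L := T.a₀ - T.a₁ * T.θ

noncomputable def b : 𝓞 L := T.b₀ + T.b₁ * T.θ

noncomputable def b' : 𝓞 L := T.b₀ - T.b₁ * T.θ

/-- The norm of `a`. -/
def N : ℤ := T.a₀ ^ 2 - T.c * T.a₁ ^ 2

/-- The discriminant of the cubic `a u ^ 3 + b u ^ 2 + b' u + a'`. -/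
def Δ : ℤ :=
  (T.b₀ ^ 2 - T.c * T.b₁ ^ 2) ^ 2 + 18 * T.N * (T.b₀ ^ 2 - T.c * T.b₁ ^ 2) - 27 * T.N ^ 2 -
    8 * (T.a₀ * (T.b₀ ^ 3 + 3 * T.c * T.b₀ * T.b₁ ^ 2) -
      T.c * T.a₁ * (3 * T.b₀ ^ 2 * T.b₁ + T.c * T.b₁ ^ 3))

/-- The cubic form which gives the sextic form. -/
def G {M : Type} [Field M] (s t : M) : M :=
  2 * (T.a₀ * (s ^ 3 + 3 * T.c * s * t ^ 2) - T.c * T.a₁ * (3 * s ^ 2 * t + T.c * t ^ 3) +
    (s ^ 2 - T.c * t ^ 2) * (T.b₀ * s - T.c * T.b₁ * t))

/-- The triple `(x, y, z)` is a point of the curve `d y ^ 2 = G (x ^ 2 + c z ^ 2, 2 x z)`, in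
coordinates of weights `1, 3, 1`. -/
def On {M : Type} [Field M] (x y z : M) : Prop :=
  (x ≠ 0 ∨ z ≠ 0) ∧ T.d * y ^ 2 = T.G (x ^ 2 + T.c * z ^ 2) (2 * x * z)

noncomputable def A : 𝓞 L := 27 * (3 * T.a * T.b' - T.b ^ 2) * T.d ^ 2

noncomputable def B : 𝓞 L :=
  27 * (2 * T.b ^ 3 - 9 * T.a * T.b * T.b' + 27 * T.a ^ 2 * T.a') * T.d ^ 3

/-- The point `Q` of the elliptic curve is the image of the point `(x, y, z)`. -/
def Im {M : Type} [Field M] [Algebra L M] (x y z : M) (Q : Pt T.A T.B M) : Prop :=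
  let φ := algebraMap (𝓞 L) M
  if x + φ T.θ * z = 0 then Q = 0 else IsPt Q
    (3 * T.d * (3 * φ T.a * ((x - φ T.θ * z) / (x + φ T.θ * z)) ^ 2 + φ T.b))
    (27 * T.d ^ 2 * φ T.a * y / (x + φ T.θ * z) ^ 3)

end Tw

end Pool.Agent.P.MP_ab3ecb_nt.TS
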