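import Pool.Agent.P.MP_ab3ecb_nt.TS.Base

/-! Statements of the steps. -/

namespace Pool.Agent.P.MP_ab3ecb_nt.TS

open Filter Topology NumberField Pool.Agent.P.MP_ab3ecb_nt.TK
open Pool.Agent.P.MP_8b7eba_nt.R2 hiding Sm E1
open scoped Classical NNReal

/-! ### The formal group -/

-- deps:
def S_SC : Prop := ∀ {R R' : Type} [CommRing R] [CommRing R'] (A B : R) (A' B' : R') (L L' : Type)
  [Field L] [Field L'] [Algebra R L] [Algebra R' L'] [DecidableEq L] [DecidableEq L']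
  (φ : L →+* L') (δ : L'), δ ≠ 0 → φ (A : L) = δ ^ 4 * (A' : L') → φ (B : L) = δ ^ 6 * (B' : L') →
    ∃ s : Pt A B L →+ Pt A' B' L', ∀ P, (s P = 0 ↔ P = 0) ∧ X (s P) * δ ^ 2 = φ (X P) ∧
      Y (s P) * δ ^ 3 = φ (Y P)

-- deps:
def S_ZW : Prop := ∀ {R : Type} [CommRing R] [Algebra.IsIntegral ℤ R] (A B : R)
  (L G : Type) [Field L] [Algebra R L] [DecidableEq L]
  [LinearOrderedCommGroupWithZero G] (v : Valuation L G) (P Q : Pt A B L), E1 v P → E1 v Q →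
    v (W P) ≤ v (Z P) ∧ ∃ l : L, v l < 1 ∧
      l * (1 - (A * (Z P * (W P + W Q)) + B * (W P ^ 2 + W P * W Q + W Q ^ 2))) =
        Z P ^ 2 + Z P * Z Q + Z Q ^ 2 + A * W Q ^ 2 ∧
      (Z (P + Q) - Z P - Z Q) * (1 + (A * l ^ 2 + B * l ^ 3)) =
        (W P - l * Z P) * (2 * A * l + 3 * B * l ^ 2) ∧
      W (P + Q) - W Q = l * (Z (P + Q) - Z Q) - 2 * (W P - l * Z P)

-- deps: FG MUL ZW
def S_PM : Prop := ∀ {R : Type} [CommRing R] [Algebra.IsIntegral ℤ R] (A B : R)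
  (L G : Type) [Field L] [Algebra R L] [DecidableEq L]
  [LinearOrderedCommGroupWithZero G] (v : Valuation L G) (p : ℕ) (P : Pt A B L), p.Prime →
    E1 v P → v (Z (p • P) - p * Z P) ≤ max (v p * v (Z P) ^ 5) (v (Z P) ^ p)

-- deps: FG MUL PM
def S_NM : Prop := ∀ {R : Type} [CommRing R] [Algebra.IsIntegral ℤ R] (A B : R)
  (L G : Type) [Field L] [Algebra R L] [DecidableEq L]
  [LinearOrderedCommGroupWithZero G] (v : Valuation L G) (p : ℕ) (P : Pt A B L), p.Prime → 7 ≤ p →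
    v p < 1 → E1 v P → v (Z P) ^ 2 ≤ v p → ∀ n : ℤ, v (Z (n • P) - n * Z P) ≤ v n * v (Z P) ^ 5

-- deps: FG NM
def S_DET : Prop := ∀ {R : Type} [CommRing R] [Algebra.IsIntegral ℤ R] (A B A' B' : R)
  (M : Type) [Field M] [CharZero M] [Algebra R M] (v : Valuation M ℝ≥0) (p : ℕ) (r : ℝ≥0)
  (Γ : Type) [AddCommGroup Γ] (j : Γ →+ Pt A B M) (j' : Γ →+ Pt A' B' M) (P P' : Pt A B M)
  (U U' : Pt A' B' M), p.Prime → 7 ≤ p → v p < 1 → r ^ 2 ≤ v p → Rk Γ → Cl v j j' P U →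
    Cl v j j' P' U' → P ≠ 0 → U ≠ 0 → P' ≠ 0 → U' ≠ 0 → Sm v r P → Sm v r U → Sm v r P' →
    Sm v r U' → Ap v (r ^ 4) (Z P * Z U') (Z U * Z P')

-- deps:
def S_LOG : Prop := ∀ {R : Type} [CommRing R] [Algebra.IsIntegral ℤ R] (A B : R)
  (L G : Type) [Field L] [Algebra R L] [DecidableEq L]
  [LinearOrderedCommGroupWithZero G] (v : Valuation L G) (r : G) (P Q : Pt A B L), P ≠ 0 → Q ≠ 0 →
    r < 1 → v (X Q) ≤ 1 → v (X P - X Q) < 1 → v (Y P) ≤ r → v (Y Q) ≤ r →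
    v (3 * X Q ^ 2 + A) = 1 → Y P ≠ Y Q → P - Q ≠ 0 ∧ E1 v (P - Q) ∧
      v (Z (P - Q) * (3 * X Q ^ 2 + A) ^ 3 + (Y P - Y Q) *
        ((3 * X Q ^ 2 + A) ^ 2 - 2 * X Q * (Y P - Y Q) * (Y P + 2 * Y Q))) ≤ v (Y P - Y Q) * r ^ 4

/-! ### The method of Chabauty near the branch points -/

-- deps:
def S_CON : Prop := ∀ {R : Type} [CommRing R] [Algebra.IsIntegral ℤ R] (a b b' a' : R)
  (M : Type) [Field M] [Algebra R M] (v : Valuation M ℝ≥0) (x y : M), Gd v a b b' a' →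
    y ^ 2 = a * x ^ 6 + b * x ^ 4 + b' * x ^ 2 + a' → v x = 1 → v y < 1 →
    v (g1 (a : M) b b' (x ^ 2)) = 1 ∧ v (g1 (a' : M) b' b (1 / x ^ 2)) = 1 ∧
    v (g1 (a' : M) b' b (1 / x ^ 2) * x ^ 3 + x * g1 (a : M) b b' (x ^ 2)) < 1 ∧
    v (kp (a : M) b b' x) ≤ 1 ∧ v (km (b : M) b' a' x) ≤ 1 ∧ v (k3 (a : M) b b' x) ≤ 1 ∧
    v (k3 (a : M) b b' x - kp (a : M) b b' x + km (b : M) b' a' x) = 1

-- deps: CON
def S_ETA : Prop := ∀ {R : Type} [CommRing R] [Algebra.IsIntegral ℤ R] (a b b' a' : R)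
  (M : Type) [Field M] [Algebra R M] (v : Valuation M ℝ≥0) (r : ℝ≥0) (x y x' y' : M),
    Gd v a b b' a' → y ^ 2 = a * x ^ 6 + b * x ^ 4 + b' * x ^ 2 + a' →
    y' ^ 2 = a * x' ^ 6 + b * x' ^ 4 + b' * x' ^ 2 + a' → v x' = 1 → v (x - x') < 1 → r < 1 →
    v y ≤ r → v y' ≤ r → v (x - x') = v (y ^ 2 - y' ^ 2) ∧
      v (y / x ^ 3 * x' ^ 3 - y' - (y - y') * (1 - k3 (a : M) b b' x' * y * (y + y'))) ≤
        v (y - y') * r ^ 4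

-- deps: LOG CON
def S_EXA : Prop := ∀ {R : Type} [CommRing R] [Algebra.IsIntegral ℤ R] (a b b' a' : R)
  (M : Type) [Field M] [Algebra R M] (v : Valuation M ℝ≥0) (r : ℝ≥0) (x y x' y' : M)
  (P P' : Ec a b b' a' M) (U U' : Ec a' b' b a M), Gd v a b b' a' → HP v a b b' a' r x y P U →
    HP v a b b' a' r x' y' P' U' → v (x - x') < 1 → r < 1 → y ≠ y' →
    P - P' ≠ 0 ∧ Sm v r (P - P') ∧ v (Z (P - P') * (-3 * g1 (a : M) b b' (x' ^ 2)) -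
      (y - y') * (1 - kp (a : M) b b' x' * (y - y') * (y + 2 * y'))) ≤ v (y - y') * r ^ 4

-- deps: LOG CON ETA
def S_EXB : Prop := ∀ {R : Type} [CommRing R] [Algebra.IsIntegral ℤ R] (a b b' a' : R)
  (M : Type) [Field M] [Algebra R M] (v : Valuation M ℝ≥0) (r : ℝ≥0) (x y x' y' : M)
  (P P' : Ec a b b' a' M) (U U' : Ec a' b' b a M), Gd v a b b' a' → HP v a b b' a' r x y P U →
    HP v a b b' a' r x' y' P' U' → v (x - x') < 1 → r < 1 → y ≠ y' →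
    U - U' ≠ 0 ∧ Sm v r (U - U') ∧
      v (Z (U - U') * (-3 * g1 (a' : M) b' b (1 / x' ^ 2) * x' ^ 3) - (y - y') *
        (1 - k3 (a : M) b b' x' * y * (y + y') - km (b : M) b' a' x' * (y - y') * (y + 2 * y'))) ≤
          v (y - y') * r ^ 4

-- deps: MUL DET CON EXA EXB
def S_CHA : Prop := ∀ {R : Type} [CommRing R] [Algebra.IsIntegral ℤ R] (a b b' a' : R)
  (M : Type) [Field M] [CharZero M] [Algebra R M] (v : Valuation M ℝ≥0) (p : ℕ) (r : ℝ≥0)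
  (Γ : Type) [AddCommGroup Γ] (j : Γ →+ Ec a b b' a' M) (j' : Γ →+ Ec a' b' b a M) (x y x' y' : M)
  (P P' : Ec a b b' a' M) (U U' : Ec a' b' b a M), p.Prime → 7 ≤ p → v p < 1 → r ^ 2 ≤ v p →
    Rk Γ → Gd v a b b' a' → HP v a b b' a' r x y P U → HP v a b b' a' r x' y' P' U' →
    Cl v j j' P U → Cl v j j' P' U' → y ≠ 0 → y' ≠ 0 → v (x - x') < 1

-- deps: MUL DET CON EXA EXB
def S_CHB : Prop := ∀ {R : Type} [CommRing R] [Algebra.IsIntegral ℤ R] (a b b' a' : R)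
  (M : Type) [Field M] [CharZero M] [Algebra R M] (v : Valuation M ℝ≥0) (p : ℕ)
  (Γ : Type) [AddCommGroup Γ] (j : Γ →+ Ec a b b' a' M) (j' : Γ →+ Ec a' b' b a M) (x y x' y' : M)
  (P P' : Ec a b b' a' M) (U U' : Ec a' b' b a M), p.Prime → 7 ≤ p → v p < 1 → v y ^ 2 ≤ v p →
    Rk Γ → Gd v a b b' a' → HP v a b b' a' (v y) x y P U → HP v a b b' a' (v y) x' y' P' U' →
    Cl v j j' P U → Cl v j j' P' U' → y' ≠ 0 → v (x - x') < 1 → v (y + y') = v y → y = y'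

-- deps: MUL ETA CHA CHB
def S_CH : Prop := ∀ {R : Type} [CommRing R] [Algebra.IsIntegral ℤ R] (a b b' a' : R)
  (M : Type) [Field M] [CharZero M] [Algebra R M] (v : Valuation M ℝ≥0) (p : ℕ) (r : ℝ≥0)
  (Γ : Type) [AddCommGroup Γ] (j : Γ →+ Ec a b b' a' M) (j' : Γ →+ Ec a' b' b a M) (x y x' y' : M)
  (P P' : Ec a b b' a' M) (U U' : Ec a' b' b a M), p.Prime → 7 ≤ p → v p < 1 → r ^ 2 ≤ v p →
    Rk Γ → Gd v a b b' a' → HP v a b b' a' r x y P U → HP v a b b' a' r x' y' P' U' →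
    Cl v j j' P U → Cl v j j' P' U' → y ≠ 0 → y' ≠ 0 → P = P' ∨ P = -P'

-- deps:
def S_UNI : Prop := ∀ {L : Type} [Field L] {r : Nat.Primes} (ι : L →+* PadicAlgCl r.1) (d : ℤ)
  (x y z : ℚ_[r.1]) (a b b' a' θ α β : Via ι), r.1 ≠ 2 → (r.1 : ℤ) ∣ d → ¬ (r.1 : ℤ) ^ 2 ∣ d →
    vv ι a = 1 → vv ι b ≤ 1 → vv ι b' ≤ 1 → vv ι a' = 1 → vv ι θ = 1 → (x ≠ 0 ∨ z ≠ 0) →
    α = algebraMap _ _ x - θ * algebraMap _ _ z → β = algebraMap _ _ x + θ * algebraMap _ _ z →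
    d * algebraMap _ _ y ^ 2 = a * α ^ 6 + b * α ^ 4 * β ^ 2 + b' * α ^ 2 * β ^ 4 + a' * β ^ 6 →
      α ≠ 0 ∧ β ≠ 0 ∧ vv ι (α / β) = 1 ∧ vv ι (algebraMap _ _ y / β ^ 3) ≤ 1 ∧
        vv ι d = vv ι (r.1 : ℕ)

/-! ### Embeddings and places -/

-- deps:
def S_EMB : Prop := ∀ {L : Type} [Field L] [NumberField L] (T : Tw L), T.Ok →
  (∀ (M : Type) [Field M] [CharZero M] (t : M), t ^ 2 = T.c → ∃ f : L →+* M, f T.θ = t) ∧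
  (∀ (M : Type) [Field M] [CharZero M] (f g : L →+* M), f T.θ = g T.θ → f = g) ∧
  ∀ s t : ℚ, (s : L) + t * T.θ = 0 → s = 0 ∧ t = 0

-- deps:
def S_LK : Prop := ∀ (L : Type) [Field L] [NumberField L] [Algebra L Om],
  (∀ (w : Pl) (r : Nat.Primes), w.p = r.1 → ∃ ι : L →+* PadicAlgCl r.1, Lk ι w) ∧
  ∀ (r : Nat.Primes) (ι : L →+* PadicAlgCl r.1), ∃ w : Pl, Lk ι w

-- deps: CL EVC
def S_SQG : Prop := ∀ {K : Type} [Field K] [NumberField K] [Algebra K Om] (A B : 𝓞 K)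
  (F : MvPolynomial (Fin 2) (𝓞 K)) {r : Nat.Primes} (ι : K →+* PadicAlgCl r.1) (w : Pl)
  (U : Subgroup GQ) (R : Pt A B Om) (Q : Pt A B K) (b : Pt A B (Via ι)), Lk ι w → w.p ≠ 2 →
    FixP U R → R ≠ 0 → w.v (X R) ≤ 1 → w.v (ev F R) = 1 → E1 w.v (rt Q - R) →
    E1 (vv ι) (bc (Via ι) Q - b) →
    (b ≠ 0 → ∃ η : K, vv ι (ev F b - algebraMap K (Via ι) η ^ 2) < 1) → Sq (w.D ⊓ U) (ev F R)

-- deps:
def S_APX : Prop := ∀ {L : Type} [Field L] [NumberField L] (T : Tw L) {r : Nat.Primes}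
  (ι : L →+* PadicAlgCl r.1) (x y z : ℚ_[r.1]) (b : Pt T.A T.B (Via ι)),
    T.Im (algebraMap _ (Via ι) x) (algebraMap _ _ y) (algebraMap _ _ z) b → b ≠ 0 →
      ∃ η : L, vv ι (ev T.F b - algebraMap L (Via ι) η ^ 2) < 1

-- deps: TS
def S_ULG : Prop := ∀ {K : Type} [Field K] [NumberField K] (A B : 𝓞 K)
  (Γ : AddSubgroup (Pt A B K)) (S : Set Nat.Primes) (b : ∀ i : Emb K S, Pt A B (Via i.2)),
  (∃ P : Γ, (AddSubgroup.zmultiples P).FiniteIndex) → InCl Γ b →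
    ∃ P ∈ Γ, ∃ R ∈ Γ, ∃ l : Ultrafilter ℤ,
      (∀ Q ∈ Γ, ∃ (k : ℕ) (j : ℤ), 0 < k ∧ k • Q = j • 2 • P) ∧
      ∀ (i : Emb K S) (c : ℝ≥0), 0 < c →
        ∀ᶠ m : ℤ in l, Sm (vv i.2) c (bc (Via i.2) (R + m • 2 • P) - b i)

-- deps: MUL FI DIV CMP LK SQG ULG KEYB
def S_CORE : Prop := ∀ {K : Type} [Field K] [NumberField K] [Algebra K ℝ] (A B : 𝓞 K)
  (Γ : AddSubgroup (Pt A B K)) (F : MvPolynomial (Fin 2) (𝓞 K)) (S : Set Nat.Primes)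
  (b : ∀ i : Emb K S, Pt A B (Via i.2)) (i₁ i₂ : Emb K S) (n : ℕ) (Q : Pt A B K),
  4 * A ^ 3 + 27 * B ^ 2 ≠ 0 → (∃ P : Γ, (AddSubgroup.zmultiples P).FiniteIndex) → Sᶜ.Finite →
    InCl Γ b → (∀ Q, Neg F (Q : Pt A B K)) → Oth A B F →
    (∀ i, b i ≠ 0 → ∃ η : K, vv i.2 (ev F (b i) - algebraMap K (Via i.2) η ^ 2) < 1) →
    i₁.1 ≠ i₂.1 → n ≠ 0 → Q ∈ Γ → n • b i₁ = bc _ Q → n • b i₂ = bc _ Q →
      ∃ R ∈ Γ, ∀ i, b i = bc _ R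

/-! ### Real points -/

-- deps:
def S_HALF : Prop := ∀ {R : Type} [CommRing R] [Algebra R ℝ] (A B : R) (P : Pt A B ℝ),
  0 < 4 * (A : ℝ) ^ 3 + 27 * (B : ℝ) ^ 2 → ∃ Q : Pt A B ℝ, 2 • Q = P

-- deps:
def S_POS : Prop := ∀ a b b' a' u : ℝ, 0 < a → a' < 0 → dsc a b b' a' < 0 →
  0 ≤ a * u ^ 3 + b * u ^ 2 + b' * u + a' → 0 ≤ u

-- deps: EMB HALF POS
def S_REAL : Prop := ∀ {L : Type} [Field L] [NumberField L] (T : Tw L), T.Ok → T.N < 0 → T.Δ < 0 →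
  T.d ≠ 0 → ∃ _ : Algebra L ℝ, (∀ Q : Pt T.A T.B L, Neg T.F Q) ∧ Oth T.A T.B T.F

/-! ### Assembly -/

-- deps: TS SC CH UNI EMB
def S_CHP : Prop := ∀ {L : Type} [Field L] [NumberField L] (T : Tw L) (Γ : AddSubgroup (Pt T.A T.B L))
  (p : Nat.Primes) (ι ι' : L →+* PadicAlgCl p.1) (x₀ y₀ z₀ : ℚ) (Q₀ : Pt T.A T.B L)
  (x y z : ℚ_[p.1]) (b : Pt T.A T.B (Via ι)) (b' : Pt T.A T.B (Via ι')), T.Ok →
    (∃ P : Γ, (AddSubgroup.zmultiples P).FiniteIndex) → 7 ≤ p.1 → (p.1 : ℤ) ∣ T.d →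
    ¬ (p.1 : ℤ) ^ 2 ∣ T.d → ¬ (p.1 : ℤ) ∣ T.c * T.N * T.Δ → ι' T.θ = -ι T.θ → T.On x₀ y₀ z₀ →
    y₀ ≠ 0 → Q₀ ∈ Γ → T.Im (x₀ : L) y₀ z₀ Q₀ → T.On x y z →
    T.Im (algebraMap _ (Via ι) x) (algebraMap _ _ y) (algebraMap _ _ z) b →
    T.Im (algebraMap _ (Via ι') x) (algebraMap _ _ y) (algebraMap _ _ z) b' →
    (∀ N : ℝ, ∃ Q ∈ Γ, Big N (bc (Via ι) Q - b) ∧ Big N (bc (Via ι') Q - b')) →
      (b ≠ 0 ∧ Y b = 0) ∨ b = bc _ Q₀ ∨ b = -bc _ Q₀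

-- deps: EMB
def S_ID : Prop := ∀ {L : Type} [Field L] [NumberField L] (T : Tw L) (r : Nat.Primes)
  (ι ι' : L →+* PadicAlgCl r.1) (x₀ y₀ z₀ : ℚ) (Q₀ : Pt T.A T.B L) (x y z : ℚ_[r.1]), T.Ok →
    T.N ≠ 0 → T.d ≠ 0 → ι' T.θ = -ι T.θ → (x₀ ≠ 0 ∨ z₀ ≠ 0) → y₀ ≠ 0 → T.Im (x₀ : L) y₀ z₀ Q₀ →
    T.Im (algebraMap _ (Via ι) x) (algebraMap _ _ y) (algebraMap _ _ z) (bc _ Q₀) →
    T.Im (algebraMap _ (Via ι') x) (algebraMap _ _ y) (algebraMap _ _ z) (bc _ Q₀) →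
      ∃ t : ℚ_[r.1], x = t * x₀ ∧ y = t ^ 3 * y₀ ∧ z = t * z₀

-- deps:
-- imports: Pool.Agent.P.MP_ab3ecb_nt.TP.Rat
def S_RSQ : Prop := ∀ (q : ℚ) (S : Set Nat.Primes), Sᶜ.Finite →
  (∀ r : S, IsSquare (q : ℚ_[r.1.1])) → IsSquare q

-- deps: EMB
def S_WA : Prop := ∀ {L : Type} [Field L] [NumberField L] (T : Tw L) (R : Pt T.A T.B L), T.Ok →
  T.N ≠ 0 → T.d ≠ 0 → R ≠ 0 → ∃ m n : ℚ, (m ≠ 0 ∨ n ≠ 0) ∧ ∀ (r : Nat.Primes) (x y z : ℚ_[r.1]),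
    (∀ ι : L →+* PadicAlgCl r.1,
      T.Im (algebraMap _ (Via ι) x) (algebraMap _ _ y) (algebraMap _ _ z) (bc _ R)) →
    n * (x ^ 2 + T.c * z ^ 2) = m * (2 * x * z)

-- deps: RSQ
def S_WB : Prop := ∀ {L : Type} [Field L] (T : Tw L) (S : Set Nat.Primes) (r₀ : S)
  (x z : ∀ r : S, ℚ_[r.1.1]) (m n : ℚ), T.c ≠ 0 → Sᶜ.Finite → (m ≠ 0 ∨ n ≠ 0) →
    (∀ r, T.On (x r) 0 (z r)) → (∀ r, n * (x r ^ 2 + T.c * z r ^ 2) = m * (2 * x r * z r)) →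
    ∃ x₁ z₁ : ℚ, T.On x₁ 0 z₁ ∧
      ∀ r, ∃ t, x r = t * x₁ ∧ z r = t * z₁ ∨ x r = t * (T.c * z₁) ∧ z r = t * x₁

-- deps: EMB APX CORE REAL CHP ID WA WB
def S_MAIN : Prop := ∀ {L : Type} [Field L] [NumberField L] (T : Tw L)
  (Γ : AddSubgroup (Pt T.A T.B L)) (S : Set Nat.Primes) (D : Finset S) (x₀ y₀ z₀ : ℚ)
  (Q₀ : Pt T.A T.B L) (x y z : ∀ r : S, ℚ_[r.1.1]) (b : ∀ i : Emb L S, Pt T.A T.B (Via i.2)),
  T.Ok → T.N < 0 → T.Δ < 0 → (∃ P : Γ, (AddSubgroup.zmultiples P).FiniteIndex) → Sᶜ.Finite →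
    4 ≤ D.card → (∀ p ∈ D, 7 ≤ p.1.1 ∧ (p.1.1 : ℤ) ∣ T.d ∧ ¬ (p.1.1 : ℤ) ^ 2 ∣ T.d ∧
      ¬ (p.1.1 : ℤ) ∣ T.c * T.N * T.Δ) → T.On x₀ y₀ z₀ → y₀ ≠ 0 → Q₀ ∈ Γ →
    T.Im (x₀ : L) y₀ z₀ Q₀ → (∀ r, T.On (x r) (y r) (z r)) →
    (∀ i : Emb L S, T.Im (algebraMap _ (Via i.2) (x i.1)) (algebraMap _ _ (y i.1))
      (algebraMap _ _ (z i.1)) (b i)) → InCl Γ b →
    (∃ e : ℚ, (e = y₀ ∨ e = -y₀) ∧ ∀ r, ∃ t, x r = t * x₀ ∧ y r = t ^ 3 * e ∧ z r = t * z₀) ∨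
      ∃ x₁ z₁ : ℚ, T.On x₁ 0 z₁ ∧ ∀ r, y r = 0 ∧
        ∃ t, x r = t * x₁ ∧ z r = t * z₁ ∨ x r = t * (T.c * z₁) ∧ z r = t * x₁

end Pool.Agent.P.MP_ab3ecb_nt.TS
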