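import Pool.Agent.P.MP_ab3ecb_nt.TS.Defs

/-! Abbreviations for the statement of the theorem on twists. -/

namespace Pool.Agent.P.MP_ab3ecb_nt.TS

open NumberField Pool.Agent.P.MP_ab3ecb_nt.TK

variable {L : Type} [Field L]

/-- The group `Γ` has a cyclic subgroup of finite index. -/
def RkOne {G : Type} [AddGroup G] (Γ : AddSubgroup G) : Prop :=
  ∃ P : Γ, (AddSubgroup.zmultiples P).FiniteIndex

/-- Families of local points of the elliptic curve. -/
abbrev Fam (A B : 𝓞 L) (S : Set Nat.Primes) : Type := ∀ i : Emb L S, Pt A B (Via i.ι)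

/-- The triples are the same point in coordinates of weights `1, 3, 1`. -/
def Eqv {M : Type} [Field M] (x y z : M) (x' y' z' : ℚ) : Prop :=
  ∃ t : M, x = t * x' ∧ y = t ^ 3 * y' ∧ z = t * z'

/-- The number `p` is at least seven, divides `d` exactly once and does not divide `c N Δ`. -/
def Tw.Good (T : Tw L) (p : ℤ) : Prop := 7 ≤ p ∧ p ∣ T.d ∧ ¬ p ^ 2 ∣ T.d ∧ ¬ p ∣ T.c * T.N * T.Δ

/-- The point `Q` is the image of the `r`-adic point `(x, y, z)`. -/
def Tw.ImV (T : Tw L) {r : Nat.Primes} (ι : L →+* PadicAlgCl r.1) (x y z : ℚ_[r.1])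
    (Q : Pt T.A T.B (Via ι)) : Prop :=
  T.Im (algebraMap _ (Via ι) x) (algebraMap _ _ y) (algebraMap _ _ z) Q

end Pool.Agent.P.MP_ab3ecb_nt.TS
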