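import Pool.Agent.P.MP_ab3ecb_nt.TS.Stmt

/-! The condition on the tangent direction of a group of points at a prime. -/

namespace Pool.Agent.P.MP_ab3ecb_nt.TS

open NumberField Pool.Agent.P.MP_ab3ecb_nt.TK

/-- The point `Q = (x, y)` has `x` of norm at least one above `p`, and, if `x / y = s + t θ`, the
reduction modulo `p` of the point `(c t : -s)` of the line is not a root of the sextic form. -/
def Tw.Gen {L : Type} [Field L] (T : Tw L) (Q : Pt T.A T.B L) (p : Nat.Primes) : Prop :=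
  ∃ (x y : L) (s t : ℚ), IsPt Q x y ∧ x / y = s + t * T.θ ∧
    (∀ ι : L →+* PadicAlgCl p.1, 1 ≤ ‖ι x‖) ∧
    max (padicNorm p.1 s) (padicNorm p.1 t) ^ 6 ≤
      padicNorm p.1 (T.G ((T.c * t) ^ 2 + T.c * s ^ 2) (2 * (T.c * t) * -s))

end Pool.Agent.P.MP_ab3ecb_nt.TS
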