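import Pool.Agent.P.MP_ab3ecb_nt.TS.Iface

/-! Step EXA. -/

set_option autoImplicit false
set_option linter.unusedSectionVars false

namespace Pool.Agent.P.MP_ab3ecb_nt.TS

open Filter Topology NumberField Pool.Agent.P.MP_ab3ecb_nt.TK
open Pool.Agent.P.MP_8b7eba_nt.R2 hiding Sm E1
open scoped Classical NNReal

theorem p_EXA (hLOG : S_LOG) (hCON : S_CON) :
    S_EXA := by
  intro R _ _ a b b' a' M _ _ v r x y x' y' P P' U U' hG h h' hx hr hy
  obtain ⟨c1, -, -, c4, -⟩ := hCON a b b' a' M v x' y' hG h'.eq h'.vx (h'.vy.trans_lt hr)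
  have cAe : ((cA a b b' : R) : M) = 27 * (3 * (a : M) * b' - (b : M) ^ 2) := by
    simp [cA, Algebra.cast, map_ofNat]
  have v27 : v ((27 : M) * a) = 1 := by
    rw [map_mul, hG.ha, show (27 : M) = 3 ^ 3 by norm_num, map_pow, hG.three]; simp
  have eD : 3 * X P' ^ 2 + ((cA a b b' : R) : M) = 27 * a * (3 * g1 (a : M) b b' (x' ^ 2)) := by
    rw [cAe, h'.PX, g1]; ring
  have v3g : v (3 * g1 (a : M) b b' (x' ^ 2)) = 1 := by rw [map_mul, hG.three, c1, mul_one]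
  have vD : v (3 * X P' ^ 2 + ((cA a b b' : R) : M)) = 1 := by rw [eD, map_mul, v27, v3g, mul_one]
  have eY : Y P - Y P' = 27 * a * (y - y') := by rw [h.PY, h'.PY]; ring
  have vY : v (Y P - Y P') = v (y - y') := by rw [eY, map_mul, v27, one_mul]
  have vm' : v (y - y') ≤ r := v.map_sub_le h.vy h'.vy
  obtain ⟨l1, l2, l3⟩ := hLOG (cA a b b') (cB a b b' a') M ℝ≥0 v r P P' h.P0 h'.P0 hr
    (by
      rw [h'.PX]
      exact v.map_add_le (vi (vi (v_of 9) (v_int v a)) (by simp [h'.vx])) (vi (v_of 3) (v_int v b)))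
    (by
      rw [h.PX, h'.PX, show 9 * (a : M) * x ^ 2 + 3 * b - (9 * a * x' ^ 2 + 3 * b) =
        9 * a * (x + x') * (x - x') by ring]
      exact (vi (vi (vi (v_of 9) (v_int v a)) (v.map_add_le h.vx.le h'.vx.le)) le_rfl).trans_lt hx)
    (by rw [h.PY, map_mul, v27, one_mul]; exact h.vy)
    (by rw [h'.PY, map_mul, v27, one_mul]; exact h'.vy) vD
    (by
      rw [← sub_ne_zero, ← v.ne_zero_iff, vY, v.ne_zero_iff]; exact sub_ne_zero.2 hy)
  have g0 : g1 (a : M) b b' (x' ^ 2) ≠ 0 := by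
    rw [← v.ne_zero_iff, c1]; exact one_ne_zero
  have t0 : (3 : M) ≠ 0 := by rw [← v.ne_zero_iff, hG.three]; exact one_ne_zero
  have key : v (Z (P - P') * (-3 * g1 (a : M) b b' (x' ^ 2)) -
      (y - y') * (1 - kp (a : M) b b' x' * (y - y') * (y + 2 * y'))) ≤ v (y - y') * r ^ 4 := by
    rw [vY] at l3
    refine le_trans (le_of_eq ?_) l3
    have e : Z (P - P') * (3 * X P' ^ 2 + ((cA a b b' : R) : M)) ^ 3 + (Y P - Y P') *
        ((3 * X P' ^ 2 + ((cA a b b' : R) : M)) ^ 2 - 2 * X P' * (Y P - Y P') * (Y P + 2 * Y P')) =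
        -(27 * a * (3 * X P' ^ 2 + ((cA a b b' : R) : M)) ^ 2 *
          (Z (P - P') * (-3 * g1 (a : M) b b' (x' ^ 2)) -
            (y - y') * (1 - kp (a : M) b b' x' * (y - y') * (y + 2 * y')))) := by
      rw [eD, eY, h.PY, h'.PY, h'.PX, kp, g2]
      field_simp
      ring
    rw [e, v.map_neg, map_mul, map_mul, v27, map_pow, vD]
    simp
  refine ⟨l1, ⟨l2, ?_⟩, key⟩
  have e2 : v (Z (P - P')) = v (Z (P - P') * (-3 * g1 (a : M) b b' (x' ^ 2))) := by
    rw [map_mul, neg_mul, v.map_neg, v3g, mul_one]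
  rw [e2, ← sub_add_cancel (Z (P - P') * (-3 * g1 (a : M) b b' (x' ^ 2)))
    ((y - y') * (1 - kp (a : M) b b' x' * (y - y') * (y + 2 * y')))]
  refine v.map_add_le (key.trans ?_) (vi' vm' ?_)
  · simpa using mul_le_mul' vm' (pow_le_one₀ zero_le hr.le (n := 4))
  · exact v.map_sub_le (by simp) (vi (vi c4 (vm'.trans hr.le))
      (v.map_add_le (h.vy.trans hr.le) (vi (v_of 2) (h'.vy.trans hr.le))))

end Pool.Agent.P.MP_ab3ecb_nt.TS
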