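import Pool.Agent.P.MP_ab3ecb_nt.TS.Iface

/-! Step MAIN. -/

set_option autoImplicit false
set_option linter.unusedSectionVars false

namespace Pool.Agent.P.MP_ab3ecb_nt.TS

open Filter Topology NumberField Pool.Agent.P.MP_ab3ecb_nt.TK
open Pool.Agent.P.MP_8b7eba_nt.R2 hiding Sm E1
open scoped Classical NNReal

namespace MAINx

lemma three {α : Type} (D : Finset α) (hD : 4 ≤ D.card) (P₀ P₁ P₂ : α → Prop)
    (h : ∀ p ∈ D, P₀ p ∨ P₁ p ∨ P₂ p) :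
    ∃ p q, p ≠ q ∧ ((P₀ p ∧ P₀ q) ∨ (P₁ p ∧ P₁ q) ∨ (P₂ p ∧ P₂ q)) := by
  obtain ⟨p, hp, q, hq, hne, e⟩ := Finset.exists_ne_map_eq_of_card_lt_of_maps_to
    (t := (Finset.univ : Finset (Fin 3))) (s := D) (by rw [Finset.card_univ, Fintype.card_fin]; omega)
    (f := fun p => if P₀ p then 0 else if P₁ p then 1 else 2) fun _ _ => Finset.mem_univ _
  refine ⟨p, q, hne, ?_⟩
  have h1 := h p hp
  have h2 := h q hq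
  by_cases a : P₀ p <;> by_cases b : P₀ q <;> by_cases c : P₁ p <;> by_cases d : P₁ q <;>
    simp_all

lemma bc_inj {K : Type} [Field K] {A B : 𝓞 K} {M : Type} [Field M] [Algebra K M]
    {P Q : Pt A B K} (h : bc M P = bc M Q) : P = Q := by
  rw [← sub_eq_zero, ← bc_eq_zero (L := M), map_sub, h, sub_self]

end MAINx

theorem p_MAIN (hEMB : S_EMB) (hAPX : S_APX) (hCORE : S_CORE) (hREAL : S_REAL) (hCHP : S_CHP) (hID : S_ID) (hWA : S_WA) (hWB : S_WB) :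
    S_MAIN := by
  intro L _ _ T Γ S D x₀ y₀ z₀ Q₀ x y z b ok hN hΔ hr hS hD hp h₀ hy hQ hI hon hb hcl
  obtain ⟨p₀, hp₀⟩ := Finset.card_pos.1 (show 0 < D.card by omega)
  have hd : T.d ≠ 0 := fun h => (hp p₀ hp₀).2.2.1 (h ▸ dvd_zero _)
  have hc : T.c ≠ 0 := fun h => ok.ns (h ▸ IsSquare.zero)
  have ha : T.a ≠ 0 := fun h => hN.ne (by
    have h1 := Tw.N_eq ok.sq
    rw [h, zero_mul] at h1
    exact_mod_cast h1.symm)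
  have hD0 : 4 * T.A ^ 3 + 27 * T.B ^ 2 ≠ 0 := by
    rw [Tw.disc_eq' ok.sq]
    have h1 : (T.Δ : 𝓞 L) ≠ 0 := by exact_mod_cast hΔ.ne
    have h2 : (T.d : 𝓞 L) ≠ 0 := by exact_mod_cast hd
    simp [ha, h1, h2]
  obtain ⟨e1, -, -⟩ := hEMB T ok
  have hι : ∀ r : S, ∃ ι ι' : L →+* PadicAlgCl r.1.1, ι' T.θ = -ι T.θ := fun r => by
    obtain ⟨t, ht⟩ := IsAlgClosed.exists_pow_nat_eq (T.c : PadicAlgCl r.1.1) two_pos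
    obtain ⟨ι, h1⟩ := e1 _ t ht
    obtain ⟨ι', h2⟩ := e1 _ (-t) (by rw [neg_sq, ht])
    exact ⟨ι, ι', by rw [h1, h2]⟩
  choose ι ι' hι using hι
  obtain ⟨_, hneg, hoth⟩ := hREAL T ok hN hΔ hd
  have core := fun (p q : S) (Q : Pt T.A T.B L) (hpq : p ≠ q) => hCORE T.A T.B Γ T.F S b ⟨p, ι p⟩
    ⟨q, ι q⟩ 2 Q hD0 hr hS hcl hneg hoth (fun i => hAPX T i.2 _ _ _ _ (hb i)) hpq two_ne_zero
  have idd : ∀ (e : ℚ) (Q : Pt T.A T.B L), e ≠ 0 → T.Im (x₀ : L) e z₀ Q → (∀ i, b i = bc _ Q) →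
      ∀ r, ∃ t, x r = t * x₀ ∧ y r = t ^ 3 * e ∧ z r = t * z₀ := fun e Q he hQ h r =>
    hID T r.1 (ι r) (ι' r) x₀ e z₀ Q _ _ _ ok hN.ne hd (hι r) h₀.1 he hQ
      (h ⟨r, ι r⟩ ▸ hb ⟨r, ι r⟩) (h ⟨r, ι' r⟩ ▸ hb ⟨r, ι' r⟩)
  obtain ⟨p, q, hpq, h | h | h⟩ := MAINx.three D hD
    (fun p => b ⟨p, ι p⟩ ≠ 0 ∧ Y (b ⟨p, ι p⟩) = 0) (fun p => b ⟨p, ι p⟩ = bc _ Q₀)
    (fun p => b ⟨p, ι p⟩ = -bc _ Q₀) fun p h => by
      obtain ⟨a1, a2, a3, a4⟩ := hp p h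
      refine hCHP T Γ p.1 (ι p) (ι' p) x₀ y₀ z₀ Q₀ _ _ _ _ (b ⟨p, ι' p⟩) ok hr a1 a2 a3 a4 (hι p) h₀
        hy hQ hI (hon p) (hb ⟨p, ι p⟩) (hb ⟨p, ι' p⟩) fun N => ?_
      obtain ⟨Q, h1, h2⟩ := hcl {⟨p, ι p⟩, ⟨p, ι' p⟩} N
      exact ⟨Q, h1, h2 ⟨p, ι p⟩ (by simp), h2 ⟨p, ι' p⟩ (by simp)⟩
  · obtain ⟨R, -, hR⟩ := core p q 0 hpq Γ.zero_mem (by rw [map_zero, two_smul_of_Y h.1.2])
      (by rw [map_zero, two_smul_of_Y h.2.2])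
    have h1 := h.1
    rw [hR ⟨p, ι p⟩, Y_bc, map_eq_zero, ne_eq, bc_eq_zero] at h1
    have hy0 : ∀ r, y r = 0 := fun r => by
      have h2 := hb ⟨r, ι r⟩
      have h3 : b ⟨r, ι r⟩ ≠ 0 := by rw [hR]; exact mt bc_eq_zero.1 h1.1
      have h4 := mt h2.zero h3
      have h5 := (h2.some h4).2.2
      rw [hR, Y_bc, h1.2, map_zero, eq_comm, div_eq_zero_iff] at h5
      have h6 : (T.a : Via (ι r)) ≠ 0 := (map_ne_zero_iff _ (FaithfulSMul.algebraMap_injective _ _)).2 ha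
      simpa [hd, h6] using h5.resolve_right (pow_ne_zero 3 h4)
    obtain ⟨m, n, hmn, h2⟩ := hWA T R ok hN.ne hd h1.1
    obtain ⟨x₁, z₁, h3, h4⟩ := hWB T S p x z m n hc hS hmn (fun r => hy0 r ▸ hon r)
      fun r => h2 r.1 _ (y r) _ fun j => hR ⟨r, j⟩ ▸ hb ⟨r, j⟩
    exact .inr ⟨x₁, z₁, h3, fun r => ⟨hy0 r, h4 r⟩⟩
  · obtain ⟨R, -, hR⟩ := core p q (2 • Q₀) hpq (Γ.nsmul_mem hQ 2) (by rw [map_nsmul, ← h.1])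
      (by rw [map_nsmul, ← h.2])
    obtain rfl : R = Q₀ := MAINx.bc_inj ((hR ⟨p, ι p⟩).symm.trans h.1)
    exact .inl ⟨y₀, .inl rfl, idd y₀ R hy hI hR⟩
  · obtain ⟨R, -, hR⟩ := core p q (2 • -Q₀) hpq (Γ.nsmul_mem (Γ.neg_mem hQ) 2)
      (by rw [map_nsmul, map_neg, ← h.1]) (by rw [map_nsmul, map_neg, ← h.2])
    obtain rfl : R = -Q₀ := MAINx.bc_inj ((hR ⟨p, ι p⟩).symm.trans (h.1.trans (map_neg _ _).symm))
    exact .inl ⟨-y₀, .inr rfl, idd (-y₀) _ (neg_ne_zero.2 hy) (by simpa using hI.neg) hR⟩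

end Pool.Agent.P.MP_ab3ecb_nt.TS
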