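import Pool.Agent.P.MP_ab3ecb_nt.TS.Iface

/-! Step ULG. -/

set_option autoImplicit false
set_option linter.unusedSectionVars false

namespace Pool.Agent.P.MP_ab3ecb_nt.TS

open Filter Topology NumberField Pool.Agent.P.MP_ab3ecb_nt.TK
open Pool.Agent.P.MP_8b7eba_nt.R2 hiding Sm E1
open scoped Classical NNReal

namespace ULGx

theorem cosets {G : Type} [AddCommGroup G] (P Q : G) :
    ∃ (i : (G ⧸ AddSubgroup.zmultiples P) × Fin 2) (m : ℤ),
      Q = (i.1.out + (i.2 : ℕ) • P) + m • 2 • P := by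
  obtain ⟨⟨h, n, rfl⟩, e⟩ := QuotientAddGroup.mk_out_eq_add (AddSubgroup.zmultiples P) Q
  rcases Int.even_or_odd' (-n) with ⟨m, hm | hm⟩
  · refine ⟨(QuotientAddGroup.mk Q, 0), m, ?_⟩
    have : n = -(2 * m) := by omega
    simp only [e, this, Fin.val_zero]
    module
  · refine ⟨(QuotientAddGroup.mk Q, 1), m, ?_⟩
    have : n = -(2 * m + 1) := by omega
    simp only [e, this, Fin.val_one]
    module

theorem ultra {α ι : Type} (G : Set α) (p : ι → ℝ → α → Prop)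
    (hp : ∀ i N N' a, N ≤ N' → p i N' a → p i N a)
    (h : ∀ (T : Finset ι) (N : ℝ), ∃ a ∈ G, ∀ i ∈ T, p i N a) :
    ∃ U : Ultrafilter α, (∀ᶠ a in (U : Filter α), a ∈ G) ∧
      ∀ i N, ∀ᶠ a in (U : Filter α), p i N a := by
  choose f hf hf' using fun x : Finset ι × ℝ => h x.1 x.2
  refine ⟨(Ultrafilter.of (atTop : Filter (Finset ι × ℝ))).map f, ?_, fun i N => ?_⟩
  · rw [Ultrafilter.coe_map, eventually_map]
    exact .of_forall hf
  · rw [Ultrafilter.coe_map, eventually_map]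
    refine (Ultrafilter.of_le _) ((eventually_ge_atTop (({i}, N) : Finset ι × ℝ)).mono ?_)
    intro x hx
    exact hp i N x.2 _ hx.2 (hf' x i (hx.1 (Finset.mem_singleton_self i)))

end ULGx

theorem p_ULG (hTS : S_TS) :
    S_ULG := by
  rintro K _ _ A B Γ S b ⟨P, hP⟩ hc
  obtain ⟨U, h1, h0⟩ := ULGx.ultra (Γ : Set (Pt A B K))
    (fun (i : Emb K S) N Q => Big N (bc (Via i.2) Q - b i))
    (fun i N N' a hN h => (big_iff _ _).2 (((big_iff _ _).1 h).imp id hN.trans)) hc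
  have h2 : ∀ᶠ Q in (U : Filter _), ∃ i : (Γ ⧸ AddSubgroup.zmultiples P) × Fin 2, ∃ m : ℤ,
      Q = ((i.1.out + (i.2 : ℕ) • P : Γ) : Pt A B K) + m • 2 • (P : Pt A B K) :=
    h1.mono fun Q hQ => by
      obtain ⟨i, m, e⟩ := ULGx.cosets P ⟨Q, hQ⟩
      exact ⟨i, m, congrArg Subtype.val e⟩
  obtain ⟨i, hi⟩ := Ultrafilter.eventually_exists_iff.1 h2
  generalize (i.1.out + (i.2 : ℕ) • P : Γ) = R at hi
  have h3 : ∀ Q : Pt A B K, ∃ m : ℤ, (∃ m : ℤ, Q = R + m • 2 • (P : Pt A B K)) →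
      Q = R + m • 2 • (P : Pt A B K) := fun Q => by
    by_cases h : ∃ m : ℤ, Q = R + m • 2 • (P : Pt A B K)
    · exact h.imp fun m hm _ => hm
    · exact ⟨0, fun h' => absurd h' h⟩
  choose m hm using h3
  refine ⟨P, P.2, R, R.2, U.map m, fun Q hQ => ?_, fun r c hc' => ?_⟩
  · obtain ⟨j, hj⟩ := (AddSubgroup.zmultiples P).nsmul_index_mem ⟨Q, hQ⟩
    refine ⟨2 * (AddSubgroup.zmultiples P).index, j,
      Nat.mul_pos two_pos (Nat.pos_of_ne_zero hP.index_ne_zero), ?_⟩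
    have e : j • (P : Pt A B K) = (AddSubgroup.zmultiples P).index • Q := congrArg Subtype.val hj
    rw [mul_smul, ← e, smul_comm]
  · rw [Ultrafilter.coe_map, eventually_map]
    have h4 : ToO (U : Filter _) fun Q : Pt A B K => bc (Via r.2) Q - b r := fun N =>
      (h0 r N).mono fun Q hQ => (big_iff _ _).1 hQ
    filter_upwards [(hTS A B (Via r.2) _ _ _).1 h4 c hc', hi] with Q hQ hQ'
    rwa [← hm Q hQ']

end Pool.Agent.P.MP_ab3ecb_nt.TS
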