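import Pool.Agent.P.MP_ab3ecb_nt.TS.Two

/-!
Let `L` be the real quadratic field generated by a square root `θ` of the integer `c`. Let `H` be
the curve `d y ^ 2 = f (x, z)` of genus two over the rationals, where `f` is the integral sextic
form `a α ^ 6 + b α ^ 4 β ^ 2 + b' α ^ 2 β ^ 4 + a' β ^ 6`, `α = x - θ z`, `β = x + θ z`, and `a'`,
`b'` are the conjugates of `a`, `b`. Over `L` it is a double cover of the elliptic curve
`d v ^ 2 = a u ^ 3 + b u ^ 2 + b' u + a'`. Assume that the norm of `a` and the discriminant of the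
cubic are negative and let `Γ` be a group of rank at most one of points of the elliptic curve over
`L`. Assume either that four good primes divide `d` exactly once and that `Γ` contains the image of
a rational point of `H` with `y ≠ 0`, or that two good primes divide `d` exactly once and that the
tangent direction of `Γ` modulo these primes is not a root of `f`. Then a family of points of `H`
over the `r`-adic fields, `r` in a cofinite set, whose image lies in the closure of `Γ` is a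
rational point, or all its members lie in a pair of rational points with `y = 0`.
-/

namespace Pool.Agent.P.MP_ab3ecb_nt.TS.TwistSieve

open Pool.Agent.P.MP_ab3ecb_nt.TK (Pt)
open Pool.Agent.P.MP_ab3ecb_nt.TS
open scoped Classical

theorem result (L : Type) [Field L] [NumberField L] (T : Tw L) (hθ : T.θ ^ 2 = T.c)
    (hL : ∀ x : L, ∃ s t : ℚ, x = s + t * T.θ) (hc : ¬ IsSquare T.c) (hN : T.N < 0) (hΔ : T.Δ < 0)
    (Γ : AddSubgroup (Pt T.A T.B L)) (hr : RkOne Γ) (S : Set Nat.Primes) (hS : Sᶜ.Finite)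
    (D : Finset S) (hp : ∀ p ∈ D, T.Good p.1.1)
    (h : (4 ≤ D.card ∧ ∃ x₀ y₀ z₀ : ℚ, T.On x₀ y₀ z₀ ∧ y₀ ≠ 0 ∧ ∃ Q ∈ Γ, T.Im (x₀ : L) y₀ z₀ Q) ∨
      (2 ≤ D.card ∧ ∀ p ∈ D, ∃ Q ∈ Γ, T.Gen Q p.1))
    (x y z : ∀ r : S, ℚ_[r.1.1]) (ha : ∀ r, T.On (x r) (y r) (z r)) (b : Fam T.A T.B S)
    (hb : ∀ i : Emb L S, T.ImV i.ι (x i.r) (y i.r) (z i.r) (b i)) (hcl : InCl Γ b) :
    ∃ x₁ y₁ z₁ : ℚ, T.On x₁ y₁ z₁ ∧ ∀ r, Eqv (x r) (y r) (z r) x₁ y₁ z₁ ∨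
      (y₁ = 0 ∧ Eqv (x r) (y r) (z r) (T.c * z₁) 0 x₁) := by
  have W : (∃ x₁ z₁ : ℚ, T.On x₁ 0 z₁ ∧ ∀ r, y r = 0 ∧
      ∃ t, x r = t * x₁ ∧ z r = t * z₁ ∨ x r = t * (T.c * z₁) ∧ z r = t * x₁) →
      ∃ x₁ y₁ z₁ : ℚ, T.On x₁ y₁ z₁ ∧ ∀ r, Eqv (x r) (y r) (z r) x₁ y₁ z₁ ∨
        (y₁ = 0 ∧ Eqv (x r) (y r) (z r) (T.c * z₁) 0 x₁) := fun ⟨x₁, z₁, h1, h⟩ => by
    refine ⟨x₁, 0, z₁, h1, fun r => ?_⟩
    obtain ⟨h2, t, h3 | h3⟩ := h r
    · exact .inl ⟨t, h3.1, by simp [h2], h3.2⟩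
    · exact .inr ⟨rfl, t, by simp [h3.1], by simp [h2], h3.2⟩
  obtain ⟨hD, x₀, y₀, z₀, h₀, hy, Q₀, hQ, hI⟩ | ⟨hD, hQ⟩ := h
  · obtain ⟨e, he, h⟩ | h := a_MAIN T Γ S D x₀ y₀ z₀ Q₀ x y z b ⟨hθ, hL, hc⟩ hN hΔ hr hS hD
      (fun p h => ⟨by exact_mod_cast (hp p h).1, (hp p h).2⟩) h₀ hy hQ hI ha hb hcl
    · refine ⟨x₀, e, z₀, ⟨h₀.1, ?_⟩, fun r => .inl (h r)⟩
      obtain rfl | rfl := he
      · exact h₀.2
      · rw [neg_sq, h₀.2]
    · exact W h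
  · exact W (main_B T Γ S D x y z b ⟨hθ, hL, hc⟩ hN hΔ hr hS hD hp hQ ha hb hcl)

end Pool.Agent.P.MP_ab3ecb_nt.TS.TwistSieve
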