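import Pool.Agent.P.MP_ab3ecb_nt.TS.All
import Pool.Agent.P.MP_ab3ecb_nt.TS.StmtB

/-! The case of two primes at which the tangent direction is not a branch point. -/

set_option linter.unusedSectionVars false

namespace Pool.Agent.P.MP_ab3ecb_nt.TS

open Filter Topology NumberField Pool.Agent.P.MP_ab3ecb_nt.TK
open Pool.Agent.P.MP_8b7eba_nt.R2 hiding Sm E1
open scoped Classical NNReal

lemma chc {R : Type} [CommRing R] [Algebra.IsIntegral ℤ R] {a b b' a' : R}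
    {M : Type} [Field M] [CharZero M] [Algebra R M] {v : Valuation M ℝ≥0} {p : ℕ} {r : ℝ≥0}
    {Γ : Type} [AddCommGroup Γ] {j : Γ →+ Ec a b b' a' M} {j' : Γ →+ Ec a' b' b a M} {x y : M}
    {P P' : Ec a b b' a' M} {U U' : Ec a' b' b a M} (hp : p.Prime) (h7 : 7 ≤ p) (hvp : v p < 1)
    (hr2 : r ^ 2 ≤ v p) (hRk : Rk Γ) (hG : Gd v a b b' a') (h : HP v a b b' a' r x y P U)
    (c : Cl v j j' P U) (c' : Cl v j j' P' U') (hy : y ≠ 0) (h1 : P' ≠ 0) (h2 : U' ≠ 0)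
    (h3 : Sm v r P') (h4 : Sm v r U') : v (Z P' + x * Z U') < v (Z U') := by
  have hr : r < 1 := (sq_lt_one_iff₀ (by simp)).1 (hr2.trans_lt hvp)
  have h0 : -y - y ≠ 0 := by
    rw [show -y - y = -2 * y by ring]; exact mul_ne_zero (by norm_num) hy
  have hx : v (x - x) < 1 := by simp
  obtain ⟨a1, a2, a3⟩ := a_EXA a b b' a' M v r x (-y) x y _ _ _ _ hG h.neg h hx hr
    (sub_ne_zero.1 h0)
  obtain ⟨b1, b2, b3⟩ := a_EXB a b b' a' M v r x (-y) x y _ _ _ _ hG h.neg h hx hr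
    (sub_ne_zero.1 h0)
  obtain ⟨c1, c2, c3, c4, c5, c6, -⟩ := a_CON a b b' a' M v x y hG h.eq h.vx (h.vy.trans_lt hr)
  have hn : v (-y) ≤ r := by rw [v.map_neg]; exact h.vy
  have y1 : v (-y - y) ≤ 1 := (v.map_sub_le hn h.vy).trans hr.le
  have y2 : v (-y + 2 * y) ≤ r := v.map_add_le hn (vi hG.two.le h.vy)
  have a5 := CHAx.ap_of hr a3 (vi (vi c4 y1) y2)
  rw [sub_sub (1 : M)] at b3
  have b5 := CHAx.ap_of hr b3 (v.map_add_le (by simp) (vi (vi c5 y1) y2))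
  have d := (a_DET _ _ _ _ M v p r Γ j j' _ _ _ _ hp h7 hvp hr2 hRk (c.neg.sub TK.a_MUL c) c' a1 b1
    h1 h2 a2 b2 h3 h4).mono (CHAx.pow_le hr)
  generalize g1 (a : M) b b' (x ^ 2) = g at *
  generalize g1 (a' : M) b' b (1 / x ^ 2) = g' at *
  have e1 := (a5.mul hr (Ap.refl r (-3 * g' * x ^ 3 * Z U'))).symm hr
  have e2 := d.mul hr (Ap.refl r (-3 * g * (-3 * g' * x ^ 3)))
  have e3 := b5.mul hr (Ap.refl r (-3 * g * Z P'))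
  rw [show Z (-P - P) * (-3 * g) * (-3 * g' * x ^ 3 * Z U') =
    Z (-P - P) * Z U' * (-3 * g * (-3 * g' * x ^ 3)) by ring] at e1
  rw [show Z (-U - U) * (-3 * g' * x ^ 3) * (-3 * g * Z P') =
    Z (-U - U) * Z P' * (-3 * g * (-3 * g' * x ^ 3)) by ring] at e3
  have e4 := (((e1.tr hr e2).tr hr e3).cancel h0).symm hr
  rw [mul_assoc, mul_assoc, mul_assoc] at e4
  have e5 := e4.cancel (by norm_num)
  have z0 : 0 < v (Z U') := zero_lt_iff.2 (mt h4.1.eq_zero h2)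
  rw [Ap, map_mul, map_mul, map_pow, c2, h.vx, one_pow, one_mul, one_mul] at e5
  have e : g * (Z P' + x * Z U') =
      (g * Z P' - g' * (x ^ 3 * Z U')) + (g' * x ^ 3 + x * g) * Z U' := by ring
  have e6 : v (g * (Z P' + x * Z U')) < v (Z U') := by
    rw [e]
    refine v.map_add_lt (e5.trans_lt (mul_lt_of_lt_one_right z0 hr)) ?_
    rw [map_mul]
    exact mul_lt_of_lt_one_left z0 c3
  rwa [map_mul, c1, one_mul] at e6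

lemma sm_big {R : Type} [CommRing R] [Algebra.IsIntegral ℤ R] {A B : R} {M : Type} [Field M]
    [Algebra R M] {v : Valuation M ℝ≥0} {δ : M} {P : Pt A B M} (h1 : v δ < 1)
    (h2 : 1 ≤ v (X P * δ ^ 2)) : Sm v (v δ) P := by
  rw [map_mul, map_pow] at h2
  have h3 : 1 < v (X P) := not_le.1 fun h =>
    (h2.trans (mul_le_of_le_one_left' h)).not_gt (pow_lt_one₀ zero_le h1 two_ne_zero)
  refine ⟨.inr h3, (pow_le_pow_iff_left₀ zero_le zero_le two_ne_zero).1 ?_⟩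
  have h4 := mul_le_mul_right h2 (v (Z P) ^ 2)
  rwa [mul_one, ← mul_assoc, v_Z h3, one_mul] at h4

lemma sext {M : Type} [Field M] {v : Valuation M ℝ≥0} {a b b' a' x y z z' : M} (ha : v a ≤ 1)
    (hb : v b ≤ 1) (hb' : v b' ≤ 1) (e : y ^ 2 = a * x ^ 6 + b * x ^ 4 + b' * x ^ 2 + a')
    (hx : v x = 1) (hy : v y < 1) (h : v (z + x * z') < v z') :
    v (a * z ^ 6 + b * z ^ 4 * z' ^ 2 + b' * z ^ 2 * z' ^ 4 + a' * z' ^ 6) < v z' ^ 6 := by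
  have h0 : z' ≠ 0 := fun h0 => by simp [h0] at h
  have h1 : 0 < v z' := zero_lt_iff.2 (v.ne_zero_iff.2 h0)
  obtain ⟨w, rfl⟩ : ∃ w, z = (w - x) * z' := ⟨z / z' + x, by field_simp; ring⟩
  rw [show (w - x) * z' + x * z' = w * z' by ring, map_mul, mul_lt_iff_lt_one_left h1] at h
  have h2 : v (w - x) ≤ 1 := v.map_sub_le h.le hx.le
  have h3 : v (w - 2 * x) ≤ 1 := v.map_sub_le h.le (vi (v_of 2) hx.le)
  have p1 : ∀ n, v ((w - x) ^ n) ≤ 1 := fun n => by simpa using vp h2 n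
  have p2 : ∀ n, v (x ^ n) ≤ 1 := fun n => by simpa using vp hx.le n
  have e1 : a * ((w - x) * z') ^ 6 + b * ((w - x) * z') ^ 4 * z' ^ 2 +
      b' * ((w - x) * z') ^ 2 * z' ^ 4 + a' * z' ^ 6 = (y ^ 2 + w * ((w - 2 * x) *
        (a * ((w - x) ^ 4 + (w - x) ^ 2 * x ^ 2 + x ^ 4) + b * ((w - x) ^ 2 + x ^ 2) + b'))) *
          z' ^ 6 := by
    rw [e]; ring
  rw [e1, map_mul, map_pow, mul_lt_iff_lt_one_left (pow_pos h1 6)]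
  refine v.map_add_lt (by rw [map_pow]; exact pow_lt_one₀ zero_le hy two_ne_zero)
    ((vi' le_rfl (vi h3 (v.map_add_le (v.map_add_le (vi ha (v.map_add_le (v.map_add_le (p1 4)
      (vi (p1 2) (p2 2))) (p2 4))) (vi hb (v.map_add_le (p1 2) (p2 2)))) hb'))).trans_lt h)

lemma chq {L : Type} [Field L] [NumberField L] (T : Tw L) (Γ : AddSubgroup (Pt T.A T.B L))
    (p : Nat.Primes) (ι ι' : L →+* PadicAlgCl p.1) (Q₀ : Pt T.A T.B L)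
    (x y z : ℚ_[p.1]) (b : Pt T.A T.B (Via ι)) (b' : Pt T.A T.B (Via ι')) (hT : T.Ok)
    (hΓ : ∃ P : Γ, (AddSubgroup.zmultiples P).FiniteIndex) (h7 : 7 ≤ p.1) (hd : (p.1 : ℤ) ∣ T.d)
    (hd' : ¬ (p.1 : ℤ) ^ 2 ∣ T.d) (hc : ¬ (p.1 : ℤ) ∣ T.c * T.N * T.Δ) (h : ι' T.θ = -ι T.θ)
    (hQ : Q₀ ∈ Γ) (hI : T.Gen Q₀ p) (hO : T.On x y z)
    (hb : T.Im (algebraMap _ (Via ι) x) (algebraMap _ _ y) (algebraMap _ _ z) b)
    (hb' : T.Im (algebraMap _ (Via ι') x) (algebraMap _ _ y) (algebraMap _ _ z) b')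
    (hB : ∀ N : ℝ, ∃ Q ∈ Γ, Big N (bc (Via ι) Q - b) ∧ Big N (bc (Via ι') Q - b')) :
    b ≠ 0 ∧ Y b = 0 := by
  have hv := vv_int ι hc
  rw [Int.cast_mul, Int.cast_mul, map_mul, map_mul] at hv
  have one : ∀ s t : ℝ≥0, s ≤ 1 → t ≤ 1 → s * t = 1 → s = 1 ∧ t = 1 := fun s t h1 h2 h3 =>
    ⟨h1.antisymm (h3.symm.trans_le (mul_le_of_le_one_right' h2)),
      h2.antisymm (h3.symm.trans_le (mul_le_of_le_one_left' h1))⟩
  obtain ⟨hv, hΔ⟩ := one _ _ (mul_le_one' (v_z _ _) (v_z _ _)) (v_z _ _) hv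
  obtain ⟨hc, hN⟩ := one _ _ (v_z _ _) (v_z _ _) hv
  have hθ : vv ι T.θ = 1 := by
    rw [← Tw.θ_sq (M := Via ι) hT.sq, map_pow, sq] at hc
    exact (one _ _ (v_int _ _) (v_int _ _) hc).1
  have ha : vv ι T.a * vv ι T.a' = 1 := by
    rw [← map_mul, ← hN, ← coe_int (R := 𝓞 L), ← Tw.N_eq hT.sq]; push_cast; rfl
  have hn : ∀ n : ℕ, 0 < n → n < 7 → vv ι n = 1 := fun n h1 h2 => by
    rw [← Int.cast_natCast]
    exact vv_int ι fun h3 => absurd (Nat.le_of_dvd h1 (Int.natCast_dvd_natCast.1 h3)) (by omega)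
  have hG : Gd (vv ι) T.a T.b T.b' T.a' := ⟨hn 2 (by norm_num) (by norm_num),
    hn 3 (by norm_num) (by norm_num), (one _ _ (v_int _ _) (v_int _ _) ha).1,
    (one _ _ (v_int _ _) (v_int _ _) ha).2, by rw [Tw.Δ_eq hT.sq, coe_int, hΔ]⟩
  obtain ⟨δ, hδ⟩ := exists_sq ι T.d
  have hδ0 : δ ≠ 0 := by
    rintro rfl
    rw [zero_pow two_ne_zero, eq_comm, Int.cast_eq_zero] at hδ
    exact hd' (hδ ▸ dvd_zero _)
  obtain ⟨s, hs⟩ := a_SC T.A T.B (cA T.a T.b T.b') (cB T.a T.b T.b' T.a') (Via ι) (Via ι)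
    (RingHom.id _) δ hδ0
    (by rw [RingHom.id_apply, T.A_eq]; push_cast; rw [← hδ]; ring)
    (by rw [RingHom.id_apply, T.B_eq]; push_cast; rw [← hδ]; ring)
  obtain ⟨s', hs'⟩ := a_SC T.A T.B (cA T.a' T.b' T.b) (cB T.a' T.b' T.b T.a) (Via ι') (Via ι)
    (CHPx.ph ι ι') δ hδ0
    (by
      rw [T.A_eq, cA, cA]; push_cast
      simp only [map_mul, map_sub, map_pow, map_ofNat, CHPx.ph_a h, CHPx.ph_b h, CHPx.ph_b' h]
      rw [map_intCast (CHPx.ph ι ι'), ← hδ]; ring)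
    (by
      rw [T.B_eq, cB, cB]; push_cast
      simp only [map_mul, map_sub, map_add, map_pow, map_ofNat, CHPx.ph_a h,
        CHPx.ph_b h, CHPx.ph_b' h, CHPx.ph_a' h]
      rw [map_intCast (CHPx.ph ι ι'), ← hδ]; ring)
  have h2 : p.1 ≠ 2 := by omega
  obtain ⟨h3, h4, h5, u, w, h6, h8⟩ :=
    CHPx.hp h a_UNI hT.sq h2 hd hd' hG hθ hδ hδ0 hO hb hb' (hs b) (hs' b')
  refine ⟨h4, h5 (by_contra fun hy => ?_)⟩
  have hδ1 : vv ι δ ^ 2 = vv ι (p.1 : ℕ) := by rw [← map_pow, hδ, h3]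
  have hδ3 : vv ι δ < 1 := (pow_lt_one_iff_of_nonneg zero_le two_ne_zero).1
    (hδ1.trans_lt (vv_p_lt ι))
  obtain ⟨x₁, y₁, σ, τ, ⟨hq, rfl⟩, e1, e2, e3⟩ := hI
  have q0 := WeierstrassCurve.Affine.Point.some_ne_zero hq
  obtain ⟨k1, k2, k3⟩ := hs (bc _ (.some x₁ y₁ hq))
  obtain ⟨k4, k5, k6⟩ := hs' (bc _ (.some x₁ y₁ hq))
  have k := chc (j := s.comp ((bc _).comp Γ.subtype)) (j' := s'.comp ((bc _).comp Γ.subtype))
    p.2 h7 (vv_p_lt ι) hδ1.le (rk_of hΓ) hG h8 (fun c hc => by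
      obtain ⟨Q, h11, h12, h13⟩ := hB (max 2 (c⁻¹ ^ 2) : ℝ≥0)
      refine ⟨⟨Q, h11⟩, ?_, ?_⟩
      · rw [AddMonoidHom.comp_apply, ← map_sub]
        exact CHPx.sm_of hδ3.le hc (hs _).1 (hs _).2.1 h12
      · rw [AddMonoidHom.comp_apply, ← map_sub]
        exact CHPx.sm_of hδ3.le hc (hs' _).1 (hs' _).2.1 h13)
    (cl_self (⟨_, hQ⟩ : Γ)) (h6 hy) (mt k1.1 (mt bc_eq_zero.1 q0)) (mt k4.1 (mt bc_eq_zero.1 q0))
    (sm_big hδ3 (k2 ▸ by rw [X_bc]; exact e2 ι)) (sm_big hδ3 (k5 ▸ by rw [X_bc]; exact e2 ι'))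
  have zz : ∀ {a b : 𝓞 L} {P : Pt a b (Via ι)} {s t : Via ι}, X P * δ ^ 2 = s → Y P * δ ^ 3 = t →
      Z P = δ * (s / t) := fun {a b P s t} h1 h2 => by
    rw [← h1, ← h2, Z]
    by_cases h : Y P = 0
    · simp [h]
    · field_simp
  have z1 := zz k2 k3
  have z2 := zz k5 k6
  rw [← map_div₀, X_bc, Y_bc, ← map_div₀, X_some, Y_some, e1, map_add, map_mul, map_ratCast,
    map_ratCast, map_add, map_mul, map_ratCast, map_ratCast] at z1 z2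
  erw [CHPx.ph_θ h] at z2
  change vv ι (Z (s (bc _ (.some x₁ y₁ hq))) + u * Z (s' (bc _ (.some x₁ y₁ hq)))) <
    vv ι (Z (s' (bc _ (.some x₁ y₁ hq)))) at k
  rw [z1, z2, mul_left_comm, ← mul_add, map_mul, map_mul,
    mul_lt_mul_iff_right₀ (zero_lt_iff.2 ((vv ι).ne_zero_iff.2 hδ0))] at k
  have k7 := sext hG.ha.le (v_int _ _) (v_int _ _) h8.eq h8.vx (h8.vy.trans_lt hδ3) k
  have nq : ∀ q : ℚ, (vv ι q : ℝ) = padicNorm p.1 q := fun q => by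
    rw [NormedField.valuation_apply, coe_nnnorm, ← map_ratCast (algebraMap ℚ_[p.1] (Via ι)),
      norm_via, Padic.eq_padicNorm]
  have e4 : max (vv ι σ) (vv ι τ) ^ 6 ≤
      vv ι (T.G ((T.c * τ) ^ 2 + T.c * σ ^ 2) (2 * (T.c * τ) * -σ) : ℚ) := by
    rw [← NNReal.coe_le_coe, nq]
    push_cast
    rw [nq, nq]
    exact_mod_cast e3
  have e5 : ((T.G ((T.c * τ) ^ 2 + T.c * σ ^ 2) (2 * (T.c * τ) * -σ) : ℚ) : Via ι) =
      T.G ((T.c * τ : Via ι) ^ 2 + T.c * (-σ) ^ 2) (2 * (T.c * τ) * -σ) := by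
    simp [Tw.G]
  rw [e5, Tw.G_eq hT.sq, ← Tw.θ_sq (M := Via ι) hT.sq] at e4
  have e6 : vv ι ((σ : Via ι) + τ * -(T.θ : Via ι)) ≤ max (vv ι σ) (vv ι τ) :=
    (vv ι).map_add_le (le_max_left _ _) (vi' (le_max_right _ _) (by rw [Valuation.map_neg, hθ]))
  have e7 := k7.trans_le ((pow_le_pow_left' e6 6).trans e4)
  refine e7.ne ?_
  rw [← one_mul (vv ι (_ + _ + _ + _)), ← one_pow 6, ← hθ, ← map_pow, ← map_mul]
  congr 1
  change _ * (_ * (_ + _ * (T.θ : Via ι)) ^ 6 + _ * (_ + _ * (T.θ : Via ι)) ^ 4 * _ +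
    _ * (_ + _ * (T.θ : Via ι)) ^ 2 * _ + _) = _
  ring

theorem main_B {L : Type} [Field L] [NumberField L] (T : Tw L) (Γ : AddSubgroup (Pt T.A T.B L))
    (S : Set Nat.Primes) (D : Finset S) (x y z : ∀ r : S, ℚ_[r.1.1]) (b : Fam T.A T.B S) (ok : T.Ok)
    (hN : T.N < 0) (hΔ : T.Δ < 0) (hr : RkOne Γ) (hS : Sᶜ.Finite) (hD : 2 ≤ D.card)
    (hp : ∀ p ∈ D, T.Good p.1.1) (hQ : ∀ p ∈ D, ∃ Q ∈ Γ, T.Gen Q p.1)
    (hon : ∀ r, T.On (x r) (y r) (z r))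
    (hb : ∀ i : Emb L S, T.ImV i.ι (x i.r) (y i.r) (z i.r) (b i)) (hcl : InCl Γ b) :
    ∃ x₁ z₁ : ℚ, T.On x₁ 0 z₁ ∧ ∀ r, y r = 0 ∧
      ∃ t, x r = t * x₁ ∧ z r = t * z₁ ∨ x r = t * (T.c * z₁) ∧ z r = t * x₁ := by
  obtain ⟨p, hp₀, q, hq₀, hpq⟩ := Finset.one_lt_card.1 hD
  have hd : T.d ≠ 0 := fun h => (hp p hp₀).2.2.1 (h ▸ dvd_zero _)
  have hc : T.c ≠ 0 := fun h => ok.ns (h ▸ IsSquare.zero)
  have ha : T.a ≠ 0 := fun h => hN.ne (by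
    have h1 := Tw.N_eq ok.sq
    rw [h, zero_mul] at h1
    exact_mod_cast h1.symm)
  have hD0 : 4 * T.A ^ 3 + 27 * T.B ^ 2 ≠ 0 := by
    rw [Tw.disc_eq' ok.sq]
    have h1 : (T.Δ : 𝓞 L) ≠ 0 := by exact_mod_cast hΔ.ne
    have h2 : (T.d : 𝓞 L) ≠ 0 := by exact_mod_cast hd
    simp [ha, h1, h2]
  obtain ⟨e1, -, -⟩ := a_EMB T ok
  have hι : ∀ r : S, ∃ ι ι' : L →+* PadicAlgCl r.1.1, ι' T.θ = -ι T.θ := fun r => by
    obtain ⟨t, ht⟩ := IsAlgClosed.exists_pow_nat_eq (T.c : PadicAlgCl r.1.1) two_pos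
    obtain ⟨ι, h1⟩ := e1 _ t ht
    obtain ⟨ι', h2⟩ := e1 _ (-t) (by rw [neg_sq, ht])
    exact ⟨ι, ι', by rw [h1, h2]⟩
  choose ι ι' hι using hι
  obtain ⟨_, hneg, hoth⟩ := a_REAL T ok hN hΔ hd
  have h : ∀ p ∈ D, b ⟨p, ι p⟩ ≠ 0 ∧ Y (b ⟨p, ι p⟩) = 0 := fun p h => by
    obtain ⟨a1, a2, a3, a4⟩ := hp p h
    obtain ⟨Q₀, a5, a6⟩ := hQ p h
    refine chq T Γ p.1 (ι p) (ι' p) Q₀ _ _ _ _ (b ⟨p, ι' p⟩) ok hr (by exact_mod_cast a1) a2 a3 a4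
      (hι p) a5 a6 (hon p) (hb ⟨p, ι p⟩) (hb ⟨p, ι' p⟩) fun N => ?_
    obtain ⟨Q, h1, h2⟩ := hcl {⟨p, ι p⟩, ⟨p, ι' p⟩} N
    exact ⟨Q, h1, h2 ⟨p, ι p⟩ (by simp), h2 ⟨p, ι' p⟩ (by simp)⟩
  obtain ⟨R, -, hR⟩ := a_CORE T.A T.B Γ T.F S b ⟨p, ι p⟩ ⟨q, ι q⟩ 2 0 hD0 hr hS hcl hneg hoth
    (fun i => a_APX T i.2 _ _ _ _ (hb i)) hpq two_ne_zero Γ.zero_mem
    (by rw [map_zero, two_smul_of_Y (h p hp₀).2]) (by rw [map_zero, two_smul_of_Y (h q hq₀).2])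
  have h1 := h p hp₀
  rw [hR ⟨p, ι p⟩, Y_bc, map_eq_zero, ne_eq, bc_eq_zero] at h1
  have hy0 : ∀ r, y r = 0 := fun r => by
    have h2 := hb ⟨r, ι r⟩
    have h3 : b ⟨r, ι r⟩ ≠ 0 := by rw [hR]; exact mt bc_eq_zero.1 h1.1
    have h4 := mt (Tw.Im.zero h2) h3
    have h5 := (Tw.Im.some h2 h4).2.2
    rw [hR, Y_bc, h1.2, map_zero, eq_comm, div_eq_zero_iff] at h5
    have h6 : (T.a : Via (ι r)) ≠ 0 :=
      (map_ne_zero_iff _ (FaithfulSMul.algebraMap_injective _ _)).2 ha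
    simpa [hd, h6] using h5.resolve_right (pow_ne_zero 3 h4)
  obtain ⟨m, n, hmn, h2⟩ := a_WA T R ok hN.ne hd h1.1
  obtain ⟨x₁, z₁, h3, h4⟩ := a_WB T S p x z m n hc hS hmn (fun r => hy0 r ▸ hon r)
    fun r => h2 r.1 _ (y r) _ fun j => hR ⟨r, j⟩ ▸ hb ⟨r, j⟩
  exact ⟨x₁, z₁, h3, fun r => ⟨hy0 r, h4 r⟩⟩

end Pool.Agent.P.MP_ab3ecb_nt.TS
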